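import Pool.Agent.P.MP_9e61a4_lc.Defs

/-! The reduction, as a program on lists; `t` is the isomorphism test. -/

namespace Pool.Agent.P.MP_9e61a4_lc

abbrev Mat := List (List Bool)
abbrev Ds := ℕ × ℕ × ℕ × ℕ
abbrev PL := List ℕ

def mget (A : Mat) (i j : ℕ) : Bool := (A.getD i []).getD j false

/-- Reflexive symmetric closure of the relation stored in `R`. -/
def srelB (R : Mat) (a b : ℕ) : Bool := a == b || mget R a b || mget R b a

/-! ### The gadget graph -/

/-- Vertex descriptors: `(0,0,u,0)` vertex, `(1,0,u,0)` copy, `(2,r,u,v)` pair vertex of layer `r`,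
`(3,0,i,0)` ruler, `(4,w,0,0)` with `w = 0,1,2` the special vertices `s,o,e`. -/
def vsL (n j k : ℕ) : List Ds :=
  (List.range n).map (fun u => (0, 0, u, 0)) ++ (List.range n).map (fun u => (1, 0, u, 0)) ++
  ((List.range j).flatMap fun r => (List.range n).flatMap fun u =>
    (List.range n).map fun v => (2, r, u, v)) ++
  (List.range (j + k + 5)).map (fun i => (3, 0, i, 0)) ++ [(4, 0, 0, 0), (4, 1, 0, 0), (4, 2, 0, 0)]

def halfD (A : Mat) (Rs : List Mat) (ms : List ℕ) (x y : Ds) : Bool :=
  (x.1 == 0 && y.1 == 0 && mget A x.2.2.1 y.2.2.1) ||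
  (x.1 == 0 && y.1 == 1 && x.2.2.1 == y.2.2.1) ||
  (x.1 == 0 && y.1 == 2 && x.2.2.1 == y.2.2.1) ||
  (x.1 == 1 && y.1 == 2 && x.2.2.1 == y.2.2.2) ||
  (x.1 == 2 && y.1 == 2 && x.2.1 == y.2.1 && !(x.2.2 == y.2.2) &&
    srelB (Rs.getD x.2.1 []) (x.2.2.1 * A.length + x.2.2.2) (y.2.2.1 * A.length + y.2.2.2)) ||
  (x.1 == 0 && y.1 == 3 && (y.2.2.1 == 1 ||
    (decide (Rs.length + 3 ≤ y.2.2.1) && decide (y.2.2.1 < Rs.length + 3 + ms.length) &&
      ms.getD (y.2.2.1 - (Rs.length + 3)) 0 == x.2.2.1))) ||
  (x.1 == 1 && y.1 == 3 && y.2.2.1 == 2) ||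
  (x.1 == 2 && y.1 == 3 && y.2.2.1 == x.2.1 + 3) ||
  (x.1 == 3 && y.1 == 3 && y.2.2.1 == x.2.2.1 + 1) ||
  (x.1 == 3 && y.1 == 4 && (y.2.1 == 0 ||
    (y.2.1 == 2 && decide (Rs.length + ms.length + 3 ≤ x.2.2.1)))) ||
  (x.1 == 4 && y.1 == 4 && x.2.1 == 0 && y.2.1 == 1)

def gad (A : Mat) (Rs : List Mat) (ms : List ℕ) : Mat :=
  (vsL A.length Rs.length ms.length).map fun x => (vsL A.length Rs.length ms.length).map fun y =>
    halfD A Rs ms x y || halfD A Rs ms y x

/-- The test for the original vertices inside a copy of the gadget graph. -/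
def isVB (Z : Mat) (x : ℕ) : Bool :=
  (List.range Z.length).any fun o => (List.range Z.length).any fun s =>
  (List.range Z.length).any fun q => (List.range Z.length).any fun r =>
    mget Z o s && ((List.range Z.length).all fun z => !mget Z o z || z == s) &&
    mget Z q s && mget Z q r && !(r == s) &&
    ((List.range Z.length).all fun z => !mget Z q z || z == s || z == r) &&
    mget Z x r && !mget Z x s && !(x == s)

def dec (Z : Mat) : Mat :=
  ((List.range Z.length).filter (isVB Z)).map fun x =>
    ((List.range Z.length).filter (isVB Z)).map fun y => mget Z x y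

/-! ### Permutations as lists -/

def mulL (n : ℕ) (a b : PL) : PL :=
  (List.range n).map fun x => min n (a.getD (b.getD x 0) 0)

def invL (n : ℕ) (a : PL) : PL :=
  (List.range n).map fun y => (((List.range n).filter fun x => a.getD x 0 == y).headD 0)

def powL (n : ℕ) (a : PL) (k : ℕ) : PL := (mulL n a)^[k] (List.range n)

/-- Raise to the product of all `j ≤ n` not divisible by `p`. -/
def pwM (n p : ℕ) (a : PL) : PL :=
  (List.range (n + 1)).foldl (fun h j => if j % p = 0 then h else powL n h j) a

def actP (n : ℕ) (h : PL) (a : ℕ) : ℕ := h.getD (a / n) 0 * n + h.getD (a % n) 0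

def moved (n : ℕ) (R : Mat) (h : PL) : Bool :=
  (List.range (n * n)).any fun a => !srelB R (actP n h a) a

def upd (n : ℕ) (R : Mat) (h : PL) : Mat :=
  (List.range (n * n)).map fun a => (List.range (n * n)).map fun b =>
    (List.range (n * n)).any fun i => srelB R (actP n (powL n h i) a) b

/-! ### Sifting tables and derived series -/

def fixB (i : ℕ) (g : PL) : Bool := (List.range i).all fun l => g.getD l 0 == l

def lk (T : List PL) (i j : ℕ) : List PL := T.filter fun t => fixB i t && t.getD i 0 == j

def siftStep (n : ℕ) (T : List PL) (g : PL) (i : ℕ) : PL :=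
  if fixB i g && !(lk T i (g.getD i 0)).isEmpty then
    mulL n (invL n ((lk T i (g.getD i 0)).headD [])) g else g

def res (n : ℕ) (T : List PL) (g : PL) : PL :=
  mulL n (List.range n) ((List.range n).foldl (siftStep n T) g)

def addT (n : ℕ) (T : List PL) (g : PL) : List PL :=
  if res n T g = List.range n then T else (T ++ [res n T g]).take (n * n + 1)

def roundT (n : ℕ) (gs cs T : List PL) : List PL :=
  (gs ++ (T.flatMap fun a => T.map fun b => mulL n a b) ++
    (cs.flatMap fun c => T.map fun a => mulL n (mulL n c a) (invL n c))).foldl (addT n) T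

def closeT (n : ℕ) (gs cs : List PL) : List PL := (roundT n gs cs)^[n * n + 1] [List.range n]

def commL (n : ℕ) (a b : PL) : PL := mulL n (mulL n (mulL n a b) (invL n a)) (invL n b)

def derT (n : ℕ) (T : List PL) : List PL :=
  closeT n (T.flatMap fun a => T.map fun b => commL n a b) T

def allD (n : ℕ) (T : List PL) : List PL :=
  (List.range (n * n)).flatMap fun i => (derT n)^[i] T

def solvB (n : ℕ) (T : List PL) : Bool := ((derT n)^[n * n] T).all fun g => g == List.range n

def primeB (p : ℕ) : Bool :=
  decide (2 ≤ p) && (List.range p).all fun d => decide (d < 2) || !(p % d == 0)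

/-! ### The part that uses the isomorphism test -/

section

variable (t : Mat × Mat → Bool)

def okB (A : Mat) (Rs : List Mat) (σ : List (ℕ × ℕ)) : Bool :=
  t (gad A Rs (σ.map Prod.fst), gad A Rs (σ.map Prod.snd))

def extStep (A : Mat) (Rs : List Mat) (σ : List (ℕ × ℕ)) (x : ℕ) : List (ℕ × ℕ) :=
  σ ++ [(x, ((List.range A.length).filter fun y => okB t A Rs (σ ++ [(x, y)])).headD 0)]

def ext (A : Mat) (Rs : List Mat) (σ : List (ℕ × ℕ)) : PL :=
  if okB t A Rs σ then
    (((List.range A.length).foldl (extStep t A Rs) σ).drop σ.length).map Prod.snd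
  else List.range A.length

def gens (A : Mat) (Rs : List Mat) : List PL :=
  (List.range A.length).flatMap fun i => (List.range A.length).map fun j =>
    ext t A Rs ((List.range i).map (fun l => (l, l)) ++ [(i, j)])

/-- All pairs of numbers below `n`. -/
def prs (n : ℕ) : List (ℕ × ℕ) := (List.range n).flatMap fun u => (List.range n).map fun v => (u, v)

def swaps (A : Mat) (Rs : List Mat) : List PL :=
  (prs A.length).flatMap fun a => (prs A.length).flatMap fun b => (prs A.length).map fun c =>
    ext t A Rs [(a.1, b.1), (a.2, b.2), (b.1, c.1), (b.2, c.2)]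

def cands (A : Mat) (Rs : List Mat) : List PL := swaps t A Rs ++ allD A.length (gens t A Rs)

def good (A : Mat) (Rs : List Mat) (p : ℕ) (R : Mat) : List PL :=
  ((cands t A (R :: Rs)).map (pwM A.length p)).filter (moved A.length R)

def stepR (A : Mat) (Rs : List Mat) (p : ℕ) (R : Mat) : Mat :=
  if (good t A Rs p R).isEmpty then R else upd A.length R ((good t A Rs p R).headD [])

def loopR (A : Mat) (Rs : List Mat) (p : ℕ) : Mat := (stepR t A Rs p)^[A.length ^ 4 + 1] []

def primeStep (A : Mat) (Rs : List Mat) (p : ℕ) : List Mat :=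
  if primeB p then loopR t A Rs p :: Rs else Rs

def deco (A : Mat) : List Mat :=
  if solvB A.length (gens t A [loopR t A [] 2]) then
    (List.range (A.length + 1)).foldl (primeStep t A) [loopR t A [] 2]
  else [loopR t A [] 2]

def red (A : Mat) : Mat := gad A (deco t A) []

end

end Pool.Agent.P.MP_9e61a4_lc
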