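import Pool.Agent.K.MP_9e61a4_lc.C0
import Pool.Agent.Lib.PolyTime.Parse
import Pool.Agent.P.MP_9e61a4_lc.Defs

-- part Pool.Agent.P.MP_9e61a4_lc.Sem
section

/-! Notions used in the correctness proof. -/

namespace Pool.Agent.P.MP_9e61a4_lc

open Equiv

variable {n : ℕ}

/-- The list of images of a permutation. -/
def pl (π : Perm (Fin n)) : PL := List.ofFn fun i => ((π i : Fin n) : ℕ)

def code (a : Fin n × Fin n) : ℕ := (a.1 : ℕ) * n + (a.2 : ℕ)

def srel (R : Mat) (a b : Fin n × Fin n) : Prop := srelB R (code a) (code b) = true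

/-- `π` is an isomorphism of decorated graphs. -/
def Maps (G₁ : SimpleGraph (Fin n)) (Rs₁ : List Mat) (G₂ : SimpleGraph (Fin n)) (Rs₂ : List Mat)
    (π : Perm (Fin n)) : Prop :=
  (∀ u v, G₂.Adj (π u) (π v) ↔ G₁.Adj u v) ∧ Rs₁.length = Rs₂.length ∧
    ∀ r < Rs₁.length, ∀ a b : Fin n × Fin n,
      srel (Rs₂.getD r []) (π • a) (π • b) ↔ srel (Rs₁.getD r []) a b

theorem Maps.mul {G₁ G₂ G₃ : SimpleGraph (Fin n)} {Rs₁ Rs₂ Rs₃ : List Mat} {π ρ : Perm (Fin n)}
    (h : Maps G₂ Rs₂ G₃ Rs₃ π) (h' : Maps G₁ Rs₁ G₂ Rs₂ ρ) : Maps G₁ Rs₁ G₃ Rs₃ (π * ρ) :=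
  ⟨fun u v => (h.1 _ _).trans (h'.1 u v), h'.2.1.trans h.2.1, fun r hr a b => by
    rw [mul_smul, mul_smul]
    exact (h.2.2 r (h'.2.1 ▸ hr) _ _).trans (h'.2.2 r hr a b)⟩

theorem Maps.inv {G₁ G₂ : SimpleGraph (Fin n)} {Rs₁ Rs₂ : List Mat} {π : Perm (Fin n)}
    (h : Maps G₁ Rs₁ G₂ Rs₂ π) : Maps G₂ Rs₂ G₁ Rs₁ π⁻¹ :=
  ⟨fun u v => by simpa using (h.1 (π⁻¹ u) (π⁻¹ v)).symm, h.2.1.symm, fun r hr a b => by
    simpa using (h.2.2 r (h.2.1 ▸ hr) (π⁻¹ • a) (π⁻¹ • b)).symm⟩

/-- The automorphism group of a decorated graph. -/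
def AutS (G : SimpleGraph (Fin n)) (Rs : List Mat) : Subgroup (Perm (Fin n)) where
  carrier := {π | Maps G Rs G Rs π}
  one_mem' := ⟨fun _ _ => Iff.rfl, rfl, fun _ _ _ _ => by simp⟩
  mul_mem' := Maps.mul
  inv_mem' := Maps.inv

theorem maps_cons {G₁ G₂ : SimpleGraph (Fin n)} {R₁ R₂ : Mat} {Rs₁ Rs₂ : List Mat}
    {π : Perm (Fin n)} : Maps G₁ (R₁ :: Rs₁) G₂ (R₂ :: Rs₂) π ↔ Maps G₁ Rs₁ G₂ Rs₂ π ∧
      ∀ a b : Fin n × Fin n, srel R₂ (π • a) (π • b) ↔ srel R₁ a b := by
  constructor
  · rintro ⟨h1, h2, h3⟩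
    exact ⟨⟨h1, by simpa using h2, fun r hr => by
      simpa using h3 (r + 1) (by simpa using hr)⟩, by simpa using h3 0 (by simp)⟩
  · rintro ⟨⟨h1, h2, h3⟩, h4⟩
    refine ⟨h1, by simpa using h2, fun r hr => ?_⟩
    cases r with
    | zero => simpa using h4
    | succ r => simpa using h3 r (by simpa using hr)

/-- `π` agrees with the list of prescribed images. -/
def Extd (π : Perm (Fin n)) (σ : List (ℕ × ℕ)) : Prop :=
  ∀ q ∈ σ, ∀ x : Fin n, (x : ℕ) = q.1 → ((π x : Fin n) : ℕ) = q.2

/-- `t` decides isomorphism. -/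
def Tests (t : Mat × Mat → Bool) : Prop :=
  ∀ (m : ℕ) (G H : SimpleGraph (Fin m)), t (adjMat G, adjMat H) = true ↔ Nonempty (G ≃g H)

/-- The product of all `j ≤ n` not divisible by `p`. -/
def Mn (n p : ℕ) : ℕ := ∏ j ∈ (Finset.range (n + 1)).filter (fun j => ¬p ∣ j), j

section

variable {V : Type}

/-- Two pairs lie in one orbit of `L`. -/
def Orb (L : Subgroup (Perm V)) (a b : V × V) : Prop := ∃ l ∈ L, l • a = b

/-- `g` permutes the orbits of `L` on pairs. -/
def Pres (L : Subgroup (Perm V)) (g : Perm V) : Prop :=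
  ∀ a b : V × V, Orb L (g • a) (g • b) ↔ Orb L a b

/-- The elements of `H` that fix every orbit of `L` on pairs. -/
def clo (H L : Subgroup (Perm V)) : Subgroup (Perm V) where
  carrier := {g | g ∈ H ∧ ∀ a : V × V, Orb L a (g • a)}
  one_mem' := ⟨H.one_mem, fun _ => ⟨1, L.one_mem, rfl⟩⟩
  mul_mem' := fun {g h} hg hh => ⟨H.mul_mem hg.1 hh.1, fun a => by
    obtain ⟨l, hl, e⟩ := hh.2 a
    obtain ⟨l', hl', e'⟩ := hg.2 (h • a)
    exact ⟨l' * l, L.mul_mem hl' hl, by rw [mul_smul, e, e', mul_smul]⟩⟩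
  inv_mem' := fun {g} hg => ⟨H.inv_mem hg.1, fun a => by
    obtain ⟨l, hl, e⟩ := hg.2 (g⁻¹ • a)
    exact ⟨l⁻¹, L.inv_mem hl, by rw [inv_smul_eq_iff, e, smul_inv_smul]⟩⟩

/-- `K` is a maximal `p`-subgroup of `H`. -/
def MaxP (p : ℕ) (H K : Subgroup (Perm V)) : Prop :=
  K ≤ H ∧ IsPGroup p K ∧ ∀ Q ≤ H, IsPGroup p Q → K ≤ Q → Q = K

/-- The derived series of a subgroup. -/
def dser (N : Subgroup (Perm V)) : ℕ → Subgroup (Perm V)
  | 0 => N
  | i + 1 => ⁅dser N i, dser N i⁆

/-- The first-order description of the original vertices in the gadget graph. -/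
def IsV (Z : SimpleGraph V) (x : V) : Prop :=
  ∃ o s q r, Z.Adj o s ∧ (∀ z, Z.Adj o z → z = s) ∧ Z.Adj q s ∧ Z.Adj q r ∧ r ≠ s ∧
    (∀ z, Z.Adj q z → z = s ∨ z = r) ∧ Z.Adj x r ∧ ¬Z.Adj x s ∧ x ≠ s

end

/-- The vertices of the gadget graph. -/
inductive Vx (n j k : ℕ) : Type
  | v (u : Fin n)
  | w (u : Fin n)
  | p (r : Fin j) (a : Fin n × Fin n)
  | q (i : Fin (j + k + 5))
  | s
  | o
  | e

/-- One direction of the adjacency relation of the gadget graph. -/
def Half (G : SimpleGraph (Fin n)) (j k : ℕ) (Rs : List Mat) (ms : List ℕ) :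
    Vx n j k → Vx n j k → Prop
  | .v u, .v u' => G.Adj u u'
  | .v u, .w u' => u = u'
  | .v u, .p _ a => u = a.1
  | .w u, .p _ a => u = a.2
  | .p r a, .p r' b => r = r' ∧ a ≠ b ∧ srel (Rs.getD r []) a b
  | .v u, .q i => (i : ℕ) = 1 ∨ (j + 3 ≤ (i : ℕ) ∧ (i : ℕ) < j + 3 + k ∧ ms.getD (i - (j + 3)) 0 = u)
  | .w _, .q i => (i : ℕ) = 2
  | .p r _, .q i => (i : ℕ) = r + 3
  | .q i, .q i' => (i' : ℕ) = i + 1
  | .q _, .s => True
  | .q i, .e => j + k + 3 ≤ (i : ℕ)
  | .s, .o => True
  | _, _ => False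

/-- The gadget graph. -/
def GW (G : SimpleGraph (Fin n)) (j k : ℕ) (Rs : List Mat) (ms : List ℕ) :
    SimpleGraph (Vx n j k) where
  Adj x y := Half G j k Rs ms x y ∨ Half G j k Rs ms y x
  symm := ⟨fun _ _ h => h.symm⟩
  loopless := ⟨fun x h => by cases x <;> simp [Half] at h⟩

def liftF (j k : ℕ) (π : Perm (Fin n)) : Vx n j k → Vx n j k
  | .v u => .v (π u)
  | .w u => .w (π u)
  | .p r a => .p r (π • a)
  | x => x

/-- The action of the permutations of the original vertices on the gadget. -/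
def liftV (j k : ℕ) : Perm (Fin n) →* Perm (Vx n j k) where
  toFun π := ⟨liftF j k π, liftF j k π⁻¹, fun x => by cases x <;> simp [liftF],
    fun x => by cases x <;> simp [liftF]⟩
  map_one' := by ext x; cases x <;> simp [liftF]
  map_mul' π ρ := by ext x; cases x <;> simp [liftF, mul_smul]

def desc {j k : ℕ} : Vx n j k → Ds
  | .v u => (0, 0, u, 0)
  | .w u => (1, 0, u, 0)
  | .p r a => (2, r, a.1, a.2)
  | .q i => (3, 0, i, 0)
  | .s => (4, 0, 0, 0)
  | .o => (4, 1, 0, 0)
  | .e => (4, 2, 0, 0)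

end Pool.Agent.P.MP_9e61a4_lc
end

-- part Pool.Agent.P.MP_9e61a4_lc.PLem
section

/-! Permutations as lists. -/

namespace Pool.Agent.P.MP_9e61a4_lc

open Equiv

variable {n : ℕ}

theorem length_adjMat (G : SimpleGraph (Fin n)) : (adjMat G).length = n := by
  simp [adjMat]

theorem mget_adjMat (G : SimpleGraph (Fin n)) (u v : Fin n) :
    mget (adjMat G) u v = true ↔ G.Adj u v := by
  simp [mget, adjMat, List.getD_eq_getElem?_getD]

theorem getD_pl (π : Perm (Fin n)) (i : Fin n) : (pl π).getD i 0 = π i := by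
  simp [pl, List.getD_eq_getElem?_getD]

theorem pl_inj {π ρ : Perm (Fin n)} (h : pl π = pl ρ) : π = ρ := by
  ext i
  rw [← getD_pl π i, ← getD_pl ρ i, h]

theorem PLem_map_eq (π : Perm (Fin n)) (f : ℕ → ℕ) (h : ∀ i : Fin n, f i = π i) :
    (List.range n).map f = pl π := by
  apply List.ext_getElem
  · simp [pl]
  · intro i h1 h2
    have hi : i < n := by simpa using h1
    simpa [pl] using h ⟨i, hi⟩

theorem pl_one : pl (1 : Perm (Fin n)) = List.range n := by
  rw [← PLem_map_eq (1 : Perm (Fin n)) id (fun i => rfl), List.map_id]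

theorem mulL_pl (π ρ : Perm (Fin n)) : mulL n (pl π) (pl ρ) = pl (π * ρ) := by
  apply PLem_map_eq
  intro i
  rw [getD_pl, getD_pl, min_eq_right (π (ρ i)).2.le]
  rfl

theorem PLem_headD (l : List ℕ) (c : ℕ) (hc : c ∈ l) (hall : ∀ x ∈ l, x = c) : l.headD 0 = c := by
  cases l with
  | nil => simp at hc
  | cons a l => exact hall a (by simp)

theorem invL_pl (π : Perm (Fin n)) : invL n (pl π) = pl π⁻¹ := by
  apply PLem_map_eq
  intro y
  apply PLem_headD
  · rw [List.mem_filter, List.mem_range]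
    refine ⟨(π⁻¹ y).2, ?_⟩
    rw [getD_pl]
    simp
  · intro x hx
    rw [List.mem_filter, List.mem_range] at hx
    obtain ⟨hx, hx2⟩ := hx
    have h1 := getD_pl π ⟨x, hx⟩
    have h2 : (pl π).getD x 0 = y := by simpa using hx2
    have h3 : π ⟨x, hx⟩ = y := Fin.ext (h1.symm.trans h2)
    rw [← h3]
    simp

theorem powL_pl (π : Perm (Fin n)) (k : ℕ) : powL n (pl π) k = pl (π ^ k) := by
  unfold powL
  induction k with
  | zero => simp [pl_one]
  | succ k ih => rw [Function.iterate_succ_apply', ih, mulL_pl, pow_succ']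

theorem PLem_foldl (p : ℕ) (π : Perm (Fin n)) (m : ℕ) :
    (List.range m).foldl (fun h j => if j % p = 0 then h else powL n h j) (pl π)
      = pl (π ^ ∏ j ∈ (Finset.range m).filter (fun j => ¬p ∣ j), j) := by
  induction m with
  | zero => simp
  | succ m ih =>
    rw [List.range_succ, List.foldl_append, ih, Finset.prod_filter, Finset.prod_filter,
      Finset.prod_range_succ]
    simp only [List.foldl_cons, List.foldl_nil]
    by_cases h : p ∣ m
    · rw [if_pos (Nat.mod_eq_zero_of_dvd h), if_neg (not_not.2 h), mul_one]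
    · rw [if_neg (fun h0 => h (Nat.dvd_of_mod_eq_zero h0)), if_pos h, powL_pl, pow_mul]

theorem pwM_pl (p : ℕ) (π : Perm (Fin n)) : pwM n p (pl π) = pl (π ^ Mn n p) :=
  PLem_foldl p π (n + 1)

theorem Mn_coprime {p : ℕ} (hp : p.Prime) (n : ℕ) : (Mn n p).Coprime p := by
  unfold Mn
  refine Nat.Coprime.prod_left fun j hj => ?_
  exact ((Nat.Prime.coprime_iff_not_dvd hp).2 (Finset.mem_filter.1 hj).2).symm

theorem PLem_period {V : Type} [Fintype V] [MulAction (Perm (Fin n)) V] (π : Perm (Fin n))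
    (a : V) : 0 < MulAction.period π a ∧ MulAction.period π a ≤ Fintype.card V :=
  ⟨MulAction.period_pos_of_orderOf_pos (orderOf_pos π) a, by
    rw [MulAction.period_eq_minimalPeriod]
    exact Function.minimalPeriod_le_card⟩

theorem pow_Mn {p : ℕ} (hp : p.Prime) (π : Perm (Fin n)) : ∃ k, (π ^ Mn n p) ^ p ^ k = 1 := by
  refine ⟨n, ?_⟩
  ext x
  obtain ⟨h0, hle⟩ := PLem_period π x
  rw [Fintype.card_fin] at hle
  obtain ⟨e, m, hm, he⟩ := Nat.exists_eq_pow_mul_and_not_dvd h0.ne' p hp.ne_one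
  have hm0 : 0 < m := Nat.pos_of_ne_zero (by rintro rfl; exact hm (dvd_zero _))
  have hmn : m ≤ n := le_trans (Nat.le_of_dvd h0 (he ▸ dvd_mul_left _ _)) hle
  have hen : e ≤ n := by
    have h1 : p ^ e ≤ n := le_trans (Nat.le_of_dvd h0 (he ▸ dvd_mul_right _ _)) hle
    exact le_trans (Nat.lt_pow_self hp.one_lt).le h1
  have hd1 : m ∣ Mn n p :=
    Finset.dvd_prod_of_mem (fun j => j)
      (Finset.mem_filter.2 ⟨Finset.mem_range.2 (by omega), hm⟩)
  have hd : MulAction.period π x ∣ Mn n p * p ^ n := by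
    rw [he, mul_comm]
    exact mul_dvd_mul hd1 (pow_dvd_pow p hen)
  have := MulAction.pow_smul_eq_iff_period_dvd.2 hd
  rw [← pow_mul]
  exact congrArg Fin.val this

theorem code_lt (a : Fin n × Fin n) : code a < n * n := by
  unfold code
  have h1 := a.1.2
  have h2 := a.2.2
  calc (a.1 : ℕ) * n + a.2 < (a.1 : ℕ) * n + n := by omega
    _ = ((a.1 : ℕ) + 1) * n := by ring
    _ ≤ n * n := Nat.mul_le_mul_right _ h1

theorem PLem_div (a : Fin n × Fin n) : code a / n = a.1 := by
  have h2 := a.2.2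
  unfold code
  rw [add_comm, Nat.add_mul_div_right _ _ (by omega), Nat.div_eq_of_lt h2, zero_add]

theorem PLem_mod (a : Fin n × Fin n) : code a % n = a.2 := by
  have h2 := a.2.2
  unfold code
  rw [add_comm, Nat.add_mul_mod_self_right, Nat.mod_eq_of_lt h2]

theorem code_inj {a b : Fin n × Fin n} (h : code a = code b) : a = b := by
  refine Prod.ext (Fin.ext ?_) (Fin.ext ?_)
  · rw [← PLem_div a, ← PLem_div b, h]
  · rw [← PLem_mod a, ← PLem_mod b, h]

theorem exists_code {c : ℕ} (h : c < n * n) : ∃ a : Fin n × Fin n, code a = c := by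
  have hn : 0 < n := Nat.pos_of_ne_zero (by rintro rfl; simp at h)
  refine ⟨(⟨c / n, Nat.div_lt_of_lt_mul h⟩, ⟨c % n, Nat.mod_lt _ hn⟩), ?_⟩
  exact Nat.div_add_mod' c n

theorem actP_pl (π : Perm (Fin n)) (a : Fin n × Fin n) :
    actP n (pl π) (code a) = code (π • a) := by
  unfold actP
  rw [PLem_div, PLem_mod, getD_pl, getD_pl]
  rfl

theorem moved_pl (R : Mat) (π : Perm (Fin n)) :
    moved n R (pl π) = true ↔ ∃ a : Fin n × Fin n, ¬srel R (π • a) a := by
  unfold moved srel
  rw [List.any_eq_true]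
  constructor
  · rintro ⟨c, hc, h⟩
    obtain ⟨a, rfl⟩ := exists_code (List.mem_range.1 hc)
    rw [actP_pl] at h
    exact ⟨a, by simpa using h⟩
  · rintro ⟨a, h⟩
    refine ⟨code a, List.mem_range.2 (code_lt a), ?_⟩
    rw [actP_pl]
    simpa using h

theorem srel_nil (a b : Fin n × Fin n) : srel [] a b ↔ a = b := by
  unfold srel srelB mget
  simp only [List.getD_nil, Bool.or_false, beq_iff_eq]
  exact ⟨code_inj, fun h => h ▸ rfl⟩

theorem PLem_mget (R : Mat) (π : Perm (Fin n)) (a b : Fin n × Fin n) :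
    mget (upd n R (pl π)) (code a) (code b) = true ↔ ∃ i : ℕ, srel R (π ^ i • a) b := by
  have e : mget (upd n R (pl π)) (code a) (code b)
      = (List.range (n * n)).any fun i => srelB R (actP n (powL n (pl π) i) (code a)) (code b) := by
    simp [mget, upd, List.getD_eq_getElem?_getD, code_lt a, code_lt b]
  rw [e, List.any_eq_true]
  simp only [powL_pl, actP_pl]
  constructor
  · rintro ⟨i, -, h⟩
    exact ⟨i, h⟩
  · rintro ⟨i, h⟩
    obtain ⟨h0, hle⟩ := PLem_period π a
    refine ⟨i % MulAction.period π a, List.mem_range.2 ?_, ?_⟩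
    · have : Fintype.card (Fin n × Fin n) = n * n := by simp
      exact lt_of_lt_of_le (Nat.mod_lt _ h0) (this ▸ hle)
    · rw [MulAction.pow_mod_period_smul]
      exact h

theorem srel_upd (R : Mat) (π : Perm (Fin n)) (a b : Fin n × Fin n) :
    srel (upd n R (pl π)) a b ↔
      a = b ∨ (∃ i : ℕ, srel R (π ^ i • a) b) ∨ ∃ i : ℕ, srel R (π ^ i • b) a := by
  rw [← PLem_mget, ← PLem_mget]
  unfold srel srelB
  rw [Bool.or_eq_true, Bool.or_eq_true, beq_iff_eq, or_assoc]
  exact or_congr ⟨code_inj, fun h => h ▸ rfl⟩ Iff.rfl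

theorem primeB_iff (p : ℕ) : primeB p = true ↔ p.Prime := by
  rw [Nat.prime_def_lt']
  unfold primeB
  simp only [Bool.and_eq_true, decide_eq_true_eq, List.all_eq_true, List.mem_range,
    Bool.or_eq_true, Bool.not_eq_true', beq_eq_false_iff_ne]
  refine and_congr Iff.rfl ⟨fun h m h2 hm hd => ?_, fun h d hd => ?_⟩
  · rcases h m hm with h' | h'
    · omega
    · exact h' (Nat.mod_eq_zero_of_dvd hd)
  · by_cases h2 : d < 2
    · exact Or.inl h2
    · exact Or.inr fun h0 => h d (by omega) hd (Nat.dvd_of_mod_eq_zero h0)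

end Pool.Agent.P.MP_9e61a4_lc
end

-- part Pool.Agent.P.MP_9e61a4_lc.GadB
section

/-! The gadget matrix, and decoding. -/

namespace Pool.Agent.P.MP_9e61a4_lc

open Equiv

theorem GadB_enum {X β : Type} (L : List β) (hL : L.Nodup) (d : X → β) (hd : Function.Injective d)
    (h : ∀ b, b ∈ L ↔ ∃ x, d x = b) :
    ∃ (m : ℕ) (e : Fin m ≃ X), L = List.ofFn fun i => d (e i) := by
  have h1 : ∀ i : Fin L.length, ∃ x, d x = L.get i := fun i => (h _).1 (List.get_mem L i)
  choose f hf using h1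
  have h2 : Function.Bijective f := by
    constructor
    · intro i i' hi
      have h3 : L.get i = L.get i' := by rw [← hf, ← hf, hi]
      exact (List.nodup_iff_injective_get.1 hL) h3
    · intro x
      obtain ⟨i, hi⟩ := List.get_of_mem ((h _).2 ⟨x, rfl⟩)
      exact ⟨i, hd (by rw [hf, hi])⟩
  refine ⟨L.length, Equiv.ofBijective f h2, ?_⟩
  simp only [Equiv.ofBijective_apply, hf]
  exact (List.ofFn_get L).symm

theorem GadB_mat {β : Type} {m : ℕ} (g : Fin m → β) (f : β → β → Bool) (Z : SimpleGraph (Fin m))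
    (h : ∀ i j, f (g i) (g j) = true ↔ Z.Adj i j) :
    ((List.ofFn g).map fun x => (List.ofFn g).map fun y => f x y) = adjMat Z := by
  unfold adjMat
  rw [List.map_ofFn]
  congr 1
  funext i
  rw [Function.comp_apply, List.map_ofFn]
  congr 1
  funext j
  rw [Function.comp_apply, Bool.eq_iff_iff, h]
  simp

theorem GadB_desc_inj {n j k : ℕ} : Function.Injective (desc : Vx n j k → Ds) := by
  intro x y h
  cases x <;> cases y <;> simp [desc, Fin.val_inj] at h ⊢
  · exact h
  · exact h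
  · exact ⟨h.1, Prod.ext h.2.1 h.2.2⟩
  · exact h

theorem GadB_mem {n j k : ℕ} (b : Ds) : b ∈ vsL n j k ↔ ∃ x : Vx n j k, desc x = b := by
  simp only [vsL, List.mem_append, List.mem_map, List.mem_flatMap, List.mem_range, List.mem_cons,
    List.not_mem_nil, or_false]
  constructor
  · rintro ((((⟨u, hu, rfl⟩ | ⟨u, hu, rfl⟩) | ⟨r, hr, u, hu, v, hv, rfl⟩) | ⟨i, hi, rfl⟩) |
      rfl | rfl | rfl)
    · exact ⟨.v ⟨u, hu⟩, rfl⟩
    · exact ⟨.w ⟨u, hu⟩, rfl⟩
    · exact ⟨.p ⟨r, hr⟩ (⟨u, hu⟩, ⟨v, hv⟩), rfl⟩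
    · exact ⟨.q ⟨i, hi⟩, rfl⟩
    · exact ⟨.s, rfl⟩
    · exact ⟨.o, rfl⟩
    · exact ⟨.e, rfl⟩
  · rintro ⟨x, rfl⟩
    cases x with
    | v u => exact Or.inl (Or.inl (Or.inl (Or.inl ⟨u, u.2, rfl⟩)))
    | w u => exact Or.inl (Or.inl (Or.inl (Or.inr ⟨u, u.2, rfl⟩)))
    | p r a => exact Or.inl (Or.inl (Or.inr ⟨r, r.2, a.1, a.1.2, a.2, a.2.2, rfl⟩))
    | q i => exact Or.inl (Or.inr ⟨i, i.2, rfl⟩)
    | s => exact Or.inr (Or.inl rfl)
    | o => exact Or.inr (Or.inr (Or.inl rfl))
    | e => exact Or.inr (Or.inr (Or.inr rfl))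

theorem GadB_nodup (n j k : ℕ) : (vsL n j k).Nodup := by
  have h1 : ∀ (c N : ℕ), ((List.range N).map fun u => ((c, 0, u, 0) : Ds)).Nodup := fun c N =>
    List.nodup_range.map fun a b h => by simpa using h
  have h2 : ((List.range j).flatMap fun r => (List.range n).flatMap fun u =>
      (List.range n).map fun v => ((2, r, u, v) : Ds)).Nodup := by
    rw [List.nodup_flatMap]
    refine ⟨fun r _ => ?_, List.nodup_range.imp fun {a b} hab => ?_⟩
    · rw [List.nodup_flatMap]
      refine ⟨fun u _ => List.nodup_range.map fun a b h => by simpa using h,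
        List.nodup_range.imp fun {a b} hab => ?_⟩
      intro x hx hx'
      simp only [List.mem_map] at hx hx'
      obtain ⟨_, _, rfl⟩ := hx
      obtain ⟨_, _, h⟩ := hx'
      simp only [Prod.mk.injEq] at h
      exact hab h.2.2.1.symm
    · intro x hx hx'
      simp only [List.mem_map, List.mem_flatMap] at hx hx'
      obtain ⟨_, _, _, _, rfl⟩ := hx
      obtain ⟨_, _, _, _, h⟩ := hx'
      simp only [Prod.mk.injEq] at h
      exact hab h.2.1.symm
  unfold vsL
  simp only [List.nodup_append, h1, h2, true_and]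
  refine ⟨⟨⟨?_, ?_⟩, ?_⟩, by decide, ?_⟩
  all_goals
    intro a ha b hb hab
    subst hab
    simp only [List.mem_append, List.mem_map, List.mem_flatMap, List.mem_cons, List.not_mem_nil,
      or_false] at ha hb
  · obtain ⟨_, _, rfl⟩ := ha
    obtain ⟨_, _, h⟩ := hb
    simp at h
  · obtain ⟨_, _, _, _, _, _, rfl⟩ := hb
    rcases ha with ⟨_, _, h⟩ | ⟨_, _, h⟩ <;> simp at h
  · obtain ⟨_, _, rfl⟩ := hb
    rcases ha with (⟨_, _, h⟩ | ⟨_, _, h⟩) | ⟨_, _, _, _, _, _, h⟩ <;> simp at h
  · rcases ha with ((⟨_, _, rfl⟩ | ⟨_, _, rfl⟩) | ⟨_, _, _, _, _, _, rfl⟩) | ⟨_, _, rfl⟩ <;>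
      simp at hb

theorem GadB_half {n : ℕ} (G : SimpleGraph (Fin n)) (Rs : List Mat) (ms : List ℕ)
    (x y : Vx n Rs.length ms.length) :
    halfD (adjMat G) Rs ms (desc x) (desc y) = true ↔ Half G Rs.length ms.length Rs ms x y := by
  simp only [halfD, Bool.or_eq_true, Bool.and_eq_true, decide_eq_true_eq]
  cases x <;> cases y <;>
    simp [desc, Half, mget_adjMat, length_adjMat, Fin.val_inj, srel, code, Prod.ext_iff,
      and_assoc, -not_and, not_and_or]

theorem gad_eq (n j k : ℕ) : ∃ (m : ℕ) (e : Fin m ≃ Vx n j k),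
    ∀ (G : SimpleGraph (Fin n)) (Rs : List Mat) (ms : List ℕ), Rs.length = j → ms.length = k →
      gad (adjMat G) Rs ms = adjMat ((GW G j k Rs ms).comap e) := by
  obtain ⟨m, e, he⟩ := GadB_enum (vsL n j k) (GadB_nodup n j k) (desc : Vx n j k → Ds)
    GadB_desc_inj GadB_mem
  refine ⟨m, e, fun G Rs ms hj hk => ?_⟩
  subst hj hk
  unfold gad
  rw [length_adjMat, he]
  refine GadB_mat _ (fun x y => halfD (adjMat G) Rs ms x y || halfD (adjMat G) Rs ms y x) _
    fun i i' => ?_
  rw [Bool.or_eq_true, GadB_half, GadB_half]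
  rfl

theorem GadB_isV {V W : Type} {Z : SimpleGraph V} {Z' : SimpleGraph W} (φ : Z ≃g Z') (x : V)
    (h : IsV Z x) : IsV Z' (φ x) := by
  obtain ⟨o, s, q, r, h1, h2, h3, h4, h5, h6, h7, h8, h9⟩ := h
  refine ⟨φ o, φ s, φ q, φ r, φ.map_adj_iff.2 h1, fun z hz => ?_, φ.map_adj_iff.2 h3,
    φ.map_adj_iff.2 h4, fun h => h5 (φ.injective h), fun z hz => ?_, φ.map_adj_iff.2 h7,
    fun h => h8 (φ.map_adj_iff.1 h), fun h => h9 (φ.injective h)⟩
  · obtain ⟨z, rfl⟩ := φ.surjective z
    rw [h2 z (φ.map_adj_iff.1 hz)]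
  · obtain ⟨z, rfl⟩ := φ.surjective z
    exact (h6 z (φ.map_adj_iff.1 hz)).imp (congrArg _) (congrArg _)

theorem isV_iso {V W : Type} {Z : SimpleGraph V} {Z' : SimpleGraph W} (φ : Z ≃g Z') (x : V) :
    IsV Z' (φ x) ↔ IsV Z x := by
  refine ⟨fun h => ?_, GadB_isV φ x⟩
  have h1 := GadB_isV φ.symm _ h
  rwa [RelIso.symm_apply_apply] at h1

theorem GadB_any {m : ℕ} (f : ℕ → Bool) :
    (List.range m).any f = true ↔ ∃ x : Fin m, f x = true := by
  rw [List.any_eq_true]
  exact ⟨fun ⟨x, hx, h⟩ => ⟨⟨x, List.mem_range.1 hx⟩, h⟩,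
    fun ⟨x, h⟩ => ⟨x, List.mem_range.2 x.2, h⟩⟩

theorem GadB_all {m : ℕ} (f : ℕ → Bool) :
    (List.range m).all f = true ↔ ∀ x : Fin m, f x = true := by
  rw [List.all_eq_true]
  exact ⟨fun h x => h x (List.mem_range.2 x.2), fun h x hx => h ⟨x, List.mem_range.1 hx⟩⟩

theorem GadB_isVB {m : ℕ} (Z : SimpleGraph (Fin m)) (x : Fin m) :
    isVB (adjMat Z) x = true ↔ IsV Z x := by
  have h1 : ∀ u v : Fin m, mget (adjMat Z) u v = false ↔ ¬ Z.Adj u v := fun u v => by
    rw [← mget_adjMat, Bool.not_eq_true]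
  unfold isVB IsV
  simp only [length_adjMat, GadB_any, GadB_all, Bool.and_eq_true, Bool.or_eq_true,
    Bool.not_eq_true', beq_iff_eq, beq_eq_false_iff_ne, mget_adjMat, h1, Fin.val_inj, ne_eq,
    and_assoc, or_assoc, imp_iff_not_or]

theorem dec_spec {n m : ℕ} (G : SimpleGraph (Fin n)) (Z : SimpleGraph (Fin m)) (ι : Fin n → Fin m)
    (hι : Function.Injective ι) (hV : ∀ x, IsV Z x ↔ ∃ u, x = ι u)
    (hA : ∀ u v, Z.Adj (ι u) (ι v) ↔ G.Adj u v) :
    ∃ H : SimpleGraph (Fin n), dec (adjMat Z) = adjMat H ∧ Nonempty (G ≃g H) := by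
  obtain ⟨m', e, he⟩ := GadB_enum ((List.range m).filter (isVB (adjMat Z)))
    (List.nodup_range.filter _) (fun u : Fin n => (ι u : ℕ)) (Fin.val_injective.comp hι) (by
      intro b
      rw [List.mem_filter, List.mem_range]
      constructor
      · rintro ⟨h1, h2⟩
        obtain ⟨u, hu⟩ := (hV ⟨b, h1⟩).1 ((GadB_isVB Z ⟨b, h1⟩).1 h2)
        exact ⟨u, by rw [← hu]⟩
      · rintro ⟨u, rfl⟩
        exact ⟨(ι u).2, (GadB_isVB Z _).2 ((hV _).2 ⟨u, rfl⟩)⟩)
  obtain rfl : m' = n := Fin.equiv_iff_eq.1 ⟨e⟩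
  refine ⟨G.comap e, ?_, ⟨(SimpleGraph.Iso.comap e G).symm⟩⟩
  unfold dec
  rw [length_adjMat, he]
  refine GadB_mat _ (mget (adjMat Z)) _ fun i i' => ?_
  rw [mget_adjMat, hA]
  rfl

end Pool.Agent.P.MP_9e61a4_lc
end

-- part Pool.Agent.P.MP_9e61a4_lc.Orc
section

/-! Closure properties of oracle polynomial time. -/

namespace Pool.Agent.P.MP_9e61a4_lc

open Function N487b59b3 N68a2faeb Pool.Agent.Lib.PolyTime

section

variable {α : Type} {O : Str → Bool} {q : α × Str → Str} {a : α}

theorem Orc_length_oans (j : ℕ) : (oans O q a j).length = j := by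
  induction j with
  | zero => rfl
  | succ j ih => simp [oans, ih]

theorem Orc_take_oans {i j : ℕ} (h : i ≤ j) : (oans O q a j).take i = oans O q a i := by
  induction j, h using Nat.le_induction with
  | base => exact List.take_of_length_le (Orc_length_oans i).le
  | succ j h ih => rw [oans, List.take_append_of_le_length (by rwa [Orc_length_oans]), ih]

theorem Orc_oans_congr {β : Type} {q' : β × Str → Str} {b : β} (j : ℕ)
    (h : ∀ l : Str, l.length < j → q (a, l) = q' (b, l)) : oans O q a j = oans O q' b j := by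
  induction j with
  | zero => rfl
  | succ j ih =>
    rw [oans, oans, ih fun l hl => h l (by omega), h _ (by rw [Orc_length_oans]; omega)]

theorem Orc_drop_oans {β : Type} {q' : β × Str → Str} {b : β} (K t : ℕ)
    (h : ∀ u, u < t → q (a, oans O q a (K + u)) = q' (b, (oans O q a (K + u)).drop K)) :
    (oans O q a (K + t)).drop K = oans O q' b t := by
  induction t with
  | zero => exact List.drop_of_length_le (by rw [Orc_length_oans]; omega)
  | succ t ih =>
    have e := ih fun u hu => h u (by omega)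
    rw [← Nat.add_assoc, oans, oans,
      List.drop_append_of_le_length (by rw [Orc_length_oans]; omega), h t (by omega), e]

end

variable {α β γ : Type} [N487b59b3 α] [N487b59b3 β] [N487b59b3 γ] {O : Str → Bool}

/-- A flexible form of `PolyTimeIn`. -/
def Flex (O : Str → Bool) (f : α → β) : Prop :=
  ∃ (q : α × Str → Str) (o : α × Str → β) (n : α → ℕ), PT q ∧ PT o ∧ Small n ∧
    ∀ a m, n a ≤ m → f a = o (a, oans O q a m)

theorem Flex.of_polyTimeIn {f : α → β} (h : PolyTimeIn O f) : Flex O f := by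
  obtain ⟨q, o, p, hq, ho, h⟩ := h
  have h1 := PT.of_isPolyTime hq
  have h2 := PT.of_isPolyTime ho
  refine ⟨q, fun x => o (x.1, x.2.take (p.eval (sz x.1))), fun a => p.eval (sz a), h1,
    by fun_prop, by fun_prop, fun a m hm => ?_⟩
  dsimp only
  rw [Orc_take_oans hm]
  exact h a

theorem Flex.polyTimeIn {f : α → β} (h : Flex O f) : PolyTimeIn O f := by
  obtain ⟨q, o, n, hq, ho, ⟨p, hp⟩, h⟩ := h
  exact ⟨q, o, p, hq.isPolyTime, ho.isPolyTime, fun a => h a _ (hp a)⟩

theorem Flex.of_pt {f : α → β} (h : PT f) : Flex O f :=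
  ⟨fun _ => [], fun x => f x.1, fun _ => 0, PT.const _, by fun_prop, Small.const 0,
    fun _ _ _ => rfl⟩

theorem Flex.congr {f g : α → β} (h : Flex O f) (e : ∀ a, g a = f a) : Flex O g := by
  have : g = f := funext e
  rw [this]
  exact h

theorem Flex.size {f : α → β} (h : Flex O f) : PB sz fun a => sz (f a) := by
  obtain ⟨q, o, n, hq, ho, hn, h⟩ := h
  obtain ⟨p, hp⟩ := ho.size
  have h1 : Small fun a : α => p.eval (2 * sz a + 1 + 3 * n a) := by fun_prop
  refine PB.mono h1 fun a => ?_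
  rw [h a _ le_rfl]
  refine (hp _).trans (eval_mono p ?_)
  rw [sz_pair, sz_str (oans O q a (n a)), Orc_length_oans]

theorem Flex.ask {q : α → Str} (h : PT q) : Flex O fun a => O (q a) := by
  refine ⟨fun x => q x.1, fun x => x.2.headD false, fun _ => 1, by fun_prop, by fun_prop,
    Small.const 1, fun a m hm => ?_⟩
  have e := Orc_take_oans (O := O) (q := fun x : α × Str => q x.1) (a := a) hm
  dsimp only
  rcases h1 : oans O (fun x : α × Str => q x.1) a m with _ | ⟨c, r⟩
  · rw [h1] at e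
    simp [oans] at e
  · rw [h1] at e
    simp only [oans, List.take_succ_cons, List.take_zero, List.nil_append, List.cons.injEq,
      and_true] at e
    simp [e]

/-- Sequential composition: first `g`, then `f` on the input and the value of `g`. -/
theorem Flex.seq {f : α × β → γ} {g : α → β} (hf : Flex O f) (hg : Flex O g) :
    Flex O fun a => f (a, g a) := by
  have hsz : Small fun a => sz (g a) := hg.size
  obtain ⟨q, o, n, hq, ho, ⟨p, hp⟩, h⟩ := hf
  obtain ⟨q', o', n', hq', ho', ⟨p', hp'⟩, h'⟩ := hg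
  have hN : PT fun a : α => p'.eval (sz a) := by fun_prop
  have hNs : Small fun a : α => p'.eval (sz a) := by fun_prop
  set N : α → ℕ := fun a : α => p'.eval (sz a) with hNd
  have hb : ∀ a, n' a ≤ N a := hp'
  clear_value N
  let Q : α × Str → Str := fun x =>
    if x.2.length < N x.1 then q' x else
      q ((x.1, o' (x.1, x.2.take (N x.1))), x.2.drop (N x.1))
  have k1 : ∀ a m, N a ≤ m → o' (a, (oans O Q a m).take (N a)) = g a := by
    intro a m hm
    rw [Orc_take_oans hm, h' a _ (hb a)]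
    congr 2
    exact Orc_oans_congr _ fun l hl => by simp only [Q, hl, if_true]
  refine ⟨Q, fun x => o ((x.1, o' (x.1, x.2.take (N x.1))), x.2.drop (N x.1)),
    fun a => N a + p.eval (2 * sz a + 1 + sz (g a)), by simp only [Q]; fun_prop, by fun_prop,
    by fun_prop, fun a m hm => ?_⟩
  dsimp only at hm ⊢
  obtain ⟨t, rfl⟩ : ∃ t, m = N a + t := ⟨m - N a, by omega⟩
  rw [k1 a _ (by omega), Orc_drop_oans (q' := q) (b := (a, g a)) (N a) t fun u _ => ?_]
  · refine h _ _ ((hp _).trans ?_)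
    rw [sz_pair]
    omega
  · have e : ¬ (oans O Q a (N a + u)).length < N a := by rw [Orc_length_oans]; omega
    have e2 := k1 a (N a + u) (by omega)
    generalize oans O Q a (N a + u) = w at e e2
    simp only [Q, e, if_false, e2]

theorem Orc_pre {f : β → γ} {g : α → β} (hf : Flex O f) (hg : PT g) :
    Flex O fun a => f (g a) := by
  obtain ⟨q, o, n, hq, ho, hn, h⟩ := hf
  refine ⟨fun x => q (g x.1, x.2), fun x => o (g x.1, x.2), fun a => n (g a), by fun_prop,
    by fun_prop, hn.comp hg, fun a m hm => ?_⟩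
  dsimp only
  rw [h _ m hm]
  exact congrArg (fun l => o (g a, l)) (Orc_oans_congr m fun _ _ => rfl)

theorem Flex.comp {f : β → γ} {g : α → β} (hf : Flex O f) (hg : Flex O g) :
    Flex O fun a => f (g a) :=
  Flex.seq (f := fun x : α × β => f x.2) (Orc_pre hf (by fun_prop)) hg

theorem Orc_post {f : α → β} {g : α × β → γ} (hf : Flex O f) (hg : PT g) :
    Flex O fun a => g (a, f a) :=
  Flex.seq (Flex.of_pt hg) hf

theorem Flex.pair {f : α → β} {g : α → γ} (hf : Flex O f) (hg : Flex O g) :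
    Flex O fun a => (f a, g a) :=
  Flex.seq (f := fun x : α × γ => (f x.1, x.2))
    (Orc_post (f := fun x : α × γ => f x.1) (g := fun y : (α × γ) × β => (y.2, y.1.2))
      (Orc_pre hf (by fun_prop)) (by fun_prop)) hg

/-- Keep the old state when the new one is larger than `B`. -/
def Orc_guard (B : ℕ) (b c : β) : β := if sz c ≤ B then c else b

theorem Orc_sz_guard {B C : ℕ} {b c : β} (h : B ≤ C) (hb : sz b ≤ C) :
    sz (Orc_guard B b c) ≤ C := by
  unfold Orc_guard
  split_ifs <;> omega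

/-- One round of the simulated fold. -/
def Orc_step (o : (α × β × γ) × Str → β) (a : α) (B N : ℕ) (st : β × Str) (x : γ) : β × Str :=
  (Orc_guard B st.1 (o ((a, st.1, x), st.2.take N)), st.2.drop N)

omit [N487b59b3 α] [N487b59b3 γ] in
theorem Orc_sz_step (o : (α × β × γ) × Str → β) (a : α) {B C : ℕ} (N : ℕ) (h : B ≤ C)
    (l : List γ) (st : β × Str) (hs : sz st.1 ≤ C) :
    sz (l.foldl (Orc_step o a B N) st).1 ≤ C ∧
      sz (l.foldl (Orc_step o a B N) st).2 ≤ sz st.2 := by
  induction l generalizing st with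
  | nil => exact ⟨hs, le_rfl⟩
  | cons x l ih =>
    have h1 := ih (Orc_step o a B N st x) (Orc_sz_guard h hs)
    exact ⟨h1.1, h1.2.trans (sz_drop_le _ _)⟩

omit [N487b59b3 γ] in
theorem Orc_sz_fold (f : β → γ → β) {B C : ℕ} (h : B ≤ C) (l : List γ) (s : β) (hs : sz s ≤ C) :
    sz (l.foldl (fun b x => Orc_guard B b (f b x)) s) ≤ C := by
  induction l generalizing s with
  | nil => exact hs
  | cons x l ih => exact ih _ (Orc_sz_guard h hs)

theorem Orc_fold_core {f : α × β × γ → β} (hf : Flex O f) (P : Polynomial ℕ) :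
    Flex O fun p : α × List γ × β =>
      p.2.1.foldl (fun b x => Orc_guard (P.eval (sz p.1)) b (f (p.1, b, x))) p.2.2 := by
  obtain ⟨q, o, n, hq, ho, ⟨r, hr⟩, h⟩ := hf
  have hN : PT fun p : α × List γ × β =>
      r.eval (2 * sz p.1 + 1 + (2 * (sz p.2.2 + P.eval (sz p.1)) + 1 + sz p.2.1)) + 1 := by
    fun_prop
  have hNs : Small fun p : α × List γ × β =>
      r.eval (2 * sz p.1 + 1 + (2 * (sz p.2.2 + P.eval (sz p.1)) + 1 + sz p.2.1)) + 1 := by
    fun_prop
  set N : α × List γ × β → ℕ := fun p =>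
    r.eval (2 * sz p.1 + 1 + (2 * (sz p.2.2 + P.eval (sz p.1)) + 1 + sz p.2.1)) + 1 with hNd
  have hN0 : ∀ p, 0 < N p := fun p => Nat.succ_pos _
  have hb : ∀ (p : α × List γ × β) (b : β), sz b ≤ sz p.2.2 + P.eval (sz p.1) →
      ∀ x ∈ p.2.1, n (p.1, b, x) ≤ N p := fun p b hb x hx => by
    have h1 := hr (p.1, b, x)
    have h2 := sz_le_of_mem hx
    have h3 : r.eval (sz (p.1, b, x)) ≤
        r.eval (2 * sz p.1 + 1 + (2 * (sz p.2.2 + P.eval (sz p.1)) + 1 + sz p.2.1)) :=
      eval_mono r (by rw [sz_pair, sz_pair]; omega)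
    simp only [hNd]
    omega
  clear_value N
  let sim : ((α × List γ × β) × Str) × ℕ → β × Str := fun y =>
    (y.1.1.2.1.take y.2).foldl (Orc_step o y.1.1.1 (P.eval (sz y.1.1.1)) (N y.1.1))
      (y.1.1.2.2, y.1.2)
  have hsim : PT sim := by
    refine PT.foldl (f := fun y : ((α × List γ × β) × Str) × ℕ =>
      Orc_step o y.1.1.1 (P.eval (sz y.1.1.1)) (N y.1.1)) (by fun_prop) (by fun_prop)
      (by unfold Orc_step Orc_guard; fun_prop) ?_
    have h1 : Small fun y : ((α × List γ × β) × Str) × ℕ =>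
        2 * (sz y.1.1.2.2 + P.eval (sz y.1.1.1)) + 1 + sz y.1.2 := by fun_prop
    refine (PB.reindex h1 (Prod.fst : (((α × List γ × β) × Str) × ℕ) × ℕ → _)).mono fun y => ?_
    have h2 := Orc_sz_step o y.1.1.1.1 (B := P.eval (sz y.1.1.1.1))
      (C := sz y.1.1.1.2.2 + P.eval (sz y.1.1.1.1)) (N y.1.1.1) (by omega)
      ((y.1.1.1.2.1.take y.1.2).take y.2) (y.1.1.1.2.2, y.1.1.2) (by dsimp only; omega)
    rw [sz_pair']
    dsimp only at h2 ⊢
    omega
  let Q : (α × List γ × β) × Str → Str := fun x =>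
    ((x.1.2.1.drop (x.2.length / N x.1)).take 1).flatMap fun c =>
      q ((x.1.1, (sim (x, x.2.length / N x.1)).1, c), x.2.drop (x.2.length / N x.1 * N x.1))
  have hQ : PT Q := PT.flatMap (f := fun (x : (α × List γ × β) × Str) (c : γ) =>
      q ((x.1.1, (sim (x, x.2.length / N x.1)).1, c), x.2.drop (x.2.length / N x.1 * N x.1)))
    (by fun_prop) (by fun_prop)
  have key : ∀ (p : α × List γ × β) (k : ℕ), k ≤ p.2.1.length → ∀ m, k * N p ≤ m →
      sim ((p, oans O Q p m), k) =
        ((p.2.1.take k).foldl (fun b x => Orc_guard (P.eval (sz p.1)) b (f (p.1, b, x))) p.2.2,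
          (oans O Q p m).drop (k * N p)) := by
    intro p k
    induction k with
    | zero => intro _ m _; simp [sim]
    | succ k ih =>
      intro hk m hm
      have hk' : k < p.2.1.length := hk
      rw [Nat.succ_mul] at hm
      have e0 := ih hk'.le m (by omega)
      set b := (p.2.1.take k).foldl
        (fun b x => Orc_guard (P.eval (sz p.1)) b (f (p.1, b, x))) p.2.2 with hbd
      have hbs : sz b ≤ sz p.2.2 + P.eval (sz p.1) :=
        Orc_sz_fold (fun b x => f (p.1, b, x)) (by omega) _ _ (by omega)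
      have e1 : (oans O Q p (k * N p + N p)).drop (k * N p) =
          oans O q (p.1, b, p.2.1[k]) (N p) := by
        refine Orc_drop_oans _ _ fun u hu => ?_
        have e : (k * N p + u) / N p = k := by
          rw [Nat.add_comm, Nat.add_mul_div_right _ _ (hN0 p), Nat.div_eq_of_lt hu, Nat.zero_add]
        have e2 := ih hk'.le (k * N p + u) (by omega)
        have e3 := Orc_length_oans (O := O) (q := Q) (a := p) (k * N p + u)
        generalize oans O Q p (k * N p + u) = w at e2 e3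
        simp only [Q, e3, e, e2]
        rw [List.drop_eq_getElem_cons hk', List.take_succ_cons, List.take_zero, List.flatMap_cons,
          List.flatMap_nil, List.append_nil]
      simp only [sim] at e0 ⊢
      rw [List.take_succ_eq_append_getElem hk', List.foldl_append, List.foldl_append, e0]
      simp only [List.foldl_cons, List.foldl_nil, Orc_step]
      rw [List.take_drop, Orc_take_oans hm, e1, List.drop_drop, Nat.succ_mul,
        ← h _ _ (hb p b hbs _ (List.getElem_mem hk'))]
  refine ⟨Q, fun x => (sim (x, x.1.2.1.length)).1, fun p => p.2.1.length * N p, hQ, by fun_prop,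
    by fun_prop, fun p m hm => ?_⟩
  dsimp only at hm ⊢
  rw [key p _ le_rfl m hm, List.take_length]

theorem Flex.foldl {l : α → List γ} {s : α → β} {f : α → β → γ → β} (hl : Flex O l)
    (hs : Flex O s) (hf : Flex O fun p : α × β × γ => f p.1 p.2.1 p.2.2)
    (hb : PB (fun p : α × ℕ => sz p.1)
      (fun p => sz (((l p.1).take p.2).foldl (f p.1) (s p.1)))) :
    Flex O fun a => (l a).foldl (f a) (s a) := by
  obtain ⟨P, hP⟩ := hb
  refine ((Orc_fold_core hf P).seq (hl.pair hs)).congr fun a => ?_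
  have key : ∀ k, k ≤ (l a).length →
      ((l a).take k).foldl (fun b x => Orc_guard (P.eval (sz a)) b (f a b x)) (s a) =
        ((l a).take k).foldl (f a) (s a) := by
    intro k
    induction k with
    | zero => intro _; rfl
    | succ k ih =>
      intro hk
      have hk' : k < (l a).length := hk
      have h1 := hP (a, k + 1)
      dsimp only at h1
      rw [List.take_succ_eq_append_getElem hk', List.foldl_append] at h1 ⊢
      rw [List.foldl_append, ih hk'.le]
      simp only [List.foldl_cons, List.foldl_nil] at h1 ⊢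
      rw [Orc_guard, if_pos h1]
  have e := key _ le_rfl
  rw [List.take_length] at e
  exact e.symm

theorem Flex.iterate {n : α → ℕ} {s : α → β} {F : α → β → β} (hn : PT n) (hn' : Small n)
    (hs : Flex O s) (hF : Flex O fun p : α × β => F p.1 p.2)
    (hb : PB (fun p : α × ℕ => sz p.1) (fun p => sz ((F p.1)^[min p.2 (n p.1)] (s p.1)))) :
    Flex O fun a => (F a)^[n a] (s a) := by
  have e : ∀ (a : α) (l : Str) (b : β),
      l.foldl (fun b _ => F a b) b = (F a)^[l.length] b := by
    intro a l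
    induction l with
    | nil => intro b; rfl
    | cons x l ih => intro b; simp [ih]
  refine (Flex.foldl (l := fun a => List.replicate (n a) true) (f := fun a b _ => F a b)
    (Flex.of_pt (by fun_prop)) hs
    (Orc_pre (g := fun p : α × β × Bool => (p.1, p.2.1)) hF (by fun_prop)) ?_).congr fun a => ?_
  · refine hb.mono fun p => ?_
    rw [e, List.length_take, List.length_replicate]
  · rw [e, List.length_replicate]

theorem Flex.flatMap {l : α → List β} {f : α → β → List γ} (hl : Flex O l)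
    (hf : Flex O fun p : α × β => f p.1 p.2) : Flex O fun a => (l a).flatMap (f a) := by
  have e : ∀ (a : α) (r : List β) (acc : List γ),
      r.foldl (fun acc x => acc ++ f a x) acc = acc ++ r.flatMap (f a) := by
    intro a r
    induction r with
    | nil => intro acc; simp
    | cons x r ih => intro acc; simp [ih]
  refine (Flex.foldl (s := fun _ => ([] : List γ)) (f := fun a acc x => acc ++ f a x) hl
    (Flex.of_pt (PT.const _))
    (Orc_post (f := fun p : α × List γ × β => f p.1 p.2.2)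
      (g := fun y : (α × List γ × β) × List γ => y.1.2.1 ++ y.2)
      (Orc_pre (g := fun p : α × List γ × β => (p.1, p.2.2)) hf (by fun_prop)) (by fun_prop))
    ?_).congr fun a => by rw [e, List.nil_append]
  obtain ⟨q, hq⟩ := hf.size
  have h1 := hl.size.reindex (Prod.fst : α × ℕ → α)
  refine (h1.mul (PB.eval q ((((PB.const 2).mul PB.self).add (PB.const 1)).add
    h1))).mono fun p => ?_
  refine (PT.sz_foldl_le (B := q.eval (2 * sz p.1 + 1 + sz (l p.1))) _ _ fun b x hx => ?_).trans ?_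
  · rw [sz_append]
    refine Nat.add_le_add_left ((hq (p.1, x)).trans (eval_mono q ?_)) _
    have := sz_le_of_mem (List.mem_of_mem_take hx)
    rw [sz_pair]
    omega
  · have : ((l p.1).take p.2).length ≤ sz (l p.1) :=
      (List.length_take_le' _ _).trans (length_le_sz _)
    rw [sz_nil, Nat.zero_add]
    gcongr

theorem Flex.map {l : α → List β} {f : α → β → γ} (hl : Flex O l)
    (hf : Flex O fun p : α × β => f p.1 p.2) : Flex O fun a => (l a).map (f a) := by
  refine (Flex.flatMap (f := fun a x => [f a x]) hl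
    (Orc_post (g := fun y : (α × β) × γ => [y.2]) hf (by fun_prop))).congr fun a => ?_
  induction l a with
  | nil => rfl
  | cons x r ih => simp [ih]

theorem Flex.filter {l : α → List β} {f : α → β → Bool} (hl : Flex O l)
    (hf : Flex O fun p : α × β => f p.1 p.2) : Flex O fun a => (l a).filter (f a) := by
  refine (Flex.flatMap (f := fun a x => bif f a x then [x] else []) hl
    (Orc_post (g := fun y : (α × β) × Bool => bif y.2 then [y.1.2] else []) hf
      (by fun_prop))).congr fun a => ?_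
  induction l a with
  | nil => rfl
  | cons x r ih => cases h : f a x <;> simp [ih, h]

theorem Flex.ite {c : α → Bool} {f g : α → β} (hc : Flex O c) (hf : Flex O f) (hg : Flex O g) :
    Flex O fun a => if c a = true then f a else g a := by
  refine (Orc_post (g := fun y : α × Bool × β × β => bif y.2.1 then y.2.2.1 else y.2.2.2)
    (hc.pair (hf.pair hg)) (by fun_prop)).congr fun a => ?_
  cases c a <;> simp

end Pool.Agent.P.MP_9e61a4_lc
end

-- part Pool.Agent.P.MP_9e61a4_lc.PTa
section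

/-! The oracle-free parts of the program run in polynomial time (gadget, permutations). -/

namespace Pool.Agent.P.MP_9e61a4_lc

open N487b59b3 N68a2faeb Pool.Agent.Lib.PolyTime

variable {α : Type} [N487b59b3 α]

@[fun_prop] theorem pt_mget {A : α → Mat} {i j : α → ℕ} (hA : PT A) (hi : PT i) (hj : PT j) :
    PT fun a => mget (A a) (i a) (j a) := by
  unfold mget
  fun_prop

@[fun_prop] theorem pt_srelB {A : α → Mat} {i j : α → ℕ} (hA : PT A) (hi : PT i) (hj : PT j) :
    PT fun a => srelB (A a) (i a) (j a) := by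
  unfold srelB
  fun_prop

theorem PTa_vsL {n j k : α → ℕ} (hn : PT n) (hn' : Small n) (hj : PT j) (hj' : Small j)
    (hk : PT k) (hk' : Small k) : PT fun a => vsL (n a) (j a) (k a) := by
  unfold vsL
  fun_prop

theorem PTa_halfD {A : α → Mat} {Rs : α → List Mat} {ms : α → List ℕ} {x y : α → Ds} (hA : PT A)
    (hR : PT Rs) (hm : PT ms) (hx : PT x) (hy : PT y) :
    PT fun a => halfD (A a) (Rs a) (ms a) (x a) (y a) := by
  have x1 : PT fun a => (x a).1 := hx.fst
  have x2 : PT fun a => (x a).2.1 := hx.snd.fst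
  have x3 : PT fun a => (x a).2.2.1 := hx.snd.snd.fst
  have x4 : PT fun a => (x a).2.2.2 := hx.snd.snd.snd
  have x5 : PT fun a => (x a).2.2 := hx.snd.snd
  have y1 : PT fun a => (y a).1 := hy.fst
  have y2 : PT fun a => (y a).2.1 := hy.snd.fst
  have y3 : PT fun a => (y a).2.2.1 := hy.snd.snd.fst
  have y4 : PT fun a => (y a).2.2.2 := hy.snd.snd.snd
  have y5 : PT fun a => (y a).2.2 := hy.snd.snd
  unfold halfD
  refine PT.or (PT.or (PT.or (PT.or (PT.or (PT.or (PT.or (PT.or (PT.or (PT.or ?_ ?_) ?_) ?_) ?_)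
    ?_) ?_) ?_) ?_) ?_) ?_ <;> fun_prop

@[fun_prop] theorem pt_gad {A : α → Mat} {Rs : α → List Mat} {ms : α → List ℕ} (hA : PT A)
    (hR : PT Rs) (hm : PT ms) : PT fun a => gad (A a) (Rs a) (ms a) := by
  have hv : PT fun a => vsL (A a).length (Rs a).length (ms a).length :=
    PTa_vsL hA.length (Small.length hA) hR.length (Small.length hR) hm.length (Small.length hm)
  unfold gad
  refine PT.map hv (PT.map (hv.comp PT.id.fst) (PT.or ?_ ?_))
  · exact PTa_halfD (hA.comp PT.id.fst.fst) (hR.comp PT.id.fst.fst) (hm.comp PT.id.fst.fst)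
      PT.id.fst.snd PT.id.snd
  · exact PTa_halfD (hA.comp PT.id.fst.fst) (hR.comp PT.id.fst.fst) (hm.comp PT.id.fst.fst)
      PT.id.snd PT.id.fst.snd

theorem PTa_isVB {Z : α → Mat} {x : α → ℕ} (hZ : PT Z) (hx : PT x) :
    PT fun a => isVB (Z a) (x a) := by
  unfold isVB
  fun_prop

@[fun_prop] theorem pt_dec {A : α → Mat} (hA : PT A) : PT fun a => dec (A a) := by
  have hv : PT fun a => (List.range (A a).length).filter (isVB (A a)) :=
    PT.filter (PT.range hA.length (Small.length hA)) (PTa_isVB (hA.comp PT.id.fst) PT.id.snd)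
  unfold dec
  exact PT.map hv (PT.map (hv.comp PT.id.fst)
    (pt_mget (hA.comp PT.id.fst.fst) PT.id.fst.snd PT.id.snd))

@[fun_prop] theorem pt_mulL {n : α → ℕ} {g h : α → PL} (hn : PT n) (hs : Small n) (hg : PT g)
    (hh : PT h) : PT fun a => mulL (n a) (g a) (h a) := by
  unfold mulL
  fun_prop

theorem sz_mulL (n : ℕ) (g h : PL) : sz (mulL n g h) ≤ n * (2 * n + 1) := by
  have := sz_le_of_forall (l := mulL n g h) (B := n) fun x hx => by
    unfold mulL at hx
    obtain ⟨y, _, rfl⟩ := List.mem_map.1 hx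
    exact (sz_le_self _).trans (min_le_left _ _)
  have e : (mulL n g h).length = n := by
    unfold mulL
    rw [List.length_map, List.length_range]
  rwa [e] at this

@[fun_prop] theorem pt_invL {n : α → ℕ} {g : α → PL} (hn : PT n) (hs : Small n) (hg : PT g) :
    PT fun a => invL (n a) (g a) := by
  unfold invL
  fun_prop

theorem PTa_sz_powL (n : ℕ) (g : PL) (k : ℕ) : sz (powL n g k) ≤ n * (2 * n + 1) := by
  unfold powL
  cases k with
  | zero => exact PT.sz_range_le n
  | succ k =>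
    rw [Function.iterate_succ_apply']
    exact sz_mulL _ _ _

@[fun_prop] theorem pt_powL {n k : α → ℕ} {g : α → PL} (hn : PT n) (hs : Small n) (hg : PT g)
    (hk : PT k) (hk' : Small k) : PT fun a => powL (n a) (g a) (k a) := by
  refine PT.iterate_nat (F := fun a h => mulL (n a) (g a) h) hk hk' (PT.range hn hs)
    (pt_mulL (hn.comp PT.id.fst) (hs.comp PT.id.fst) (hg.comp PT.id.fst) PT.id.snd) ?_
  have h1 := PB.reindex hs fun p : {p : α × ℕ // p.2 ≤ k p.1} => p.1.1
  exact (h1.mul (((PB.const 2).mul h1).add (PB.const 1))).mono fun p =>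
    PTa_sz_powL (n p.1.1) (g p.1.1) p.1.2

theorem PTa_sz_fold (n p : ℕ) (l : List ℕ) (g : PL) :
    sz (l.foldl (fun h j => if j % p = 0 then h else powL n h (min j n)) g) ≤
      sz g + n * (2 * n + 1) := by
  induction l using List.reverseRecOn with
  | nil => simp
  | append_singleton l x ih =>
    rw [List.foldl_append, List.foldl_cons, List.foldl_nil]
    split_ifs
    · exact ih
    · exact (PTa_sz_powL _ _ _).trans (Nat.le_add_left _ _)

@[fun_prop] theorem pt_pwM {n p : α → ℕ} {g : α → PL} (hn : PT n) (hs : Small n) (hp : PT p)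
    (hg : PT g) : PT fun a => pwM (n a) (p a) (g a) := by
  have h0 : PT fun a => (List.range (n a + 1)).foldl
      (fun h j => if j % p a = 0 then h else powL (n a) h (min j (n a))) (g a) := by
    refine PT.foldl (f := fun a h j => if j % p a = 0 then h else powL (n a) h (min j (n a)))
      (by fun_prop) hg ?_ ?_
    · refine PT.ite (by fun_prop) (by fun_prop) ?_
      exact pt_powL (hn.comp PT.id.fst) (hs.comp PT.id.fst) PT.id.snd.fst
        (PT.min PT.id.snd.snd (hn.comp PT.id.fst)) (Small.min (hs.comp PT.id.fst))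
    · have h1 := PB.reindex hs fun p : α × ℕ => p.1
      have h2 := PB.reindex hg.size fun p : α × ℕ => p.1
      exact (h2.add (h1.mul (((PB.const 2).mul h1).add (PB.const 1)))).mono fun q =>
        PTa_sz_fold _ _ _ _
  refine h0.congr fun a => ?_
  unfold pwM
  refine List.foldl_ext _ _ _ fun h j hj => ?_
  rw [min_eq_left (Nat.lt_succ_iff.1 (List.mem_range.1 hj))]

theorem PTa_actP {n x : α → ℕ} {g : α → PL} (hn : PT n) (hg : PT g) (hx : PT x) :
    PT fun a => actP (n a) (g a) (x a) := by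
  unfold actP
  fun_prop

@[fun_prop] theorem pt_moved {n : α → ℕ} {R : α → Mat} {g : α → PL} (hn : PT n) (hs : Small n)
    (hR : PT R) (hg : PT g) : PT fun a => moved (n a) (R a) (g a) := by
  unfold moved
  exact PT.any (PT.range (hn.mul hn) (hs.mul hs)) (PT.not (pt_srelB (hR.comp PT.id.fst)
    (PTa_actP (hn.comp PT.id.fst) (hg.comp PT.id.fst) PT.id.snd) PT.id.snd))

@[fun_prop] theorem pt_upd {n : α → ℕ} {R : α → Mat} {g : α → PL} (hn : PT n) (hs : Small n)
    (hR : PT R) (hg : PT g) : PT fun a => upd (n a) (R a) (g a) := by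
  have hr : PT fun a => List.range (n a * n a) := PT.range (hn.mul hn) (hs.mul hs)
  have h0 : PT fun a => (List.range (n a * n a)).map fun x => (List.range (n a * n a)).map fun b =>
      (List.range (n a * n a)).any fun i =>
        srelB (R a) (actP (n a) (powL (n a) (g a) (min i (n a * n a))) x) b := by
    refine PT.map hr (PT.map (hr.comp PT.id.fst) (PT.any (hr.comp PT.id.fst.fst) ?_))
    have k : PT fun q : ((α × ℕ) × ℕ) × ℕ => q.1.1.1 := PT.id.fst.fst.fst
    exact pt_srelB (hR.comp k) (PTa_actP (hn.comp k)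
      (pt_powL (hn.comp k) (hs.comp k) (hg.comp k)
        (PT.min PT.id.snd ((hn.comp k).mul (hn.comp k))) (Small.min ((hs.comp k).mul (hs.comp k))))
      PT.id.fst.fst.snd) PT.id.fst.snd
  refine h0.congr fun a => ?_
  unfold upd
  refine List.map_congr_left fun x _ => List.map_congr_left fun b _ => ?_
  rw [Bool.eq_iff_iff, List.any_eq_true, List.any_eq_true]
  refine exists_congr fun i => and_congr_right fun hi => ?_
  rw [min_eq_left (List.mem_range.1 hi).le]

theorem sz_upd (n : ℕ) (R : Mat) (g : PL) : sz (upd n R g) ≤ n * n * (6 * (n * n) + 1) := by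
  have := sz_le_of_forall (l := upd n R g) (B := 3 * (n * n)) fun x hx => by
    unfold upd at hx
    obtain ⟨y, _, rfl⟩ := List.mem_map.1 hx
    rw [sz_str, List.length_map, List.length_range]
  have e : (upd n R g).length = n * n := by
    unfold upd
    rw [List.length_map, List.length_range]
  rw [e] at this
  refine this.trans (le_of_eq ?_)
  ring

@[fun_prop] theorem pt_primeB {p : α → ℕ} (hp : PT p) (hs : Small p) :
    PT fun a => primeB (p a) := by
  unfold primeB
  fun_prop

@[fun_prop] theorem pt_prs {n : α → ℕ} (hn : PT n) (hs : Small n) : PT fun a => prs (n a) := by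
  unfold prs
  fun_prop

end Pool.Agent.P.MP_9e61a4_lc
end
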