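import Mathlib

/-! Polycyclic lists and kernels of homomorphisms to `ZMod p`. -/

namespace Pool.Agent.P.MP_9e61a4_lc.Cm

open Subgroup

variable {Γ : Type} [Group Γ] {p : ℕ}

/-- The subgroup generated by a list. -/
def cl (L : List Γ) : Subgroup Γ := Subgroup.closure {x | x ∈ L}

/-- Every entry normalises the group generated by the later entries. -/
def Good : List Γ → Prop
  | [] => True
  | h :: L => Good L ∧ h ∈ normalizer (cl L : Set Γ)

theorem mem_cl {L : List Γ} {x : Γ} (h : x ∈ L) : x ∈ cl L := Subgroup.subset_closure h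

theorem cl_nil : cl ([] : List Γ) = ⊥ := by simp [cl]

theorem cl_cons (h : Γ) (L : List Γ) : cl (h :: L) = zpowers h ⊔ cl L := by
  rw [cl, cl, zpowers_eq_closure, ← Subgroup.closure_union]
  congr 1
  ext x
  simp

theorem cl_le (h : Γ) (L : List Γ) : cl L ≤ cl (h :: L) := by
  rw [cl_cons]
  exact le_sup_right

theorem head_mem (h : Γ) (L : List Γ) : h ∈ cl (h :: L) := mem_cl (by simp)

theorem mem_cons {h g : Γ} {L : List Γ} (hn : h ∈ normalizer (cl L : Set Γ))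
    (hg : g ∈ cl (h :: L)) : ∃ e : ℤ, ∃ k ∈ cl L, g = h ^ e * k := by
  rw [cl_cons, ← SetLike.mem_coe,
    coe_mul_of_left_le_normalizer_right _ _ (zpowers_le.2 hn)] at hg
  obtain ⟨a, ⟨e, rfl⟩, k, hk, rfl⟩ := hg
  exact ⟨e, k, hk, rfl⟩

/-- `φ` is additive on `K`. -/
def Addi (φ : Γ → ZMod p) (K : Subgroup Γ) : Prop :=
  ∀ g ∈ K, ∀ h ∈ K, φ (g * h) = φ g + φ h

theorem Addi.mono {φ : Γ → ZMod p} {K K' : Subgroup Γ} (h : Addi φ K) (e : K' ≤ K) : Addi φ K' :=
  fun a ha b hb => h a (e ha) b (e hb)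

theorem Addi.zpow {φ : Γ → ZMod p} {K : Subgroup Γ} (hφ : Addi φ K) {g : Γ} (hg : g ∈ K)
    (e : ℤ) : φ (g ^ e) = e * φ g := by
  let f : K →* Multiplicative (ZMod p) :=
    MonoidHom.mk' (fun x => Multiplicative.ofAdd (φ x)) fun a b => by
      simp [hφ a a.2 b b.2, ofAdd_add]
  have := congrArg Multiplicative.toAdd (f.map_zpow ⟨g, hg⟩ e)
  simpa [f] using this

theorem Addi.pow {φ : Γ → ZMod p} {K : Subgroup Γ} (hφ : Addi φ K) {g : Γ} (hg : g ∈ K)
    (e : ℕ) : φ (g ^ e) = e * φ g := by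
  simpa using hφ.zpow hg e

theorem Addi.inv {φ : Γ → ZMod p} {K : Subgroup Γ} (hφ : Addi φ K) {g : Γ} (hg : g ∈ K) :
    φ g⁻¹ = -φ g := by
  simpa using hφ.zpow hg (-1)

/-- The solution `e` of `c + e d = 0` modulo `p`. -/
def sol (p c d : ℕ) : ℕ := (p - c) * d ^ (p - 2) % p

theorem sol_spec [hp : Fact p.Prime] (c : ZMod p) {d : ZMod p} (hd : d ≠ 0) :
    c + (sol p c.val d.val : ZMod p) * d = 0 := by
  have h1 : d ^ (p - 2) * d = 1 := by
    rw [← pow_succ, show p - 2 + 1 = p - 1 by have := hp.out.two_le; omega]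
    exact ZMod.pow_card_sub_one_eq_one hd
  rw [sol, ZMod.natCast_mod, Nat.cast_mul, Nat.cast_sub (ZMod.val_lt c).le, Nat.cast_pow,
    ZMod.natCast_self, ZMod.natCast_zmod_val, ZMod.natCast_zmod_val, mul_assoc, h1]
  ring

def kerStep (φ : Γ → ZMod p) (h : Γ) (st : List Γ × Γ) : List Γ × Γ :=
  if φ st.2 = 0 then (h * h ^ (if φ h = 0 then 0 else p - 1) :: st.1, h)
  else (h * st.2 ^ sol p (φ h).val (φ st.2).val :: st.1, st.2)

/-- A polycyclic list for the kernel of `φ`, and an element outside the kernel if there is one. -/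
def kerL (φ : Γ → ZMod p) (L : List Γ) : List Γ × Γ := L.foldr (kerStep φ) ([], 1)

theorem kerL_cons (φ : Γ → ZMod p) (h : Γ) (L : List Γ) :
    kerL φ (h :: L) = kerStep φ h (kerL φ L) := rfl

theorem piv_mem (φ : Γ → ZMod p) (L : List Γ) : (kerL φ L).2 ∈ cl L := by
  induction L with
  | nil => exact one_mem _
  | cons h L ih =>
    rw [kerL_cons, kerStep]
    split_ifs
    exacts [head_mem _ _, head_mem _ _, cl_le _ _ ih]

theorem kerL_congr {φ ψ : Γ → ZMod p} (L : List Γ) (e : ∀ k ∈ cl L, φ k = ψ k) :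
    kerL φ L = kerL ψ L := by
  induction L with
  | nil => rfl
  | cons h L ih =>
    have h1 := ih fun k hk => e k (cl_le _ _ hk)
    rw [kerL_cons, kerL_cons, ← h1, kerStep, kerStep, e h (head_mem _ _),
      e _ (cl_le _ _ (piv_mem φ L))]

theorem ker_aux {φ : Γ → ZMod p} {h h' : Γ} {L L' : List Γ} (hφ : Addi φ (cl (h :: L)))
    (hn : h ∈ normalizer (cl L : Set Γ)) (hL : ∀ k, k ∈ cl L' ↔ k ∈ cl L ∧ φ k = 0)
    (h1 : h' ∈ cl (h :: L)) (h2 : φ h' = 0)
    (h3 : ∀ k ∈ cl (h :: L), φ k = 0 → ∃ e : ℤ, ∃ k' ∈ cl L, k = h' ^ e * k') :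
    h' ∈ normalizer (cl L' : Set Γ) ∧ ∀ k, k ∈ cl (h' :: L') ↔ k ∈ cl (h :: L) ∧ φ k = 0 := by
  have hN : cl (h :: L) ≤ normalizer (cl L : Set Γ) := by
    rw [cl_cons]
    exact sup_le (zpowers_le.2 hn) le_normalizer
  have h4 : h' ∈ normalizer (cl L' : Set Γ) := by
    refine mem_normalizer_iff.2 fun k => ?_
    rw [hL, hL, ← mem_normalizer_iff.1 (hN h1) k]
    refine and_congr_right fun hk => ?_
    have hk' := cl_le h L hk
    rw [hφ _ (mul_mem h1 hk') _ (inv_mem h1), hφ _ h1 _ hk', hφ.inv h1, h2]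
    simp
  refine ⟨h4, fun k => ⟨fun hk => ?_, fun hk => ?_⟩⟩
  · obtain ⟨e, k', hk', rfl⟩ := mem_cons h4 hk
    obtain ⟨h5, h6⟩ := (hL k').1 hk'
    refine ⟨mul_mem (zpow_mem h1 e) (cl_le _ _ h5), ?_⟩
    rw [hφ _ (zpow_mem h1 e) _ (cl_le _ _ h5), hφ.zpow h1, h2, h6]
    simp
  · obtain ⟨e, k', hk', rfl⟩ := h3 k hk.1 hk.2
    have h5 := hk.2
    rw [hφ _ (zpow_mem h1 e) _ (cl_le _ _ hk'), hφ.zpow h1, h2, mul_zero, zero_add] at h5
    exact mul_mem (zpow_mem (head_mem _ _) e) (cl_le _ _ ((hL k').2 ⟨hk', h5⟩))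

theorem kerL_spec [hp : Fact p.Prime] {φ : Γ → ZMod p} (L : List Γ) (hG : Good L)
    (hφ : Addi φ (cl L)) :
    Good (kerL φ L).1 ∧ (∀ k, k ∈ cl (kerL φ L).1 ↔ k ∈ cl L ∧ φ k = 0) ∧
      (φ (kerL φ L).2 = 0 → ∀ k ∈ cl L, φ k = 0) := by
  induction L with
  | nil =>
    have h1 : φ 1 = 0 := by simpa using hφ.pow (one_mem _) 0
    refine ⟨trivial, fun k => ⟨fun hk => ⟨hk, ?_⟩, fun hk => hk.1⟩, fun _ k hk => ?_⟩
    · rw [show (kerL φ ([] : List Γ)).1 = [] from rfl, cl_nil, mem_bot] at hk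
      rw [hk, h1]
    · rw [cl_nil, mem_bot] at hk
      rw [hk, h1]
  | cons h L ih =>
    obtain ⟨i1, i2, i3⟩ := ih hG.1 (hφ.mono (cl_le _ _))
    have i4 := piv_mem φ L
    have hh := head_mem h L
    rw [kerL_cons, kerStep]
    split_ifs with c1 c2
    · obtain ⟨a1, a2⟩ := ker_aux (h' := h * h ^ 0) hφ hG.2 i2 (by simpa using hh)
        (by simpa using c2) fun k hk _ => by simpa using mem_cons hG.2 hk
      refine ⟨⟨i1, a1⟩, a2, fun _ k hk => ?_⟩
      obtain ⟨e, k', hk', rfl⟩ := mem_cons hG.2 hk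
      rw [hφ _ (zpow_mem hh e) _ (cl_le _ _ hk'), hφ.zpow hh, c2, i3 c1 k' hk']
      simp
    · have e1 : h * h ^ (p - 1) = h ^ p := by
        rw [← pow_succ', Nat.sub_add_cancel hp.out.one_le]
      obtain ⟨a1, a2⟩ := ker_aux (h' := h * h ^ (p - 1)) hφ hG.2 i2
        (mul_mem hh (pow_mem hh _)) (by rw [e1, hφ.pow hh]; simp) fun k hk hk0 => by
          obtain ⟨e, k', hk', rfl⟩ := mem_cons hG.2 hk
          rw [hφ _ (zpow_mem hh e) _ (cl_le _ _ hk'), hφ.zpow hh, i3 c1 k' hk', add_zero] at hk0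
          obtain ⟨f, rfl⟩ := (ZMod.intCast_zmod_eq_zero_iff_dvd e p).1
            ((mul_eq_zero.1 hk0).resolve_right c2)
          exact ⟨f, k', hk', by rw [e1, zpow_mul, zpow_natCast]⟩
      exact ⟨⟨i1, a1⟩, a2, fun c => absurd c c2⟩
    · set g := (kerL φ L).2
      set s := sol p (φ h).val (φ g).val with hs
      have hg := cl_le h L i4
      obtain ⟨a1, a2⟩ := ker_aux (h' := h * g ^ s) hφ hG.2 i2 (mul_mem hh (pow_mem hg _))
        (by rw [hφ _ hh _ (pow_mem hg _), hφ.pow hg, hs, sol_spec _ c1]) fun k hk _ => by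
          refine mem_cons (mul_mem hG.2 (le_normalizer (pow_mem i4 s))) ?_
          refine (show cl (h :: L) ≤ _ from ?_) hk
          rw [cl_cons]
          refine sup_le (zpowers_le.2 ?_) (cl_le _ _)
          simpa using mul_mem (head_mem (h * g ^ s) L) (inv_mem (cl_le _ _ (pow_mem i4 s)))
      exact ⟨⟨i1, a1⟩, a2, fun c => absurd c c1⟩

/-- No entry lies in the group generated by the later entries. -/
def Strict : List Γ → Prop
  | [] => True
  | h :: L => Strict L ∧ h ∉ cl L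

theorem Strict.dvd [Finite Γ] [hp : Fact p.Prime] (L : List Γ) (hS : Strict L)
    (hP : IsPGroup p (cl L)) : p ^ L.length ∣ Nat.card (cl L) := by
  induction L with
  | nil => simp
  | cons h L ih =>
    have h1 : IsPGroup p (cl L) := hP.to_le (cl_le _ _)
    have h2 := ih hS.1 h1
    obtain ⟨a, ha⟩ := IsPGroup.iff_card.1 h1
    obtain ⟨b, hb⟩ := IsPGroup.iff_card.1 hP
    have h3 : Nat.card (cl L) < Nat.card (cl (h :: L)) := by
      refine lt_of_le_of_ne (card_le_of_le (cl_le _ _)) fun e => hS.2 ?_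
      rw [eq_of_le_of_card_ge (cl_le h L) e.ge]
      exact head_mem _ _
    rw [ha] at h2
    rw [ha, hb, Nat.pow_lt_pow_iff_right hp.out.one_lt] at h3
    rw [hb]
    have := (Nat.pow_dvd_pow_iff_le_right hp.out.one_lt).1 h2
    exact pow_dvd_pow _ (by simp only [List.length_cons]; omega)

end Pool.Agent.P.MP_9e61a4_lc.Cm
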