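import Pool.Agent.K.MP_9e61a4_lc.C2

/-! The flag of the cyclic shift and canonical forms under a unitriangular group. -/

namespace Pool.Agent.P.MP_9e61a4_lc.Cm

open Equiv

variable {p M : ℕ} [NeZero M]

/-- The cyclic shift. -/
def shf (M : ℕ) [NeZero M] : Perm (Fin M) := Equiv.addRight 1

/-- The difference operator. -/
def dif (p M : ℕ) [NeZero M] : Module.End (ZMod p) (Fin M → ZMod p) :=
  LinearMap.funLeft (ZMod p) (ZMod p) (shf M) - 1

theorem dif_apply (x : Fin M → ZMod p) (a : Fin M) : dif p M x a = x (a + 1) - x a := rfl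

def Wf (p M : ℕ) [NeZero M] (j : ℕ) : Submodule (ZMod p) (Fin M → ZMod p) :=
  LinearMap.ker (dif p M ^ j)

def kap (j : ℕ) (x : Fin M → ZMod p) : ZMod p := (dif p M ^ j) x 0

theorem kap_sub (j : ℕ) (x y : Fin M → ZMod p) : kap j (x - y) = kap j x - kap j y := by
  simp [kap]

theorem kap_smul (j : ℕ) (c : ZMod p) (x : Fin M → ZMod p) : kap j (c • x) = c * kap j x := by
  simp [kap]

theorem kap_zero {j : ℕ} {x : Fin M → ZMod p} (h : x ∈ Wf p M j) : kap j x = 0 := by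
  rw [kap, LinearMap.mem_ker.1 h]
  rfl

theorem mem_succ {j : ℕ} {x : Fin M → ZMod p} : x ∈ Wf p M (j + 1) ↔ dif p M x ∈ Wf p M j := by
  simp [Wf, pow_succ]

theorem Wf_le {j : ℕ} {x : Fin M → ZMod p} (h : x ∈ Wf p M j) : x ∈ Wf p M (j + 1) := by
  rw [Wf, LinearMap.mem_ker] at h ⊢
  rw [pow_succ', Module.End.mul_apply, h, map_zero]

theorem mem_of_kap {j : ℕ} {x : Fin M → ZMod p} (h : x ∈ Wf p M (j + 1)) (h0 : kap j x = 0) :
    x ∈ Wf p M j := by
  rw [Wf, LinearMap.mem_ker] at h ⊢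
  rw [pow_succ', Module.End.mul_apply] at h
  rw [kap] at h0
  generalize (dif p M ^ j) x = y at h h0
  have key : ∀ n (hn : n < M), y ⟨n, hn⟩ = 0 := by
    intro n
    induction n with
    | zero => intro _; exact h0
    | succ n ih =>
      intro hn
      have h1 := congrFun h ⟨n, by omega⟩
      rw [dif_apply, ih, sub_zero] at h1
      have e : (⟨n, by omega⟩ : Fin M) + 1 = ⟨n + 1, hn⟩ := by
        ext
        rw [Fin.val_add, Fin.val_one', Nat.add_mod_mod, Nat.mod_eq_of_lt hn]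
      rwa [e] at h1
  funext a
  exact key a a.2

theorem Wf_top [Fact p.Prime] {K : ℕ} (hM : M = p ^ K) (x : Fin M → ZMod p) : x ∈ Wf p M M := by
  have h1 : ∀ n : ℕ, (LinearMap.funLeft (ZMod p) (ZMod p) (shf M) :
      Module.End (ZMod p) (Fin M → ZMod p)) ^ n =
        LinearMap.funLeft (ZMod p) (ZMod p) (shf M ^ n : Perm (Fin M)) := by
    intro n
    induction n with
    | zero => rfl
    | succ n ih => rw [pow_succ', ih, pow_succ]; rfl
  have h2 : shf M ^ M = 1 := by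
    rw [shf, Equiv.nsmul_addRight]
    have : M • (1 : Fin M) = 0 := by simpa using card_nsmul_eq_zero (x := (1 : Fin M))
    rw [this]
    ext; simp
  have : CharP (Module.End (ZMod p) (Fin M → ZMod p)) p :=
    charP_of_injective_algebraMap (algebraMap (ZMod p) _).injective p
  have h3 : dif p M ^ p ^ K = 0 := by
    rw [dif, sub_pow_char_pow_of_commute _ _ (Commute.one_right _), h1, ← hM, h2, one_pow]
    exact sub_self _
  rw [Wf, LinearMap.mem_ker]
  conv_lhs => rw [show dif p M ^ M = dif p M ^ p ^ K by rw [← hM], h3]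
  rfl

/-- `g` acts trivially on the quotients of the flag. -/
def Uni (p : ℕ) (g : Perm (Fin M)) : Prop :=
  ∀ j, ∀ u ∈ Wf p M (j + 1), u ∘ g - u ∈ Wf p M j

theorem uni_of_pgroup [hp : Fact p.Prime] {Q : Subgroup (Perm (Fin M))} (hQ : IsPGroup p Q)
    (hT : shf M ∈ Q) : ∀ g ∈ Q, Uni p g := by
  have step : ∀ j, (∀ g ∈ Q, ∀ u ∈ Wf p M j, u ∘ g ∈ Wf p M j) →
      ∀ g ∈ Q, ∀ u ∈ Wf p M (j + 1), u ∘ g - u ∈ Wf p M j := by
    intro j hj g hg u hu
    by_cases h0 : u ∈ Wf p M j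
    · exact sub_mem (hj g hg u h0) h0
    let _ : MulAction Q ((Fin M → ZMod p) ⧸ Wf p M j) :=
      { smul := fun g => (Wf p M j).mapQ (Wf p M j)
          (LinearMap.funLeft (ZMod p) (ZMod p) (g⁻¹ : Q).1) fun u hu => hj _ (g⁻¹).2 u hu
        one_smul := fun b => by
          induction b using Submodule.Quotient.induction_on with | _ v => rfl
        mul_smul := fun g h b => by
          induction b using Submodule.Quotient.induction_on with | _ v => rfl }
    have hs : ∀ (g : Q) (v : Fin M → ZMod p), g • (Submodule.Quotient.mk v : _ ⧸ Wf p M j) =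
        Submodule.Quotient.mk (v ∘ (g⁻¹ : Q).1) := fun _ _ => rfl
    have hd : p ∣ Nat.card ((Fin M → ZMod p) ⧸ Wf p M j) := by
      have h1 : (Submodule.Quotient.mk u : _ ⧸ Wf p M j) ≠ 0 := by
        rwa [Ne, Submodule.Quotient.mk_eq_zero]
      have h2 : addOrderOf (Submodule.Quotient.mk u : _ ⧸ Wf p M j) = p :=
        addOrderOf_eq_prime (by rw [← Nat.cast_smul_eq_nsmul (ZMod p)]; simp) h1
      have h3 := addOrderOf_dvd_natCard (Submodule.Quotient.mk u : _ ⧸ Wf p M j)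
      rwa [h2] at h3
    obtain ⟨b, hb, hb0⟩ := hQ.exists_fixed_point_of_prime_dvd_card_of_fixed_point
      ((Fin M → ZMod p) ⧸ Wf p M j) hd (a := 0) fun g => by
        rw [← Submodule.Quotient.mk_zero, hs]; rfl
    induction b using Submodule.Quotient.induction_on with | _ v =>
    have h1 : ∀ g ∈ Q, v ∘ g - v ∈ Wf p M j := fun g hg => by
      have := hb (⟨g, hg⟩ : Q)⁻¹
      rw [hs, inv_inv, Submodule.Quotient.eq] at this
      exact this
    have h2 : v ∈ Wf p M (j + 1) := mem_succ.2 (h1 _ hT)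
    have h3 : kap j v ≠ 0 := fun e =>
      hb0 ((Submodule.Quotient.mk_eq_zero _).2 (mem_of_kap h2 e)).symm
    have h4 : u - (kap j u / kap j v) • v ∈ Wf p M j :=
      mem_of_kap (sub_mem hu (Submodule.smul_mem _ _ h2)) (by
        rw [kap_sub, kap_smul, div_mul_cancel₀ _ h3, sub_self])
    have h5 := add_mem (sub_mem (hj g hg _ h4) h4)
      (Submodule.smul_mem _ (kap j u / kap j v) (h1 g hg))
    convert h5 using 1
    funext a
    simp
    ring
  have inv : ∀ j, ∀ g ∈ Q, ∀ u ∈ Wf p M j, u ∘ g ∈ Wf p M j := by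
    intro j
    induction j with
    | zero =>
      intro g _ u hu
      obtain rfl : u = 0 := by simpa [Wf] using hu
      exact zero_mem _
    | succ j ih =>
      intro g hg u hu
      simpa using add_mem (Wf_le (step j ih g hg u hu)) hu
  exact fun g hg j => step j (inv j) g hg

variable {Γ : Type} [Group Γ] (ρ : Γ →* Perm (Fin M))

def phi (j : ℕ) (x : Fin M → ZMod p) (h : Γ) : ZMod p := kap j (x ∘ ρ h) - kap j x

def stepM (st : List Γ × (Fin M → ZMod p)) (j : ℕ) : List Γ × (Fin M → ZMod p) :=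
  ((kerL (phi ρ j st.2) st.1).1, st.2 ∘ ρ ((kerL (phi ρ j st.2) st.1).2 ^
    sol p (kap j st.2).val (phi ρ j st.2 (kerL (phi ρ j st.2) st.1).2).val))

def run (n : ℕ) (st : List Γ × (Fin M → ZMod p)) : List Γ × (Fin M → ZMod p) :=
  (List.range n).reverse.foldl (stepM ρ) st

theorem run_succ (n : ℕ) (st : List Γ × (Fin M → ZMod p)) :
    run ρ (n + 1) st = run ρ n (stepM ρ st n) := by
  simp [run, List.range_succ]

/-- The invariant of the loop. -/
def Inv (j : ℕ) (L : List Γ) (x : Fin M → ZMod p) : Prop :=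
  Good L ∧ ∀ h ∈ cl L, Uni p (ρ h) ∧ x ∘ ρ h - x ∈ Wf p M j

omit [NeZero M] in
theorem comp_mul (x : Fin M → ZMod p) (g h : Γ) : x ∘ ρ (g * h) = (x ∘ ρ g) ∘ ρ h := by
  rw [map_mul]; rfl

variable {ρ}

theorem Inv.addi {j : ℕ} {L : List Γ} {x : Fin M → ZMod p} (hI : Inv ρ (j + 1) L x) :
    Addi (phi ρ j x) (cl L) := by
  intro g hg h hh
  have h1 := kap_zero ((hI.2 h hh).1 j _ (hI.2 g hg).2)
  have e : (x ∘ ρ g - x) ∘ ρ h = (x ∘ ρ g) ∘ ρ h - x ∘ ρ h := rfl
  rw [e, kap_sub, kap_sub, kap_sub] at h1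
  simp only [phi, comp_mul]
  linear_combination h1

theorem Inv.step [Fact p.Prime] {j : ℕ} {L : List Γ} {x : Fin M → ZMod p}
    (hI : Inv ρ (j + 1) L x) :
    Inv ρ j (stepM ρ (L, x) j).1 (stepM ρ (L, x) j).2 ∧ cl (stepM ρ (L, x) j).1 ≤ cl L ∧
      (∃ g ∈ cl L, (stepM ρ (L, x) j).2 = x ∘ ρ g) ∧
      ∀ k ∈ cl L, ∃ k' ∈ cl (stepM ρ (L, x) j).1, stepM ρ (L, x ∘ ρ k) j =
        ((stepM ρ (L, x) j).1, (stepM ρ (L, x) j).2 ∘ ρ k') := by
  have hφ := hI.addi
  obtain ⟨s1, s2, s3⟩ := kerL_spec L hI.1 hφ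
  have s4 := piv_mem (phi ρ j x) L
  simp only [stepM]
  refine ⟨⟨s1, fun h hh => ?_⟩, fun h hh => ((s2 h).1 hh).1, ⟨_, pow_mem s4 _, rfl⟩,
    fun k hk => ?_⟩
  · obtain ⟨h1, h2⟩ := (s2 h).1 hh
    refine ⟨(hI.2 h h1).1, ?_⟩
    generalize sol p _ _ = e
    have hg := pow_mem s4 e
    generalize (kerL (phi ρ j x) L).2 ^ e = g at hg
    have h3 := sub_mem (hI.2 _ (mul_mem hg h1)).2 (hI.2 _ hg).2
    rw [sub_sub_sub_cancel_right, comp_mul] at h3
    refine mem_of_kap h3 ?_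
    have h4 := hφ g hg h h1
    rw [h2] at h4
    simp only [phi, comp_mul] at h4
    rw [kap_sub]
    linear_combination h4
  · have e1 : ∀ h ∈ cl L, phi ρ j (x ∘ ρ k) h = phi ρ j x h := fun h hh => by
      have h4 := hφ k hk h hh
      simp only [phi, comp_mul] at h4 ⊢
      linear_combination h4
    rw [kerL_congr L e1, e1 _ s4]
    set g := (kerL (phi ρ j x) L).2
    have a1 := fun c : ZMod p => sol_spec c (d := phi ρ j x g)
    generalize he : sol p (kap j x).val (phi ρ j x g).val = e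
    generalize hf : sol p (kap j (x ∘ ρ k)).val (phi ρ j x g).val = f
    have m1 := inv_mem (pow_mem s4 e)
    have m2 := mul_mem hk (pow_mem s4 f)
    refine ⟨(g ^ e)⁻¹ * (k * g ^ f), (s2 _).2 ⟨mul_mem m1 m2, ?_⟩, ?_⟩
    · by_cases c : phi ρ j x g = 0
      · exact s3 c _ (mul_mem m1 m2)
      · have b1 := a1 (kap j x) c
        have b2 := a1 (kap j (x ∘ ρ k)) c
        rw [he] at b1
        rw [hf] at b2
        rw [hφ _ m1 _ m2, hφ _ hk _ (pow_mem s4 f), hφ.inv (pow_mem s4 e), hφ.pow s4, hφ.pow s4]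
        have b3 : phi ρ j x k = kap j (x ∘ ρ k) - kap j x := rfl
        linear_combination b3 + b2 - b1
    · rw [← comp_mul, ← comp_mul, mul_inv_cancel_left]

theorem run_spec [Fact p.Prime] (n : ℕ) (L : List Γ) (x : Fin M → ZMod p) (hI : Inv ρ n L x) :
    (∃ g ∈ cl L, (run ρ n (L, x)).2 = x ∘ ρ g) ∧
      ∀ k ∈ cl L, (run ρ n (L, x ∘ ρ k)).2 = (run ρ n (L, x)).2 := by
  induction n generalizing L x with
  | zero =>
    refine ⟨⟨1, one_mem _, by simp [run]⟩, fun k hk => ?_⟩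
    have := (hI.2 k hk).2
    simpa [Wf, run, sub_eq_zero] using this
  | succ n ih =>
    obtain ⟨h1, h2, ⟨g, hg, h3⟩, h4⟩ := hI.step
    obtain ⟨⟨g', hg', i1⟩, i2⟩ := ih _ _ h1
    refine ⟨⟨g * g', mul_mem hg (h2 hg'), ?_⟩, fun k hk => ?_⟩
    · rw [run_succ, comp_mul, ← h3, ← i1]
    · obtain ⟨k', hk', h5⟩ := h4 k hk
      rw [run_succ, run_succ, h5, i2 k' hk']

end Pool.Agent.P.MP_9e61a4_lc.Cm
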