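import Pool.Agent.K.MP_9e61a4_lc.C3

/-! A Sylow subgroup of the symmetric group on `p ^ e` points. -/

namespace Pool.Agent.P.MP_9e61a4_lc.Cm

open Equiv

variable {p M N : ℕ}

def iv (a : Fin M) : ℤ := (a.val : ℤ)

theorem dvd_eq {a b c : ℤ} (h : a ∣ b) (e : c = b) : a ∣ c := e ▸ h

def triM (p M : ℕ) : Submonoid (Perm (Fin M)) where
  carrier := {g | ∀ i, p ^ (i + 1) ∣ M → ∀ a b : Fin M, (p : ℤ) ^ i ∣ iv a - iv b →
    (p : ℤ) ^ (i + 1) ∣ (iv (g a) - iv a) - (iv (g b) - iv b)}
  one_mem' := fun i _ a b _ => by simp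
  mul_mem' := fun {g h} hg hh i hi a b hab => by
    have h1 := hh i hi a b hab
    have h2 : (p : ℤ) ^ i ∣ iv (h a) - iv (h b) := by
      have := dvd_add ((pow_dvd_pow _ i.le_succ).trans h1) hab
      exact dvd_eq this (by ring)
    have := dvd_add (hg i hi _ _ h2) h1
    exact dvd_eq this (by simp only [Perm.mul_apply]; ring)

/-- The permutations that act as translations on every level of the tree of residue classes. -/
def tri (p M : ℕ) : Subgroup (Perm (Fin M)) :=
  { triM p M with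
    inv_mem' := fun {g} hg => by
      obtain ⟨n, hn⟩ := mem_powers_iff_mem_zpowers.2 (inv_mem (Subgroup.mem_zpowers g))
      exact hn ▸ (triM p M).pow_mem hg n }

theorem tri_pgroup (K : ℕ) : IsPGroup p (tri p (p ^ K)) := by
  intro g
  have key : ∀ i ≤ K, ∀ a, (p : ℤ) ^ i ∣ iv ((g ^ p ^ i : tri p (p ^ K)).1 a) - iv a := by
    intro i
    induction i with
    | zero => intro _ a; simp
    | succ i ih =>
      intro hi a
      have h0 := ih (by omega)
      rw [pow_succ p i, pow_mul]
      obtain ⟨h, hh⟩ : ∃ h, h = g ^ p ^ i := ⟨_, rfl⟩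
      rw [← hh] at h0 ⊢
      have h1 : ∀ e : ℕ, (p : ℤ) ^ (i + 1) ∣
          (iv ((h ^ e : tri p (p ^ K)).1 a) - iv a) - e * (iv (h.1 a) - iv a) := by
        intro e
        induction e with
        | zero => simp
        | succ e ihe =>
          have h2 := dvd_add ((pow_dvd_pow _ i.le_succ).trans ihe) ((h0 a).mul_left e)
          rw [sub_add_cancel] at h2
          have := dvd_add (h.2 i (pow_dvd_pow _ hi) _ _ h2) ihe
          refine dvd_eq this ?_
          rw [pow_succ']
          simp only [Subgroup.coe_mul, Perm.mul_apply]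
          push_cast
          ring
      have h3 : (p : ℤ) ^ (i + 1) ∣ (p : ℤ) * (iv (h.1 a) - iv a) := by
        rw [pow_succ']
        exact mul_dvd_mul_left _ (h0 a)
      simpa using dvd_add (h1 p) h3
  refine ⟨K, Subtype.ext (Equiv.ext fun a => Fin.ext ?_)⟩
  have h0 := key K le_rfl a
  change _ = (a : ℕ)
  generalize (g ^ p ^ K : tri p (p ^ K)).1 a = b at h0 ⊢
  have h2 := a.2
  have h3 := b.2
  rw [← Nat.cast_pow] at h0
  have h1 := Int.eq_zero_of_abs_lt_dvd h0 (by rw [abs_lt, iv, iv]; omega)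
  simp only [iv] at h1
  omega

variable [NeZero N]

theorem add_mod {q : ℕ} (h : q ∣ N) (a : Fin N) : (a + Fin.ofNat N q).val % q = a.val % q := by
  rw [Fin.val_add, Fin.val_ofNat, Nat.add_mod_mod, Nat.mod_mod_of_dvd _ h, Nat.add_mod_right]

/-- Add `q` on the residue class of `r` modulo `q`. -/
def sh (N : ℕ) [NeZero N] (x : ℕ × ℕ) : Perm (Fin N) :=
  if h : x.1 ∣ N then
    { toFun := fun a => if a.val % x.1 = x.2 then a + Fin.ofNat N x.1 else a
      invFun := fun a => if a.val % x.1 = x.2 then a - Fin.ofNat N x.1 else a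
      left_inv := fun a => by
        by_cases c : a.val % x.1 = x.2
        · simp only [c, if_true, add_mod h, add_sub_cancel_right]
        · simp [c]
      right_inv := fun a => by
        have := add_mod h (a - Fin.ofNat N x.1)
        rw [sub_add_cancel] at this
        by_cases c : a.val % x.1 = x.2
        · simp only [c, if_true, ← this, sub_add_cancel]
        · simp [c] }
  else 1

theorem sh_apply {x : ℕ × ℕ} (h : x.1 ∣ N) (a : Fin N) :
    sh N x a = if a.val % x.1 = x.2 then a + Fin.ofNat N x.1 else a := by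
  rw [sh, dif_pos h]
  rfl

theorem sh_val {x : ℕ × ℕ} (h : x.1 ∣ N) (a : Fin N) :
    (sh N x a).val = if a.val % x.1 = x.2 then (a.val + x.1) % N else a.val := by
  rw [sh_apply h]
  split_ifs
  · rw [Fin.val_add, Fin.val_ofNat, Nat.add_mod_mod]
  · rfl

theorem sh_mem {j r : ℕ} (h : p ^ j ∣ N) : sh N (p ^ j, r) ∈ tri p N := by
  intro i hi a b hab
  have key : ∀ a : Fin N, (p : ℤ) ^ (i + 1) ∣ iv (sh N (p ^ j, r) a) - iv a -
      if a.val % p ^ j = r then (p : ℤ) ^ j else 0 := fun a => by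
    rw [iv, iv, sh_val h]
    split_ifs
    · refine (show (p : ℤ) ^ (i + 1) ∣ (N : ℤ) by exact_mod_cast hi).trans ?_
      push_cast
      rw [sub_sub]
      exact Int.dvd_emod_sub_self
    · simp
  have h1 : (p : ℤ) ^ (i + 1) ∣ (if a.val % p ^ j = r then (p : ℤ) ^ j else 0) -
      if b.val % p ^ j = r then (p : ℤ) ^ j else 0 := by
    rcases le_or_gt j i with c | c
    · have : b.val % p ^ j = a.val % p ^ j := by
        refine (Nat.modEq_iff_dvd).2 ?_
        push_cast
        exact (pow_dvd_pow _ c).trans hab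
      simp [this]
    · have := pow_dvd_pow (p : ℤ) (Nat.succ_le_of_lt c)
      refine dvd_sub ?_ ?_ <;> split_ifs <;> simp [this]
  have := dvd_add (dvd_sub (key a) (key b)) h1
  exact dvd_eq this (by ring)

theorem shf_mem : shf N ∈ tri p N := by
  have : shf N = sh N (p ^ 0, 0) := by
    ext a
    rw [sh_apply (by simp)]
    simp [shf, Nat.mod_one]
    rfl
  rw [this]
  exact sh_mem (by simp)

/-- The action on pairs: diagonal, or on the first coordinate only. -/
def rho (N : ℕ) (d : Bool) : Perm (Fin N) →* Perm (Fin (N * N)) where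
  toFun g := finProdFinEquiv.permCongr (Equiv.prodCongr g (if d then g else 1))
  map_one' := by ext; cases d <;> simp [Nat.mod_add_div]
  map_mul' g h := by ext; cases d <;> simp

omit [NeZero N] in
theorem rho_apply (d : Bool) (g : Perm (Fin N)) (a b : Fin N) :
    rho N d g (finProdFinEquiv (a, b)) = finProdFinEquiv (g a, (if d then g else 1) b) := by
  simp [rho]

omit [NeZero N] in
theorem rho_mem [hp : Fact p.Prime] {e : ℕ} (hN : N = p ^ e) (d : Bool) {g : Perm (Fin N)}
    (hg : g ∈ tri p N) : rho N d g ∈ tri p (N * N) := by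
  intro i hi c c' hc
  obtain ⟨⟨a, b⟩, rfl⟩ := finProdFinEquiv.surjective c
  obtain ⟨⟨a', b'⟩, rfl⟩ := finProdFinEquiv.surjective c'
  rw [rho_apply, rho_apply]
  have hh : (if d then g else 1) ∈ tri p N := by
    split_ifs
    exacts [hg, one_mem _]
  generalize (if d then g else 1) = h at hh
  have hv : ∀ a b : Fin N, iv (finProdFinEquiv (a, b)) = iv b + N * iv a := fun a b => by
    simp [iv, finProdFinEquiv]
  simp only [hv] at hc ⊢
  have hN' : (N : ℤ) = (p : ℤ) ^ e := by rw [hN]; push_cast; rfl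
  rcases lt_or_ge i e with c | c
  · have h1 : (p : ℤ) ^ (i + 1) ∣ N := hN' ▸ pow_dvd_pow _ c
    have h2 := hh i (by exact_mod_cast h1) b b' (by
      have := dvd_sub hc (((pow_dvd_pow _ i.le_succ).trans h1).mul_right (iv a - iv a'))
      exact dvd_eq this (by ring))
    have := dvd_add h2 (h1.mul_right ((iv (g a) - iv a) - (iv (g a') - iv a')))
    exact dvd_eq this (by ring)
  · obtain ⟨t, rfl⟩ := Nat.exists_eq_add_of_le c
    have h1 : (N : ℤ) ∣ iv b - iv b' := by
      have := dvd_sub ((hN' ▸ pow_dvd_pow (p : ℤ) c : (N : ℤ) ∣ _).trans hc)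
        (dvd_mul_right (N : ℤ) (iv a - iv a'))
      exact dvd_eq this (by ring)
    obtain rfl : b = b' := by
      have h2 := b.2
      have h3 := b'.2
      have := Int.eq_zero_of_abs_lt_dvd h1 (by rw [abs_lt, iv, iv]; omega)
      simp only [iv] at this
      exact Fin.ext (by omega)
    have h0 : (p : ℤ) ^ e ≠ 0 := pow_ne_zero _ (by exact_mod_cast hp.out.ne_zero)
    have h2 := hg t (by
      rw [hN, ← pow_add, Nat.pow_dvd_pow_iff_le_right hp.out.one_lt] at hi
      exact hN ▸ pow_dvd_pow _ (by omega)) a a' (by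
      rw [add_sub_add_left_eq_sub, ← mul_sub, hN', pow_add] at hc
      exact (mul_dvd_mul_iff_left h0).1 hc)
    have := mul_dvd_mul_left ((p : ℤ) ^ e) h2
    rw [hN', add_assoc, pow_add]
    exact dvd_eq this (by ring)

/-- The pairs `(q, r)` with `q` a proper divisor of `N` and `r < q`. -/
def idx (N : ℕ) : List (ℕ × ℕ) :=
  ((List.range N).filter fun q => N % q == 0).flatMap fun q =>
    (List.range (min q N)).map fun r => (q, r)

omit [NeZero N] in
theorem mem_idx {x : ℕ × ℕ} : x ∈ idx N ↔ x.1 ∣ N ∧ x.1 < N ∧ x.2 < x.1 := by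
  simp only [idx, List.mem_flatMap, List.mem_filter, List.mem_range, List.mem_map, beq_iff_eq,
    ← Nat.dvd_iff_mod_eq_zero]
  constructor
  · rintro ⟨q, ⟨h1, h2⟩, r, h3, rfl⟩
    exact ⟨h2, h1, by dsimp only; omega⟩
  · rintro ⟨h1, h2, h3⟩
    exact ⟨x.1, ⟨h2, h1⟩, x.2, by omega, rfl⟩

omit [NeZero N] in
theorem idx_sorted : (idx N).Pairwise fun x y => x.1 < y.1 ∨ x.1 = y.1 ∧ x.2 < y.2 := by
  rw [idx, List.pairwise_flatMap]
  refine ⟨fun q _ => ?_, (List.pairwise_lt_range.filter _).imp fun h x hx y hy => ?_⟩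
  · rw [List.pairwise_map]
    exact List.pairwise_lt_range.imp fun h => Or.inr ⟨rfl, h⟩
  · obtain ⟨_, _, rfl⟩ := List.mem_map.1 hx
    obtain ⟨_, _, rfl⟩ := List.mem_map.1 hy
    exact Or.inl h

theorem sh_conj {x y : ℕ × ℕ} (hx : x.1 ∣ y.1) (hy : y.1 ∣ N) (hr : y.2 < y.1) :
    ∃ r < y.1, (x.1 = y.1 → r = y.2) ∧ sh N x * sh N y * (sh N x)⁻¹ = sh N (y.1, r) := by
  have hx' := hx.trans hy
  have h0 : 0 < y.1 := by omega
  refine ⟨if y.2 % x.1 = x.2 then (y.2 + x.1) % y.1 else y.2, ?_, fun e => ?_, ?_⟩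
  · split_ifs
    exacts [Nat.mod_lt _ h0, hr]
  · rw [e, Nat.add_mod_right, Nat.mod_eq_of_lt hr, ite_self]
  · rw [mul_inv_eq_iff_eq_mul]
    ext1 a
    have h1 : (a + Fin.ofNat N y.1).val % x.1 = a.val % x.1 := by
      rw [← Nat.mod_mod_of_dvd _ hx, add_mod hy, Nat.mod_mod_of_dvd _ hx]
    have h2 : (a + Fin.ofNat N x.1).val % y.1 = (a.val + x.1) % y.1 := by
      rw [Fin.val_add, Fin.val_ofNat, Nat.add_mod_mod, Nat.mod_mod_of_dvd _ hy]
    have h3 := Nat.mod_mod_of_dvd a.val hx
    have h4 : (y.2 + x.1) % y.1 % x.1 = y.2 % x.1 := by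
      rw [Nat.mod_mod_of_dvd _ hx, Nat.add_mod_right]
    have h5 : (a.val + x.1) % y.1 % x.1 = a.val % x.1 := by
      rw [Nat.mod_mod_of_dvd _ hx, Nat.add_mod_right]
    rw [Perm.mul_apply, Perm.mul_apply, sh_apply hy a, sh_apply hx' a,
      sh_apply (x := (y.1, if y.2 % x.1 = x.2 then (y.2 + x.1) % y.1 else y.2)) hy, sh_apply hx']
    dsimp only
    by_cases c : a.val % y.1 = y.2
    · have h6 : y.2 % x.1 = a.val % x.1 := by rw [← c, h3]
      by_cases c' : a.val % x.1 = x.2
      · simp only [c, c', h1, h2, h6, if_true]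
        rw [if_pos (by rw [← c, Nat.mod_add_mod]), add_right_comm]
      · simp only [c, c', h1, h6, if_true, if_false]
    · by_cases c' : a.val % x.1 = x.2
      · simp only [c, c', h2, if_true, if_false]
        rw [if_neg]
        split_ifs with c''
        · intro e
          refine c ?_
          rw [← Nat.mod_eq_of_lt hr]
          exact Nat.ModEq.add_right_cancel' _ e
        · intro e
          rw [← e, h5] at c''
          exact c'' c'
      · simp only [c, c', if_false]
        rw [if_neg]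
        split_ifs with c''
        · intro e
          rw [← h4, ← e, h3] at c''
          exact c' c''
        · exact c

open Pointwise in
theorem good_strict [hp : Fact p.Prime] {e : ℕ} (hN : N = p ^ e) (S : List (ℕ × ℕ))
    (h1 : S.Pairwise fun x y => x.1 < y.1 ∨ x.1 = y.1 ∧ x.2 < y.2) (h2 : ∀ x ∈ S, x ∈ idx N)
    (h3 : ∀ x ∈ S, ∀ y ∈ idx N, x.1 < y.1 → y ∈ S) :
    Good (S.map (sh N)) ∧ Strict (S.map (sh N)) := by
  induction S with
  | nil => exact ⟨trivial, trivial⟩
  | cons x S ih =>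
    rw [List.pairwise_cons] at h1
    have up : ∀ y ∈ idx N, x.1 < y.1 → y ∈ S := fun y hy c =>
      (List.mem_cons.1 (h3 x (by simp) y hy c)).resolve_left fun e => by simp [e] at c
    obtain ⟨i1, i2⟩ := ih h1.2 (fun y hy => h2 y (by simp [hy])) fun y hy z hz c =>
      up z hz (by have := h1.1 y hy; omega)
    obtain ⟨x1, x2, x3⟩ := mem_idx.1 (h2 x (by simp))
    have dv : ∀ q, q ∣ N → x.1 < q → x.1 * p ∣ q := fun q hq c => by
      rw [hN] at hq x1
      obtain ⟨i, -, hi⟩ := (Nat.dvd_prime_pow hp.out).1 x1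
      obtain ⟨j, -, rfl⟩ := (Nat.dvd_prime_pow hp.out).1 hq
      rw [hi, Nat.pow_lt_pow_iff_right hp.out.one_lt] at c
      rw [hi, ← pow_succ]
      exact pow_dvd_pow _ c
    refine ⟨⟨i1, Subgroup.mem_normalizer_fintype fun k hk => ?_⟩, i2, fun hk => ?_⟩
    · refine (show cl (S.map (sh N)) ≤
        (cl (S.map (sh N))).comap (MulAut.conj (sh N x)).toMonoidHom from ?_) hk
      refine (Subgroup.closure_le _).2 fun k hk => ?_
      obtain ⟨y, hy, rfl⟩ := List.mem_map.1 hk
      obtain ⟨y1, y2, y3⟩ := mem_idx.1 (h2 y (by simp [hy]))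
      have c := h1.1 y hy
      obtain ⟨r, r1, r2, r3⟩ := sh_conj (N := N) (x := x) (c.elim
        (fun c => (dvd_mul_right _ _).trans (dv _ y1 c)) fun c => c.1 ▸ dvd_rfl) y1 y3
      change sh N x * sh N y * (sh N x)⁻¹ ∈ cl (S.map (sh N))
      rw [r3]
      refine mem_cl (List.mem_map_of_mem ?_)
      rcases c with c | c
      · exact up _ (mem_idx.2 ⟨y1, y2, r1⟩) c
      · rwa [r2 c.1]
    · have d1 := dv N dvd_rfl x2
      have d2 : x.1 * 2 ≤ x.1 * p := Nat.mul_le_mul_left _ hp.out.two_le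
      have h4 : cl (S.map (sh N)) ≤
          MulAction.stabilizer _ {a : Fin N | a.val % (x.1 * p) = x.2} := by
        refine (Subgroup.closure_le _).2 fun k hk => ?_
        obtain ⟨y, hy, rfl⟩ := List.mem_map.1 hk
        obtain ⟨y1, y2, y3⟩ := mem_idx.1 (h2 y (by simp [hy]))
        refine (MulAction.mem_stabilizer_set' (Set.toFinite _)).2 fun a ha => ?_
        change (sh N y a).val % _ = _
        change a.val % _ = _ at ha
        rw [sh_val y1]
        split_ifs with c
        · rcases h1.1 y hy with c' | c'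
          · obtain ⟨t, ht⟩ := dv _ y1 c'
            rw [Nat.mod_mod_of_dvd _ d1, ht, Nat.add_mul_mod_self_left, ha]
          · rw [← c'.1, ← Nat.mod_mod_of_dvd _ (dvd_mul_right x.1 p), ha,
              Nat.mod_eq_of_lt x3] at c
            omega
        · exact ha
      have h5 := @(MulAction.mem_stabilizer_set' (Set.toFinite _)).1 (h4 hk)
        ⟨x.2, by omega⟩ (Nat.mod_eq_of_lt (by dsimp only; omega))
      change (sh N x _).val % _ = _ at h5
      rw [sh_val x1, if_pos (Nat.mod_eq_of_lt x3), Nat.mod_mod_of_dvd _ d1,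
        Nat.mod_eq_of_lt (by dsimp only; omega)] at h5
      dsimp only at h5
      omega

/-- The polycyclic list. -/
def gen (N : ℕ) [NeZero N] : List (Perm (Fin N)) := (idx N).map (sh N)

theorem gen_le [hp : Fact p.Prime] {e : ℕ} (hN : N = p ^ e) : cl (gen N) ≤ tri p N := by
  refine (Subgroup.closure_le _).2 fun k hk => ?_
  obtain ⟨⟨q, r⟩, hy, rfl⟩ := List.mem_map.1 hk
  have h := (mem_idx.1 hy).1
  obtain ⟨i, -, rfl⟩ := (Nat.dvd_prime_pow hp.out).1 (hN ▸ h : q ∣ p ^ e)
  exact sh_mem h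

theorem gen_inv [hp : Fact p.Prime] {e : ℕ} (hN : N = p ^ e) (d : Bool)
    (x : Fin (N * N) → ZMod p) : Inv (rho N d) (N * N) (gen N) x := by
  have hM : N * N = p ^ (e + e) := by rw [hN, pow_add]
  refine ⟨(good_strict hN _ idx_sorted (fun _ h => h) fun _ _ _ h _ => h).1, fun h hh =>
    ⟨uni_of_pgroup (Q := tri p (N * N)) ?_ shf_mem _ (rho_mem hN d (gen_le hN hh)), Wf_top hM _⟩⟩
  rw [hM]
  exact tri_pgroup _

theorem gen_index [hp : Fact p.Prime] {e m : ℕ} (hN : N = p ^ e)
    (h : Nat.card (cl (gen N)) * m = N.factorial) : ¬p ∣ m := by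
  intro hm
  have h1 := Strict.dvd (p := p) (gen N)
    (good_strict hN _ idx_sorted (fun _ h => h) fun _ _ _ h _ => h).2
    (IsPGroup.to_le (K := tri p N) (by rw [hN]; exact tri_pgroup _) (gen_le hN))
  have h2 : (gen N).length = ∑ i ∈ Finset.range e, p ^ i := by
    rw [← Nat.sum_properDivisors_prime_nsmul (f := fun x => x) hp.out, ← hN, gen,
      List.length_map, idx, List.length_flatMap,
      ← List.sum_toFinset _ (List.nodup_range.filter _)]
    refine Finset.sum_congr ?_ fun q hq => ?_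
    · ext q
      simp [Nat.mem_properDivisors, ← Nat.dvd_iff_mod_eq_zero, and_comm]
    · simp [(Nat.mem_properDivisors.1 hq).2.le]
  have h3 := mul_dvd_mul h1 hm
  rw [h, ← pow_succ, h2, ← Nat.Prime.multiplicity_factorial_pow hp.out, ← hN] at h3
  exact (Nat.finiteMultiplicity_iff.2 ⟨hp.out.ne_one, N.factorial_pos⟩).not_pow_dvd_of_multiplicity_lt
    (Nat.lt_succ_self _) h3

end Pool.Agent.P.MP_9e61a4_lc.Cm
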