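import Pool.Agent.K.MP_9e61a4_lc.C4

/-! Counting the cosets of the Sylow subgroup. -/

namespace Pool.Agent.P.MP_9e61a4_lc.Cm

open Equiv

variable {p N : ℕ} [NeZero N]

/-- The canonical form under the Sylow subgroup. -/
def cf (d : Bool) (x : Fin (N * N) → ZMod p) : Fin (N * N) → ZMod p :=
  (run (rho N d) (N * N) (gen N, x)).2

/-- The permutation matrix. -/
def pm (p : ℕ) (σ : Perm (Fin N)) : Fin (N * N) → ZMod p :=
  fun c => if σ c.divNat = c.modNat then 1 else 0

def Rep (p : ℕ) (σ : Perm (Fin N)) : Prop := cf false (pm p σ) = pm p σ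

def bits (x : Fin (N * N) → ZMod p) : List Bool := List.ofFn fun c => (x c).val == 1

noncomputable def cnt (x : Fin (N * N) → ZMod p) (w : List Bool) : ℕ :=
  {σ : Perm (Fin N) | Rep p σ ∧ w <+: bits (cf true (x ∘ rho N true σ))}.ncard

omit [NeZero N] in
theorem pm_apply (σ : Perm (Fin N)) (a b : Fin N) :
    pm p σ (finProdFinEquiv (a, b)) = if σ a = b then 1 else 0 := by
  have h := finProdFinEquiv.symm_apply_apply (a, b)
  rw [finProdFinEquiv_symm_apply, Prod.mk.injEq] at h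
  rw [pm, h.1, h.2]

omit [NeZero N] in
theorem pm_mul (σ g : Perm (Fin N)) : pm p σ ∘ rho N false g = pm p (σ * g) := by
  funext c
  obtain ⟨⟨a, b⟩, rfl⟩ := finProdFinEquiv.surjective c
  rw [Function.comp_apply, rho_apply, pm_apply, pm_apply]
  rfl

variable [hp : Fact p.Prime]

omit [NeZero N] in
theorem pm_inj {σ τ : Perm (Fin N)} (h : pm p σ = pm p τ) : σ = τ := by
  ext1 a
  have := congrFun h (finProdFinEquiv (a, τ a))
  rw [pm_apply, pm_apply, if_pos rfl] at this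
  by_contra c
  rw [if_neg c] at this
  exact zero_ne_one this

variable {e : ℕ} (hN : N = p ^ e)
include hN

theorem cf_orbit (d : Bool) (x : Fin (N * N) → ZMod p) :
    ∃ g ∈ cl (gen N), cf d x = x ∘ rho N d g := (run_spec _ _ _ (gen_inv hN d x)).1

theorem cf_eq (d : Bool) (x : Fin (N * N) → ZMod p) {k : Perm (Fin N)} (hk : k ∈ cl (gen N)) :
    cf d (x ∘ rho N d k) = cf d x := (run_spec _ _ _ (gen_inv hN d x)).2 k hk

theorem count_rep (Φ : Perm (Fin N) → Prop) (hΦ : ∀ σ, ∀ g ∈ cl (gen N), Φ σ → Φ (σ * g)) :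
    {σ | Φ σ}.ncard = Nat.card (cl (gen N)) * {σ | Rep p σ ∧ Φ σ}.ncard := by
  have h1 : {σ | Φ σ} = (fun z : Perm (Fin N) × Perm (Fin N) => z.2 * z.1) ''
      ((cl (gen N) : Set (Perm (Fin N))) ×ˢ {σ | Rep p σ ∧ Φ σ}) := by
    ext σ
    constructor
    · intro h
      obtain ⟨g, hg, h2⟩ := cf_orbit hN false (pm p σ)
      refine ⟨(g⁻¹, σ * g), ⟨inv_mem hg, ?_, hΦ _ _ hg h⟩, by simp⟩
      rw [Rep, ← pm_mul, cf_eq hN _ _ hg, h2]
    · rintro ⟨⟨g, τ⟩, ⟨hg, -, h⟩, rfl⟩
      exact hΦ _ _ hg h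
  rw [h1, Set.InjOn.ncard_image, Set.ncard_prod]
  · rfl
  · rintro ⟨g, τ⟩ ⟨hg, h2, -⟩ ⟨g', τ'⟩ ⟨hg', h3, -⟩ h
    dsimp only at h h2 h3
    have h4 : τ = τ' := by
      apply pm_inj (p := p)
      rw [← h2, ← h3, ← cf_eq hN _ _ hg, ← cf_eq hN _ (pm p τ') hg', pm_mul, pm_mul, h]
    subst h4
    rw [mul_left_cancel h]

theorem cnt_mul (x : Fin (N * N) → ZMod p) (w : List Bool) :
    {σ : Perm (Fin N) | w <+: bits (cf true (x ∘ rho N true σ))}.ncard =
      Nat.card (cl (gen N)) * cnt x w :=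
  count_rep hN _ fun σ g hg h => by rwa [comp_mul, cf_eq hN _ _ hg]

theorem cnt_nil (x : Fin (N * N) → ZMod p) : ¬p ∣ cnt x [] := by
  refine gen_index hN ?_
  rw [← cnt_mul hN]
  simp [Fintype.card_perm]

theorem cnt_comp (x : Fin (N * N) → ZMod p) (τ : Perm (Fin N)) (w : List Bool) :
    cnt (x ∘ rho N true τ) w = cnt x w := by
  refine Nat.eq_of_mul_eq_mul_left (Nat.card_pos (α := cl (gen N))) ?_
  rw [← cnt_mul hN, ← cnt_mul hN, ← Set.ncard_image_of_injective _ (mul_right_injective τ)]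
  congr 1
  ext σ
  simp only [Set.mem_image, Set.mem_ofPred_eq, ← comp_mul]
  exact ⟨fun ⟨_, h, e⟩ => e ▸ h, fun h => ⟨τ⁻¹ * σ, by simpa using h, by simp⟩⟩

omit hN hp in
theorem cnt_split (x : Fin (N * N) → ZMod p) {w : List Bool} (hw : w.length < N * N) :
    cnt x w = cnt x (w ++ [false]) + cnt x (w ++ [true]) := by
  have key : ∀ l : List Bool, l.length = N * N →
      (w <+: l ↔ w ++ [false] <+: l ∨ w ++ [true] <+: l) := fun l hl => by
    refine ⟨?_, fun h => h.elim (List.prefix_append _ _).trans (List.prefix_append _ _).trans⟩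
    rintro ⟨t, rfl⟩
    rcases t with _ | ⟨_ | _, t⟩
    · simp at hl
      omega
    · exact Or.inl ⟨t, by simp⟩
    · exact Or.inr ⟨t, by simp⟩
  rw [cnt, cnt, cnt, ← Set.ncard_union_eq]
  · congr 1
    ext σ
    simp only [Set.mem_ofPred_eq, Set.mem_union]
    rw [key _ (by simp [bits]), and_or_left]
  · rw [Set.disjoint_left]
    rintro σ ⟨-, h1⟩ ⟨-, h2⟩
    simpa using (List.prefix_of_prefix_length_le h1 h2 (by simp)).eq_of_length (by simp)

omit hN hp

/-- Extend the prefix bit by bit. -/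
def walk (t : List Bool → Bool) (n : ℕ) : List Bool :=
  (fun w => if t (w ++ [false]) = true then w ++ [false] else w ++ [true])^[n] []

include hN hp in
theorem walk_spec (x : Fin (N * N) → ZMod p) {t : List Bool → Bool}
    (ht : ∀ w, t w = true ↔ ¬p ∣ cnt x w) :
    ∃ π : Perm (Fin N), walk t (N * N) = bits (x ∘ rho N true π) := by
  have key : ∀ n ≤ N * N, (walk t n).length = n ∧ ¬p ∣ cnt x (walk t n) := by
    intro n
    induction n with
    | zero => exact fun _ => ⟨rfl, cnt_nil hN x⟩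
    | succ n ih =>
      intro hn
      obtain ⟨h1, h2⟩ := ih (by omega)
      have h3 := cnt_split x (w := walk t n) (by omega)
      rw [walk, Function.iterate_succ_apply']
      rw [walk] at h1 h2 h3
      generalize _^[n] ([] : List Bool) = w at h1 h2 h3
      split_ifs with c
      · exact ⟨by simp [h1], (ht _).1 c⟩
      · refine ⟨by simp [h1], fun h => h2 ?_⟩
        rw [h3]
        exact dvd_add (not_not.1 (mt (ht _).2 c)) h
  obtain ⟨h1, h2⟩ := key _ le_rfl
  obtain ⟨σ, -, h3⟩ := Set.nonempty_of_ncard_ne_zero (s := {σ : Perm (Fin N) | Rep p σ ∧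
    walk t (N * N) <+: bits (cf true (x ∘ rho N true σ))}) fun h => h2 (by rw [cnt, h]; simp)
  obtain ⟨g, -, hg⟩ := cf_orbit hN true (x ∘ rho N true σ)
  exact ⟨σ * g, by rw [h3.eq_of_length (by simp [h1, bits]), hg, comp_mul]⟩

end Pool.Agent.P.MP_9e61a4_lc.Cm
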