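import Pool.Agent.K.MP_9e61a4_lc.C5
import Pool.Agent.K.MP_9e61a4_lc.C1
import Pool.Agent.P.MP_9e61a4_lc.CmDefs

-- part Pool.Agent.P.MP_9e61a4_lc.CmE
section

/-! The programs on lists and their running time. -/

namespace Pool.Agent.P.MP_9e61a4_lc.Cm

open N487b59b3 N68a2faeb Pool.Agent.Lib.PolyTime

def subL (p u v : ℕ) : ℕ := (u + (p - 1) * v) % p

def difL (p M : ℕ) (x : List ℕ) : List ℕ :=
  (List.range M).map fun c => min p (subL p (x.getD ((c + 1) % M) 0) (x.getD c 0))

def kapL (p M j : ℕ) (x : List ℕ) : ℕ := ((difL p M)^[min j M] x).getD 0 0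

def actL (p N : ℕ) (d : Bool) (g : PL) (x : List ℕ) : List ℕ :=
  (List.range (N * N)).map fun c =>
    min p (x.getD ((if d = true then g.getD (c % N) 0 else c % N) + N * g.getD (c / N) 0) 0)

def phiL (p N : ℕ) (d : Bool) (j : ℕ) (x : List ℕ) (h : PL) : ℕ :=
  subL p (kapL p (N * N) j (actL p N d h x)) (kapL p (N * N) j x)

def kerStepL (p N : ℕ) (φ : PL → ℕ) (h : PL) (st : List PL × PL) : List PL × PL :=
  if φ st.2 = 0 then (mulL N h (powL N h (if φ h = 0 then 0 else p - 1)) :: st.1, h)
  else (mulL N h (powL N st.2 (sol p (φ h) (φ st.2))) :: st.1, st.2)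

def kerLL (p N : ℕ) (φ : PL → ℕ) (L : List PL) : List PL × PL :=
  L.foldr (kerStepL p N φ) ([], List.range N)

def stepL (p N : ℕ) (d : Bool) (st : List PL × List ℕ) (j : ℕ) : List PL × List ℕ :=
  ((kerLL p N (phiL p N d j st.2) st.1).1,
    actL p N d (powL N (kerLL p N (phiL p N d j st.2) st.1).2 (sol p (kapL p (N * N) j st.2)
      (phiL p N d j st.2 (kerLL p N (phiL p N d j st.2) st.1).2))) st.2)

def genL (N : ℕ) : List PL :=
  (idx N).map fun x => (List.range N).map fun a => if a % x.1 = x.2 then (a + x.1) % N else a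

def cfL (p N : ℕ) (d : Bool) (x : List ℕ) : List ℕ :=
  ((List.range (N * N)).reverse.foldl (stepL p N d) (genL N, x)).2

/-- A power of `p` between `n` and `p n + 1`. -/
def NN (p n : ℕ) : ℕ := (fun m => if m < n then p * m else m)^[n] 1

def xvL (N : ℕ) (A : Mat) : List ℕ :=
  (List.range (N * N)).map fun c =>
    if c / N = c % N then (if c / N < A.length then 1 else 0) else (mget A (c / N) (c % N)).toNat

def sigL (N : ℕ) (y : Str) : PL :=
  (List.range N).map fun a => ((List.range N).filter fun b => y.getD (b + N * a) false).headD 0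

def pmL (N : ℕ) (g : PL) : List ℕ :=
  (List.range (N * N)).map fun c => if g.getD (c / N) 0 = c % N then 1 else 0

def chk (p m N : ℕ) (A : Mat) (w y : Str) : Bool :=
  ((List.range N).all fun b => decide (b ∈ sigL N y)) &&
  decide (((y.drop (N * N)).filter fun b => b).length < m) &&
  (y == (pmL N (sigL N y)).map (· == 1) ++
    (List.replicate ((y.drop (N * N)).filter fun b => b).length true ++
      List.replicate (y.length - N * N - ((y.drop (N * N)).filter fun b => b).length) false)) &&
  (cfL p N false (pmL N (sigL N y)) == pmL N (sigL N y)) &&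
  (((cfL p N true (actL p N true (sigL N y) (xvL N A))).map (· == 1)).take w.length == w)

/-- The relation whose witnesses are counted. -/
def rel (p m : ℕ) (z : Str × Str) : Bool :=
  chk p m (NN p ((blocks z.1).map decStr).tail.length) ((blocks z.1).map decStr).tail
    (((blocks z.1).map decStr).headD []) z.2

def extL (N : ℕ) (w : Str) : Mat :=
  ((List.range N).filter fun a => w.getD (a + N * a) false).map fun a =>
    ((List.range N).filter fun a => w.getD (a + N * a) false).map fun b =>
      !(a == b) && w.getD (b + N * a) false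

def canon (p : ℕ) (t : Str → Bool) (A : Mat) : Mat :=
  extL (NN p A.length) (walk (fun w => t (bitEncode (w :: A))) (NN p A.length * NN p A.length))

theorem NN_spec {p : ℕ} (hp : 2 ≤ p) (n : ℕ) : (∃ e, NN p n = p ^ e) ∧ n ≤ NN p n := by
  have key : ∀ i, (∃ e, (fun m => if m < n then p * m else m)^[i] 1 = p ^ e) ∧
      min (i + 1) n ≤ (fun m => if m < n then p * m else m)^[i] 1 := by
    intro i
    induction i with
    | zero => exact ⟨⟨0, by simp⟩, by simp⟩
    | succ i ih =>
      rw [Function.iterate_succ_apply']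
      obtain ⟨⟨e, he⟩, h⟩ := ih
      rw [he] at h ⊢
      split_ifs with c
      · have := Nat.mul_le_mul_right (p ^ e) hp
        exact ⟨⟨e + 1, by rw [pow_succ']⟩, by omega⟩
      · exact ⟨⟨e, rfl⟩, by omega⟩
  exact ⟨(key n).1, by simpa [NN] using (key n).2⟩

theorem NN_le (p n i : ℕ) : (fun m => if m < n then p * m else m)^[i] 1 ≤ p * n + 1 := by
  induction i with
  | zero => simp
  | succ i ih =>
    rw [Function.iterate_succ_apply']
    split_ifs with c
    · have := Nat.mul_le_mul_left p c.le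
      omega
    · exact ih

theorem sz_map_min (p M : ℕ) (f : ℕ → ℕ) :
    sz ((List.range M).map fun c => min p (f c)) ≤ M * (2 * p + 1) := by
  have := sz_le_of_forall (l := (List.range M).map fun c => min p (f c)) (B := p) fun x hx => by
    obtain ⟨y, _, rfl⟩ := List.mem_map.1 hx
    exact (sz_le_self _).trans (min_le_left _ _)
  simpa using this

theorem kerLL_size (p N : ℕ) (φ : PL → ℕ) (L : List PL) :
    (kerLL p N φ L).1.length = L.length ∧
      sz (kerLL p N φ L).1 ≤ L.length * (2 * (N * (2 * N + 1)) + 1) := by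
  induction L with
  | nil => simp [kerLL]
  | cons h L ih =>
    rw [show kerLL p N φ (h :: L) = kerStepL p N φ h (kerLL p N φ L) from rfl, kerStepL,
      List.length_cons, Nat.succ_mul]
    have h1 := fun g => sz_mulL N h g
    split_ifs <;> simp only [List.length_cons, sz_cons, ih.1, true_and] <;> grind

variable {α : Type} [N487b59b3 α] {p : ℕ} {N j : α → ℕ} {d : Bool}

@[fun_prop] theorem pt_subL {u v : α → ℕ} (hu : PT u) (hv : PT v) :
    PT fun a => subL p (u a) (v a) := by
  unfold subL
  fun_prop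

@[fun_prop] theorem pt_sol {u v : α → ℕ} (hu : PT u) (hv : PT v) :
    PT fun a => sol p (u a) (v a) := by
  unfold sol
  fun_prop

@[fun_prop] theorem small_sol {u v : α → ℕ} : Small fun a => sol p (u a) (v a) := by
  refine (Small.const p).mono fun a => ?_
  rcases p with _ | p
  · simp [sol]
  · exact (Nat.mod_lt _ p.succ_pos).le

@[fun_prop] theorem pt_difL {x : α → List ℕ} (hN : PT N) (hs : Small N) (hx : PT x) :
    PT fun a => difL p (N a) (x a) := by
  unfold difL
  fun_prop

@[fun_prop] theorem pt_kapL {x : α → List ℕ} (hN : PT N) (hs : Small N) (hj : PT j) (hx : PT x) :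
    PT fun a => kapL p (N a) (j a) (x a) := by
  refine PT.getD (PT.iterate_nat_growth (F := fun a x => difL p (N a) x) (hj.min hN) hs.min hx
    (by fun_prop) (fun a => N a * (2 * p + 1)) (by fun_prop) fun a b => ?_) (PT.const _)
    (PT.const _)
  exact (sz_map_min _ _ _).trans (Nat.le_add_left _ _)

@[fun_prop] theorem pt_actL {g x : α → List ℕ} (hN : PT N) (hs : Small N) (hg : PT g) (hx : PT x) :
    PT fun a => actL p (N a) d (g a) (x a) := by
  unfold actL
  cases d <;> simp only [if_true, Bool.false_eq_true, if_false] <;> fun_prop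

@[fun_prop] theorem pt_phiL {g x : α → List ℕ} (hN : PT N) (hs : Small N) (hj : PT j) (hx : PT x)
    (hg : PT g) : PT fun a => phiL p (N a) d (j a) (x a) (g a) := by
  unfold phiL
  fun_prop

theorem pt_kerLL {φ : α → PL → ℕ} {L : α → List PL} (hN : PT N) (hs : Small N) (hL : PT L)
    (hφ : PT fun q : α × PL => φ q.1 q.2) : PT fun a => kerLL p (N a) (φ a) (L a) := by
  have h1 : PT fun q : α × (List PL × PL) × PL => φ q.1 q.2.2 :=
    hφ.comp (g := fun q : α × (List PL × PL) × PL => (q.1, q.2.2)) (by fun_prop)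
  have h2 : PT fun q : α × (List PL × PL) × PL => φ q.1 q.2.1.2 :=
    hφ.comp (g := fun q : α × (List PL × PL) × PL => (q.1, q.2.1.2)) (by fun_prop)
  have h3 : PT fun q : α × (List PL × PL) × PL => N q.1 := by fun_prop
  have h4 : Small fun q : α × (List PL × PL) × PL => N q.1 := by fun_prop
  refine PT.foldr_growth (f := fun a => kerStepL p (N a) (φ a)) hL (by fun_prop) ?_
    (fun q => 2 * (2 * (N q.1 * (2 * N q.1 + 1)) + 1) + sz q.2)
    (show Lib.PolyTime.Small _ by fun_prop) fun a b x => ?_
  · unfold kerStepL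
    refine PT.ite (by fun_prop) (PT.pair (PT.cons (pt_mulL h3 h4 (by fun_prop)
      (pt_powL h3 h4 (by fun_prop) (by fun_prop) ((Small.const p).mono fun _ => ?_)))
      (by fun_prop)) (by fun_prop)) (PT.pair (PT.cons (pt_mulL h3 h4 (by fun_prop)
      (pt_powL h3 h4 (by fun_prop) (pt_sol h1 h2) small_sol)) (by fun_prop)) (by fun_prop))
    split_ifs <;> omega
  · have h5 := fun g => sz_mulL (N a) x g
    rw [sz_pair' b, kerStepL]
    split_ifs <;> simp only [sz_pair, sz_cons] <;> grind

theorem pt_stepL {st : α → List PL × List ℕ} (hN : PT N) (hs : Small N) (hj : PT j)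
    (hst : PT st) : PT fun a => stepL p (N a) d (st a) (j a) := by
  have h1 : PT fun a => kerLL p (N a) (phiL p (N a) d (j a) (st a).2) (st a).1 :=
    pt_kerLL hN hs hst.fst (by fun_prop)
  unfold stepL
  exact h1.fst.pair (pt_actL hN hs (pt_powL hN hs h1.snd (pt_sol (by fun_prop)
    (pt_phiL hN hs hj hst.snd h1.snd)) small_sol) hst.snd)

@[fun_prop] theorem pt_genL (hN : PT N) (hs : Small N) : PT fun a => genL (N a) := by
  unfold genL idx
  fun_prop

theorem fold_size (p N : ℕ) (d : Bool) (l : List ℕ) (st : List PL × List ℕ) :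
    (l.foldl (stepL p N d) st).1.length = st.1.length ∧ sz (l.foldl (stepL p N d) st) ≤
      sz st + (2 * (st.1.length * (2 * (N * (2 * N + 1)) + 1)) + 1 + N * N * (2 * p + 1)) := by
  induction l using List.reverseRecOn with
  | nil => simp
  | append_singleton l x ih =>
    rw [List.foldl_append, List.foldl_cons, List.foldl_nil]
    generalize l.foldl (stepL p N d) st = s at ih
    obtain ⟨h1, h2⟩ := kerLL_size p N (phiL p N d x s.2) s.1
    refine ⟨h1.trans ih.1, ?_⟩
    rw [stepL, sz_pair, ← ih.1]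
    exact (add_le_add (by omega) (sz_map_min _ _ _)).trans (Nat.le_add_left _ _)

@[fun_prop] theorem pt_cfL {x : α → List ℕ} (hN : PT N) (hs : Small N) (hx : PT x) :
    PT fun a => cfL p (N a) d (x a) := by
  refine (PT.foldl (f := fun a => stepL p (N a) d) (by fun_prop) (by fun_prop)
    (pt_stepL (by fun_prop) (by fun_prop) (by fun_prop) (by fun_prop)) ?_).snd
  have h1 : Small fun a => sz (genL (N a), x a) + (2 * ((genL (N a)).length *
      (2 * (N a * (2 * N a + 1)) + 1)) + 1 + N a * N a * (2 * p + 1)) := by fun_prop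
  exact (PB.reindex h1 (Prod.fst : α × ℕ → α)).mono fun q => (fold_size _ _ _ _ _).2

@[fun_prop] theorem small_NN (hs : Small N) : Small fun a => NN p (N a) :=
  (show Small fun a => p * N a + 1 by fun_prop).mono fun _ => NN_le _ _ _

@[fun_prop] theorem pt_NN (hN : PT N) (hs : Small N) : PT fun a => NN p (N a) := by
  refine PT.iterate_nat (F := fun a m => if m < N a then p * m else m) hN hs (PT.const _)
    (by fun_prop) ?_
  have h1 : Small fun a => p * N a + 1 := by fun_prop
  exact (PB.reindex h1 fun q : {q : α × ℕ // q.2 ≤ N q.1} => q.1.1).mono fun q =>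
    (sz_le_self _).trans (NN_le _ _ _)

theorem pt_chk {m : ℕ} {A : α → Mat} {w y : α → Str} (hN : PT N) (hs : Small N) (hA : PT A)
    (hw : PT w) (hy : PT y) : PT fun a => chk p m (N a) (A a) (w a) (y a) := by
  have h1 : PT fun a => sigL (N a) (y a) := by unfold sigL; fun_prop
  have h0 : ∀ {g : α → PL}, PT g → PT fun a => pmL (N a) (g a) := fun hg => by
    unfold pmL; fun_prop
  have h2 := h0 h1
  have h3 : PT fun a => xvL (N a) (A a) := by unfold xvL; fun_prop
  have h4 : PT fun a => ((y a).drop (N a * N a)).filter fun b => b := by fun_prop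
  unfold chk
  refine ((((PT.all (by fun_prop) (PT.decide (PTP.mem (h1.comp PT.id.fst) PT.id.snd))).and
    (by fun_prop)).and (PT.beq hy (PT.append (PT.map h2 (by fun_prop)) (by fun_prop)))).and
    (PT.beq (pt_cfL hN hs h2) h2)).and (PT.beq (PT.take hw.length
      (PT.map (pt_cfL hN hs (pt_actL hN hs h1 h3)) (by fun_prop))) hw)

theorem pt_rel (p m : ℕ) : PT (rel p m) := by
  have h1 : PT fun z : Str × Str => (blocks z.1).map decStr := by fun_prop
  exact pt_chk (pt_NN h1.tail.length (Small.length h1.tail)) (small_NN (Small.length h1.tail))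
    h1.tail (h1.headD (PT.const _)) PT.id.snd

theorem flex_canon {O t : Str → Bool} (ht : Flex O t) (p : ℕ) : Flex O (canon p t) := by
  have hN : PT fun A : Mat => NN p A.length := by fun_prop
  have hs : Small fun A : Mat => NN p A.length := by fun_prop
  have h1 : Flex O fun A : Mat =>
      walk (fun w => t (bitEncode (w :: A))) (NN p A.length * NN p A.length) := by
    refine Flex.iterate (F := fun (A : Mat) (w : Str) =>
      if t (bitEncode ((w ++ [false]) :: A)) = true then w ++ [false] else w ++ [true])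
      (hN.mul hN) (hs.mul hs) (Flex.of_pt (PT.const _)) (Flex.ite (Orc_pre ht (by fun_prop))
        (Flex.of_pt (by fun_prop)) (Flex.of_pt (by fun_prop))) ?_
    have h2 : Small fun A : Mat => 3 * (NN p A.length * NN p A.length) := by fun_prop
    refine (PB.reindex h2 (Prod.fst : Mat × ℕ → Mat)).mono fun q => ?_
    rw [sz_str]
    refine Nat.mul_le_mul_left _ (le_trans ?_ (min_le_right q.2 _))
    generalize min q.2 _ = i
    induction i with
    | zero => simp
    | succ i ih =>
      rw [Function.iterate_succ_apply']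
      split_ifs <;> simpa using ih
  exact Orc_post (g := fun z : Mat × Str => extL (NN p z.1.length) z.2) h1
    (by unfold extL; fun_prop)

end Pool.Agent.P.MP_9e61a4_lc.Cm
end

-- part Pool.Agent.P.MP_9e61a4_lc.CmF
section

/-! The programs on lists compute the canonical form under the Sylow subgroup. -/

namespace Pool.Agent.P.MP_9e61a4_lc.Cm

open Equiv

variable {p M N : ℕ}

def vl (x : Fin M → ZMod p) : List ℕ := List.ofFn fun c => (x c).val

theorem getD_vl (x : Fin M → ZMod p) (c : Fin M) : (vl x).getD c 0 = (x c).val := by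
  simp [vl, List.getD_eq_getElem?_getD]

theorem vl_inj [NeZero p] {x y : Fin M → ZMod p} (h : vl x = vl y) : x = y := by
  funext c
  apply ZMod.val_injective
  rw [← getD_vl, ← getD_vl, h]

theorem map_range {β : Type} (f : ℕ → β) (g : Fin M → β) (h : ∀ c : Fin M, f c = g c) :
    (List.range M).map f = List.ofFn g := by
  apply List.ext_getElem
  · simp
  · intro i h1 h2
    simpa using h ⟨i, by simpa using h1⟩

theorem bits_eq (x : Fin (N * N) → ZMod p) : (vl x).map (· == 1) = bits x := by
  simp [vl, bits, List.map_ofFn, Function.comp_def]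

variable [hp : Fact p.Prime]

theorem subL_val (a b : ZMod p) : subL p a.val b.val = (a - b).val := by
  rw [subL, ← ZMod.val_natCast]
  congr 1
  push_cast [Nat.cast_sub hp.out.one_le]
  simp [sub_eq_add_neg]

theorem min_val (a : ZMod p) : min p a.val = a.val := min_eq_right (ZMod.val_lt a).le

theorem difL_vl [NeZero M] (x : Fin M → ZMod p) : difL p M (vl x) = vl (dif p M x) := by
  refine map_range _ _ fun c => ?_
  have e : (c.val + 1) % M = (c + 1 : Fin M).val := by
    rw [Fin.val_add, Fin.val_one', Nat.add_mod_mod]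
  rw [e, getD_vl, getD_vl, subL_val, min_val, dif_apply]

theorem kapL_vl [NeZero M] {j : ℕ} (hj : j ≤ M) (x : Fin M → ZMod p) :
    kapL p M j (vl x) = (kap j x).val := by
  have key : ∀ j, (difL p M)^[j] (vl x) = vl ((dif p M ^ j) x) := by
    intro j
    induction j with
    | zero => rfl
    | succ j ih => rw [Function.iterate_succ_apply', ih, difL_vl, pow_succ']; rfl
  rw [kapL, min_eq_left hj, key]
  exact getD_vl _ 0

theorem actL_vl (d : Bool) (g : Perm (Fin N)) (x : Fin (N * N) → ZMod p) :
    actL p N d (pl g) (vl x) = vl (x ∘ rho N d g) := by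
  refine map_range _ _ fun c => ?_
  have e : (if d = true then (pl g).getD (c.val % N) 0 else c.val % N) +
      N * (pl g).getD (c.val / N) 0 = (rho N d g c).val := by
    have h1 := getD_pl g c.divNat
    have h2 := getD_pl g c.modNat
    rw [Fin.coe_divNat] at h1
    rw [Fin.coe_modNat] at h2
    rw [h1, h2]
    cases d <;> simp [rho]
  rw [e, getD_vl, min_val]
  rfl

omit hp in
theorem kerLL_pl {φ : PL → ℕ} {ψ : Perm (Fin N) → ZMod p} (h : ∀ g, φ (pl g) = (ψ g).val)
    (L : List (Perm (Fin N))) :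
    kerLL p N φ (L.map pl) = ((kerL ψ L).1.map pl, pl (kerL ψ L).2) := by
  induction L with
  | nil => simp [kerLL, kerL, pl_one]
  | cons g L ih =>
    rw [List.map_cons, show kerLL p N φ (pl g :: L.map pl) =
      kerStepL p N φ (pl g) (kerLL p N φ (L.map pl)) from rfl, ih, kerL_cons, kerStepL, kerStep]
    simp only [h, ZMod.val_eq_zero, powL_pl, mulL_pl]
    split_ifs <;> rfl

variable [NeZero N]

theorem phiL_vl (d : Bool) {j : ℕ} (hj : j ≤ N * N) (x : Fin (N * N) → ZMod p)
    (g : Perm (Fin N)) : phiL p N d j (vl x) (pl g) = (phi (rho N d) j x g).val := by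
  rw [phiL, actL_vl, kapL_vl hj, kapL_vl hj, subL_val, phi]

theorem cfL_vl (d : Bool) (x : Fin (N * N) → ZMod p) : cfL p N d (vl x) = vl (cf d x) := by
  have key : ∀ l : List ℕ, (∀ j ∈ l, j ≤ N * N) →
      ∀ st : List (Perm (Fin N)) × (Fin (N * N) → ZMod p),
        l.foldl (stepL p N d) (st.1.map pl, vl st.2) =
          ((l.foldl (stepM (rho N d)) st).1.map pl, vl (l.foldl (stepM (rho N d)) st).2) := by
    intro l
    induction l with
    | nil => intro _ _; rfl
    | cons j l ih =>
      intro hl st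
      have hj := hl j (by simp)
      rw [List.foldl_cons, List.foldl_cons, ← ih fun i hi => hl i (by simp [hi])]
      congr 1
      simp only [stepL, stepM, kerLL_pl (phiL_vl d hj st.2), phiL_vl d hj, kapL_vl hj, powL_pl,
        actL_vl]
  have e : genL N = (gen N).map pl := by
    rw [genL, gen, List.map_map]
    exact List.map_congr_left fun y hy =>
      PLem_map_eq _ _ fun i => (sh_val (mem_idx.1 hy).1 i).symm
  rw [cfL, e, key _ (fun j hj => by simp at hj; omega) (gen N, x)]
  rfl

omit [NeZero N] in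
theorem pmL_pl (σ : Perm (Fin N)) : pmL N (pl σ) = vl (pm p σ) := by
  refine map_range _ _ fun c => ?_
  have h1 := getD_pl σ c.divNat
  rw [Fin.coe_divNat] at h1
  rw [h1, pm, ← Fin.coe_modNat]
  simp only [Fin.val_inj]
  split_ifs
  exacts [(ZMod.val_one p).symm, ZMod.val_zero.symm]

omit [NeZero N] hp in
theorem getD_bits (x : Fin (N * N) → ZMod p) (t : List Bool) (a b : Fin N) :
    (bits x ++ t).getD (b + N * a) false = ((x (finProdFinEquiv (a, b))).val == 1) := by
  have h := (finProdFinEquiv (a, b)).2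
  have e : (b : ℕ) + N * a = (finProdFinEquiv (a, b)).val := rfl
  rw [e, List.getD_append _ _ _ _ (by simpa [bits] using h)]
  simp [bits, List.getD_eq_getElem?_getD, -finProdFinEquiv_apply_val]

omit [NeZero N] in
theorem sigL_bits (σ : Perm (Fin N)) (t : List Bool) : sigL N (bits (pm p σ) ++ t) = pl σ := by
  refine PLem_map_eq _ _ fun a => ?_
  have key : ∀ b : Fin N, (bits (pm p σ) ++ t).getD (b + N * a) false = true ↔ σ a = b := by
    intro b
    rw [getD_bits, pm_apply]
    split_ifs with c <;> simp [c, ZMod.val_one]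
  apply PLem_headD
  · exact List.mem_filter.2 ⟨List.mem_range.2 (σ a).2, (key _).2 rfl⟩
  · intro b hb
    rw [List.mem_filter, List.mem_range] at hb
    rw [(key ⟨b, hb.1⟩).1 hb.2]

omit hp in
theorem sigL_perm {y : List Bool} (h : ∀ b : Fin N, b.val ∈ sigL N y) :
    ∃ σ : Perm (Fin N), sigL N y = pl σ := by
  have h1 : ∀ a, ((List.range N).filter fun b => y.getD (b + N * a) false).headD 0 < N := by
    intro a
    rcases e : (List.range N).filter fun b => y.getD (b + N * a) false with _ | ⟨b, l⟩
    · exact Nat.pos_of_neZero N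
    · have : b ∈ (List.range N).filter fun b => y.getD (b + N * a) false := by
        rw [e]
        exact List.mem_cons_self
      exact List.mem_range.1 (List.mem_filter.1 this).1
  let f : Fin N → Fin N := fun a => ⟨_, h1 a⟩
  have h2 : Function.Surjective f := fun b => by
    obtain ⟨a, ha, e⟩ := List.mem_map.1 (h b)
    exact ⟨⟨a, List.mem_range.1 ha⟩, Fin.ext e⟩
  exact ⟨Equiv.ofBijective f h2.bijective_of_finite, PLem_map_eq _ _ fun _ => rfl⟩

/-- The witness attached to a permutation and a number. -/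
def wit (p l : ℕ) (z : Perm (Fin N) × ℕ) : List Bool :=
  bits (pm p z.1) ++ (List.replicate z.2 true ++ List.replicate (l - N * N - z.2) false)

theorem chk_iff {m : ℕ} {A : Mat} {x : Fin (N * N) → ZMod p} (hx : xvL N A = vl x)
    (w y : List Bool) : chk p m N A w y = true ↔ ∃ z : Perm (Fin N) × ℕ,
      (Rep p z.1 ∧ w <+: bits (cf true (x ∘ rho N true z.1))) ∧ z.2 < m ∧
        y = wit p y.length z := by
  simp only [chk, Bool.and_eq_true, List.all_eq_true, List.mem_range, decide_eq_true_eq,
    beq_iff_eq, hx]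
  constructor
  · rintro ⟨⟨⟨⟨h1, h2⟩, h3⟩, h4⟩, h5⟩
    obtain ⟨σ, hσ⟩ := sigL_perm (y := y) fun b => h1 b b.2
    rw [hσ, pmL_pl (p := p)] at h3 h4
    rw [hσ, actL_vl, cfL_vl, bits_eq] at h5
    rw [cfL_vl] at h4
    rw [bits_eq] at h3
    exact ⟨(σ, _), ⟨vl_inj h4, List.prefix_iff_eq_take.2 h5.symm⟩, h2, h3⟩
  · rintro ⟨⟨σ, i⟩, ⟨h1, h2⟩, h3, h4⟩
    have h5 : sigL N y = pl σ := by rw [h4]; exact sigL_bits _ _
    have h6 : ((y.drop (N * N)).filter fun b => b).length = i := by
      rw [h4, wit, List.drop_left' (by simp [bits])]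
      simp
    rw [h5, h6, pmL_pl (p := p), actL_vl, cfL_vl, cfL_vl, bits_eq, bits_eq]
    refine ⟨⟨⟨⟨fun b hb => ?_, h3⟩, h4⟩, congrArg vl h1⟩, (List.prefix_iff_eq_take.1 h2).symm⟩
    exact List.mem_ofFn.2 ⟨σ⁻¹ ⟨b, hb⟩, by simp⟩

theorem chk_count {m l : ℕ} {A : Mat} {x : Fin (N * N) → ZMod p} (hx : xvL N A = vl x)
    (hl : N * N + m ≤ l) (w : List Bool) :
    {y : List Bool | y.length = l ∧ chk p m N A w y = true}.ncard = cnt x w * m := by
  have h1 : {y : List Bool | y.length = l ∧ chk p m N A w y = true} = wit p l ''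
      ({σ | Rep p σ ∧ w <+: bits (cf true (x ∘ rho N true σ))} ×ˢ Set.Iio m) := by
    ext y
    simp only [Set.mem_ofPred_eq, chk_iff hx, Set.mem_image, Set.mem_prod, Set.mem_Iio]
    constructor
    · rintro ⟨rfl, z, h1, h2, h3⟩
      exact ⟨z, ⟨h1, h2⟩, h3.symm⟩
    · rintro ⟨z, ⟨h1, h2⟩, rfl⟩
      have e : (wit p l z).length = l := by simp [wit, bits]; omega
      exact ⟨e, z, h1, h2, by rw [e]⟩
  rw [h1, Set.InjOn.ncard_image, Set.ncard_prod, cnt]
  · congr 1
    rw [← Finset.coe_range, Set.ncard_coe_finset, Finset.card_range]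
  · rintro ⟨σ, i⟩ - ⟨τ, j⟩ - h
    have h2 := congrArg (sigL N) h
    have h3 := congrArg (fun y : List Bool => ((y.drop (N * N)).filter fun b => b).length) h
    simp only [wit] at h2 h3
    rw [sigL_bits, sigL_bits] at h2
    rw [List.drop_left' (by simp [bits]), List.drop_left' (by simp [bits])] at h3
    exact Prod.ext (pl_inj h2) (by simpa using h3)

end Pool.Agent.P.MP_9e61a4_lc.Cm
end

-- part Pool.Agent.P.MP_9e61a4_lc.CmG
section

/-! Canonization with a modular counting oracle. -/

namespace Pool.Agent.P.MP_9e61a4_lc.Cm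

open Equiv N487b59b3 N68a2faeb Pool.Agent.Lib.PolyTime

variable {p n N : ℕ}

/-- The padded graph with loops at the true vertices. -/
def Ed (h : n ≤ N) (G : SimpleGraph (Fin n)) (a b : Fin N) : Prop :=
  ∃ u v : Fin n, a = Fin.castLE h u ∧ b = Fin.castLE h v ∧ (u = v ∨ G.Adj u v)

theorem Ed_cast (h : n ≤ N) (G : SimpleGraph (Fin n)) (u v : Fin n) :
    Ed h G (Fin.castLE h u) (Fin.castLE h v) ↔ u = v ∨ G.Adj u v := by
  refine ⟨?_, fun e => ⟨u, v, rfl, rfl, e⟩⟩
  rintro ⟨u', v', h1, h2, h3⟩
  rwa [Fin.castLE_injective h h1, Fin.castLE_injective h h2]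

open Classical in
noncomputable def xG (p : ℕ) (h : n ≤ N) (G : SimpleGraph (Fin n)) : Fin (N * N) → ZMod p :=
  fun c => if Ed h G c.divNat c.modNat then 1 else 0

open Classical in
theorem xG_apply (h : n ≤ N) (G : SimpleGraph (Fin n)) (a b : Fin N) :
    xG p h G (finProdFinEquiv (a, b)) = if Ed h G a b then 1 else 0 := by
  have e := finProdFinEquiv.symm_apply_apply (a, b)
  rw [finProdFinEquiv_symm_apply, Prod.mk.injEq] at e
  rw [xG, e.1, e.2]

theorem xG_iso (h : n ≤ N) {G H : SimpleGraph (Fin n)} (φ : H ≃g G) :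
    ∃ τ : Perm (Fin N), xG p h H = xG p h G ∘ rho N true τ := by
  let τ := Perm.viaEmbedding φ.toEquiv (Fin.castLEEmb h)
  have h1 : ∀ u, τ (Fin.castLE h u) = Fin.castLE h (φ u) := fun u =>
    Perm.viaEmbedding_apply φ.toEquiv (Fin.castLEEmb h) u
  refine ⟨τ, funext fun c => ?_⟩
  obtain ⟨⟨a, b⟩, rfl⟩ := finProdFinEquiv.surjective c
  rw [Function.comp_apply, rho_apply, xG_apply, xG_apply]
  classical
  refine if_congr ⟨?_, ?_⟩ rfl rfl
  · rintro ⟨u, v, rfl, rfl, e⟩
    exact ⟨φ u, φ v, h1 u, h1 v, e.imp (congrArg φ) φ.map_adj_iff.2⟩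
  · rintro ⟨u, v, e1, e2, e⟩
    obtain ⟨u, rfl⟩ := φ.surjective u
    obtain ⟨v, rfl⟩ := φ.surjective v
    exact ⟨u, v, τ.injective (e1.trans (h1 u).symm), τ.injective (e2.trans (h1 v).symm),
      e.imp (fun e => φ.injective e) φ.map_adj_iff.1⟩

variable [hp : Fact p.Prime]

theorem xvL_adj (h : n ≤ N) (G : SimpleGraph (Fin n)) : xvL N (adjMat G) = vl (xG p h G) := by
  refine map_range _ _ fun c => ?_
  rw [xG, ← Fin.coe_divNat, ← Fin.coe_modNat, length_adjMat]
  generalize c.divNat = a
  generalize c.modNat = b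
  by_cases e : Ed h G a b
  · rw [if_pos e, ZMod.val_one]
    obtain ⟨u, v, rfl, rfl, rfl | e⟩ := e
    · simp
    · rw [Fin.val_castLE, Fin.val_castLE, if_neg (fun e' => e.ne (Fin.ext e'))]
      simp [(mget_adjMat G u v).2 e]
  · rw [if_neg e, ZMod.val_zero]
    split_ifs with c1 c2
    · exact absurd ⟨⟨a, c2⟩, ⟨a, c2⟩, rfl, Fin.ext c1.symm, Or.inl rfl⟩ e
    · rfl
    · rcases c : mget (adjMat G) a b with _ | _
      · rfl
      · refine absurd ?_ e
        have ha : a.val < n := by
          by_contra ha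
          rw [mget, List.getD_eq_default (adjMat G) _ (by rw [length_adjMat]; omega)] at c
          simp at c
        have hb : b.val < n := by
          by_contra hb
          rw [mget, List.getD_eq_default _ false] at c
          · simp at c
          · simp [adjMat, List.getD_eq_getElem?_getD, ha]
            omega
        exact ⟨⟨a, ha⟩, ⟨b, hb⟩, rfl, rfl, Or.inr ((mget_adjMat G ⟨a, ha⟩ ⟨b, hb⟩).1 c)⟩

theorem extL_spec (h : n ≤ N) (G : SimpleGraph (Fin n)) (π : Perm (Fin N)) :
    ∃ H : SimpleGraph (Fin n), extL N (bits (xG p h G ∘ rho N true π)) = adjMat H ∧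
      Nonempty (G ≃g H) := by
  have key : ∀ a b : Fin N, (bits (xG p h G ∘ rho N true π)).getD (b + N * a) false = true ↔
      Ed h G (π a) (π b) := fun a b => by
    have := getD_bits (xG p h G ∘ rho N true π) [] a b
    rw [List.append_nil] at this
    rw [this, Function.comp_apply, rho_apply, xG_apply, if_pos rfl]
    split_ifs with c <;> simp [c, ZMod.val_one]
  obtain ⟨m, e, he⟩ := GadB_enum ((List.range N).filter fun a =>
      (bits (xG p h G ∘ rho N true π)).getD (a + N * a) false) (List.nodup_range.filter _)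
    (fun u : Fin n => (π⁻¹ (Fin.castLE h u) : ℕ))
    (Fin.val_injective.comp (π⁻¹.injective.comp (Fin.castLE_injective h))) (by
      intro b
      rw [List.mem_filter, List.mem_range]
      constructor
      · rintro ⟨h1, h2⟩
        obtain ⟨u, -, hu, -⟩ := (key ⟨b, h1⟩ ⟨b, h1⟩).1 h2
        exact ⟨u, by simp [← hu]⟩
      · rintro ⟨u, rfl⟩
        exact ⟨Fin.is_lt _, (key _ _).2 ⟨u, u, by simp, by simp, Or.inl rfl⟩⟩)
  obtain rfl : m = n := Fin.equiv_iff_eq.1 ⟨e⟩
  refine ⟨G.comap e, ?_, ⟨(SimpleGraph.Iso.comap e G).symm⟩⟩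
  rw [extL, he]
  refine GadB_mat _ (fun a b => !(a == b) &&
    (bits (xG p h G ∘ rho N true π)).getD (b + N * a) false) _ fun i j => ?_
  have hπ : ∀ a, π (π⁻¹ a) = a := fun a => by simp
  rw [Bool.and_eq_true, key, hπ, hπ, Ed_cast]
  simp only [Bool.not_eq_true', beq_eq_false_iff_ne, ne_eq, Fin.val_inj,
    EmbeddingLike.apply_eq_iff_eq, (Fin.castLE_injective h).eq_iff, SimpleGraph.comap_adj]
  exact ⟨fun c => c.2.resolve_left c.1, fun c => ⟨fun e' => c.ne (congrArg e e'), Or.inr c⟩⟩

open Classical in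
/-- The oracle. -/
noncomputable def orc (p m : ℕ) (s : Str) : Bool :=
  decide (¬p * m ∣ {y : Str | y.length = (p * s.length + 1) * (p * s.length + 1) + m ∧
    rel p m (s, y) = true}.ncard)

omit hp in
theorem orc_mem (p m : ℕ) : orc p m ∈ ModP (p * m) :=
  ⟨(Polynomial.C p * Polynomial.X + 1) * (Polynomial.C p * Polynomial.X + 1) + Polynomial.C m,
    rel p m, (pt_rel p m).isPolyTime, fun x => by simp [orc]⟩

theorem canon_spec {m : ℕ} (hm : 0 < m) : IsCanon (fun _ _ => True) (canon p (orc p m)) := by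
  intro n G _
  obtain ⟨⟨e, hN⟩, h⟩ := NN_spec hp.out.two_le n
  have : NeZero (NN p n) := ⟨hN ▸ pow_ne_zero _ hp.out.ne_zero⟩
  have key : ∀ (G : SimpleGraph (Fin n)) (w : Str),
      orc p m (bitEncode (w :: adjMat G)) = true ↔ ¬p ∣ cnt (xG p h G) w := fun G w => by
    have h1 : (blocks (bitEncode (w :: adjMat G))).map decStr = w :: adjMat G := by
      rw [blocks_enc, List.map_map]
      conv_rhs => rw [← List.map_id (w :: adjMat G)]
      exact List.map_congr_left fun r _ => decStr_enc r
    have h2 : NN p n ≤ p * (bitEncode (w :: adjMat G)).length + 1 := by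
      have h3 := length_le_sz (w :: adjMat G)
      rw [List.length_cons, length_adjMat, sz] at h3
      exact (NN_le p n n).trans (Nat.add_le_add_right (Nat.mul_le_mul_left _ (by omega)) _)
    simp only [orc, rel, h1, List.tail_cons, List.headD_cons, length_adjMat, decide_eq_true_eq]
    rw [chk_count (xvL_adj h G) (Nat.add_le_add_right (Nat.mul_le_mul h2 h2) _),
      Nat.mul_dvd_mul_iff_right hm]
  refine ⟨?_, fun H ⟨φ⟩ => ?_⟩
  · obtain ⟨π, hπ⟩ := walk_spec hN (xG p h G) (key G)
    rw [canon, length_adjMat, hπ]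
    exact extL_spec h G π
  · obtain ⟨τ, hτ⟩ := xG_iso (p := p) h φ.symm
    rw [canon, canon, length_adjMat, length_adjMat]
    congr 2
    funext w
    rw [Bool.eq_iff_iff, key, key, hτ, cnt_comp hN]

omit hp in
theorem main_mod {k : ℕ} (hk : 2 ≤ k) : ∃ L ∈ ModP k, PolyTimeIn L L ∧
    ∀ O, PolyTimeIn O L → ∃ c, PolyTimeIn O c ∧ IsCanon (fun _ _ => True) c := by
  obtain ⟨p, hp, m, rfl⟩ := Nat.exists_prime_and_dvd (n := k) (by omega)
  have : Fact p.Prime := ⟨hp⟩
  exact ⟨orc p m, orc_mem p m, (Flex.ask PT.id).polyTimeIn, fun O h =>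
    ⟨_, (flex_canon (Flex.of_polyTimeIn h) p).polyTimeIn,
      canon_spec (Nat.pos_of_ne_zero (by rintro rfl; omega))⟩⟩

end Pool.Agent.P.MP_9e61a4_lc.Cm
end
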