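import Pool.Agent.K.MP_9e61a4_lc.C1

-- part Pool.Agent.P.MP_9e61a4_lc.GadA
section

/-! Rigidity of the gadget graph. -/

namespace Pool.Agent.P.MP_9e61a4_lc

open Equiv

variable {n j k : ℕ}

theorem GadA_o (G : SimpleGraph (Fin n)) (Rs : List Mat) (ms : List ℕ) (x : Vx n j k) :
    (GW G j k Rs ms).Adj Vx.o x ↔ x = Vx.s := by
  cases x <;> simp [GW, Half]

theorem GadA_s (G : SimpleGraph (Fin n)) (Rs : List Mat) (ms : List ℕ) (x : Vx n j k) :
    (GW G j k Rs ms).Adj x Vx.s ↔ x = Vx.o ∨ ∃ i, x = Vx.q i := by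
  cases x <;> simp [GW, Half]

theorem GadA_q {G : SimpleGraph (Fin n)} {Rs : List Mat} {ms : List ℕ} {x : Vx n j k}
    {i : Fin (j + k + 5)} (h : (GW G j k Rs ms).Adj x (Vx.q i)) :
    x = Vx.s ∨ (∃ i', x = Vx.q i' ∧ ((i : ℕ) = i' + 1 ∨ (i' : ℕ) = i + 1)) ∨
      (x = Vx.e ∧ j + k + 3 ≤ (i : ℕ)) ∨
      (∃ u, x = Vx.v u ∧ ((i : ℕ) = 1 ∨ j + 3 ≤ (i : ℕ) ∧ (i : ℕ) < j + 3 + k)) ∨
      (∃ u, x = Vx.w u ∧ (i : ℕ) = 2) ∨ ∃ r a, x = Vx.p r a ∧ (i : ℕ) = r + 3 := by
  cases x with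
  | v u =>
    rcases h with (h | h) | h
    · exact Or.inr (Or.inr (Or.inr (Or.inl ⟨u, rfl, Or.inl h⟩)))
    · exact Or.inr (Or.inr (Or.inr (Or.inl ⟨u, rfl, Or.inr ⟨h.1, h.2.1⟩⟩)))
    · exact h.elim
  | w u => exact Or.inr (Or.inr (Or.inr (Or.inr (Or.inl ⟨u, rfl, h.resolve_right id⟩))))
  | p r a => exact Or.inr (Or.inr (Or.inr (Or.inr (Or.inr ⟨r, a, rfl, h.resolve_right id⟩))))
  | q i' => exact Or.inr (Or.inl ⟨i', rfl, h⟩)
  | s => exact Or.inl rfl
  | o => exact (h.elim id id).elim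
  | e => exact Or.inr (Or.inr (Or.inl ⟨rfl, h.resolve_left id⟩))

theorem GadA_one {G : SimpleGraph (Fin n)} {Rs : List Mat} {ms : List ℕ} {x y : Vx n j k}
    (h : ∀ z, (GW G j k Rs ms).Adj x z → z = y) : x = Vx.o := by
  cases x with
  | v u =>
    have h1 := h (Vx.w u) (Or.inl rfl)
    have h2 := h (Vx.q ⟨1, by omega⟩) (Or.inl (Or.inl rfl))
    cases h1.trans h2.symm
  | w u =>
    have h1 := h (Vx.v u) (Or.inr rfl)
    have h2 := h (Vx.q ⟨2, by omega⟩) (Or.inl rfl)
    cases h1.trans h2.symm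
  | p r a =>
    have h1 := h (Vx.v a.1) (Or.inr rfl)
    have h2 := h (Vx.w a.2) (Or.inr rfl)
    cases h1.trans h2.symm
  | q i =>
    have h1 := h Vx.s (Or.inl trivial)
    by_cases hi : (i : ℕ) + 1 < j + k + 5
    · have h2 := h (Vx.q ⟨i + 1, hi⟩) (Or.inl rfl)
      cases h1.trans h2.symm
    · have h2 := h Vx.e (Or.inl (show j + k + 3 ≤ (i : ℕ) by omega))
      cases h1.trans h2.symm
  | s =>
    have h1 := h Vx.o (Or.inl trivial)
    have h2 := h (Vx.q ⟨0, by omega⟩) (Or.inr trivial)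
    cases h1.trans h2.symm
  | o => rfl
  | e =>
    have h1 := h (Vx.q ⟨j + k + 3, by omega⟩) (Or.inr (le_refl (j + k + 3)))
    have h2 := h (Vx.q ⟨j + k + 4, by omega⟩) (Or.inr (Nat.le_succ (j + k + 3)))
    have h3 := h1.trans h2.symm
    simp at h3

theorem GadA_q0 (G : SimpleGraph (Fin n)) (Rs : List Mat) (ms : List ℕ) (z : Vx n j k)
    (h : (GW G j k Rs ms).Adj (Vx.q ⟨0, by omega⟩) z) : z = Vx.s ∨ z = Vx.q ⟨1, by omega⟩ := by
  rcases GadA_q h.symm with e | ⟨i, e', e⟩ | ⟨-, e⟩ | ⟨_, -, e⟩ | ⟨_, -, e⟩ | ⟨_, _, -, e⟩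
  · exact Or.inl e
  · refine Or.inr (e'.trans (congrArg Vx.q (Fin.ext ?_)))
    simp only at e ⊢
    omega
  all_goals (simp only at e; omega)

theorem GadA_two {G : SimpleGraph (Fin n)} {Rs : List Mat} {ms : List ℕ} {x r : Vx n j k}
    (h1 : (GW G j k Rs ms).Adj x Vx.s) (h2 : (GW G j k Rs ms).Adj x r) (h3 : r ≠ Vx.s)
    (h : ∀ z, (GW G j k Rs ms).Adj x z → z = Vx.s ∨ z = r) :
    x = Vx.q ⟨0, by omega⟩ ∧ r = Vx.q ⟨1, by omega⟩ := by
  rcases (GadA_s G Rs ms x).1 h1 with rfl | ⟨i, rfl⟩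
  · exact absurd ((GadA_o G Rs ms r).1 h2) h3
  have hi : (i : ℕ) = 0 := by
    by_contra h0
    have a1 := (h (Vx.q ⟨i - 1, by omega⟩) (Or.inr (show (i : ℕ) = i - 1 + 1 by omega))).resolve_left
      (by simp)
    by_cases hi : (i : ℕ) + 1 < j + k + 5
    · have a2 := (h (Vx.q ⟨i + 1, hi⟩) (Or.inl rfl)).resolve_left (by simp)
      have a3 := a1.trans a2.symm
      simp only [Vx.q.injEq, Fin.mk.injEq] at a3
      omega
    · have a2 := (h Vx.e (Or.inl (show j + k + 3 ≤ (i : ℕ) by omega))).resolve_left (by simp)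
      cases a1.trans a2.symm
  obtain rfl : i = ⟨0, Nat.succ_pos _⟩ := Fin.ext hi
  exact ⟨rfl, (GadA_q0 G Rs ms r h2).resolve_left h3⟩

theorem GadA_symm (R : Mat) (a b : Fin n × Fin n) : srel R a b ↔ srel R b a := by
  simp only [srel, srelB, Bool.or_eq_true, beq_iff_eq]
  constructor <;> rintro ((h | h) | h) <;> simp [h]

theorem GadA_refl (R : Mat) (a : Fin n × Fin n) : srel R a a := by
  simp [srel, srelB]

theorem GadA_pp (G : SimpleGraph (Fin n)) (Rs : List Mat) (ms : List ℕ) (r : Fin j)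
    (a b : Fin n × Fin n) : (GW G j k Rs ms).Adj (Vx.p r a) (Vx.p r b) ↔
      a ≠ b ∧ srel (Rs.getD r []) a b :=
  ⟨fun h => h.elim (fun h => h.2) fun h => ⟨h.2.1.symm, (GadA_symm _ _ _).1 h.2.2⟩,
    fun h => Or.inl ⟨rfl, h⟩⟩

theorem isV_GW (G : SimpleGraph (Fin n)) (Rs : List Mat) (ms : List ℕ) (x : Vx n j k) :
    IsV (GW G j k Rs ms) x ↔ ∃ u, x = Vx.v u := by
  constructor
  · rintro ⟨a, b, c, d, h1, h2, h3, h4, h5, h6, h7, h8, h9⟩
    obtain rfl := GadA_one h2
    obtain rfl := (GadA_o G Rs ms b).1 h1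
    obtain ⟨-, rfl⟩ := GadA_two h3 h4 h5 h6
    rcases GadA_q h7 with h | ⟨i, rfl, -⟩ | ⟨-, h⟩ | ⟨u, h, -⟩ | ⟨_, -, h⟩ | ⟨_, _, -, h⟩
    · exact absurd h h9
    · exact absurd (Or.inl trivial) h8
    · simp only at h; omega
    · exact ⟨u, h⟩
    all_goals (simp only at h; omega)
  · rintro ⟨u, rfl⟩
    exact ⟨Vx.o, Vx.s, Vx.q ⟨0, by omega⟩, Vx.q ⟨1, by omega⟩, Or.inr trivial,
      fun z => (GadA_o G Rs ms z).1, Or.inl trivial, Or.inl rfl, by simp, GadA_q0 G Rs ms,
      Or.inl (Or.inl rfl), fun h => h.elim id id, by simp⟩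

theorem adj_v (G : SimpleGraph (Fin n)) (Rs : List Mat) (ms : List ℕ) (u v : Fin n) :
    (GW G j k Rs ms).Adj (Vx.v u) (Vx.v v) ↔ G.Adj u v := by
  exact ⟨fun h => h.elim id fun h => G.adj_symm h, Or.inl⟩

/-- The isomorphisms between two gadget graphs are the lifts of the isomorphisms of the decorated
graphs that respect the marks. -/
theorem iso_GW (G₁ G₂ : SimpleGraph (Fin n)) {Rs₁ Rs₂ : List Mat} (ms₁ ms₂ : List ℕ)
    (h₁ : Rs₁.length = j) (h₂ : Rs₂.length = j) (φ : Perm (Vx n j k)) :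
    (∀ x y, (GW G₂ j k Rs₂ ms₂).Adj (φ x) (φ y) ↔ (GW G₁ j k Rs₁ ms₁).Adj x y) ↔
      ∃ π, φ = liftV j k π ∧ Maps G₁ Rs₁ G₂ Rs₂ π ∧
        ∀ i < k, ∀ u : Fin n, ms₂.getD i 0 = π u ↔ ms₁.getD i 0 = u := by
  constructor
  · intro h
    have fo : φ Vx.o = Vx.o := GadA_one (y := φ Vx.s) fun z hz => by
      obtain ⟨z, rfl⟩ := φ.surjective z
      rw [(GadA_o G₁ Rs₁ ms₁ z).1 ((h _ _).1 hz)]
    have fs : φ Vx.s = Vx.s :=
      (GadA_o G₂ Rs₂ ms₂ _).1 (fo ▸ (h Vx.o Vx.s).2 (Or.inr trivial))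
    have as : ∀ i, (GW G₂ j k Rs₂ ms₂).Adj (φ (Vx.q i)) Vx.s := fun i =>
      fs ▸ (h (Vx.q i) Vx.s).2 (Or.inl trivial)
    have fix : ∀ {x y}, φ y = y → φ x = y → x = y := fun hy hx => φ.injective (hx.trans hy.symm)
    obtain ⟨f0, f1⟩ := GadA_two (r := φ (Vx.q ⟨1, by omega⟩)) (as ⟨0, by omega⟩)
      ((h _ _).2 (Or.inl rfl)) (fun e => by cases fix fs e) fun z hz => by
        obtain ⟨z, rfl⟩ := φ.surjective z
        rcases GadA_q0 G₁ Rs₁ ms₁ z ((h _ _).1 hz) with rfl | rfl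
        · exact Or.inl fs
        · exact Or.inr rfl
    have fq' : ∀ m, ∀ i : Fin (j + k + 5), (i : ℕ) = m → φ (Vx.q i) = Vx.q i := by
      intro m
      induction m using Nat.strong_induction_on with
      | _ m ih =>
        intro i hi
        by_cases h0 : m = 0
        · obtain rfl : i = ⟨0, Nat.succ_pos _⟩ := Fin.ext (hi.trans h0)
          exact f0
        have a1 := ih (m - 1) (by omega) ⟨m - 1, by omega⟩ rfl
        have a2 := (h (Vx.q i) (Vx.q ⟨m - 1, by omega⟩)).2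
          (Or.inr (show (i : ℕ) = m - 1 + 1 by omega))
        rw [a1] at a2
        rcases (GadA_s G₂ Rs₂ ms₂ _).1 (as i) with e | ⟨i', e⟩
        · cases fix fo e
        rw [e] at a2
        rcases a2 with a2 | a2
        · have a3 : m - 1 = (i' : ℕ) + 1 := a2
          have a4 := fix (ih i' (by omega) i' rfl) e
          rw [e, a4]
        · have a3 : (i' : ℕ) = m - 1 + 1 := a2
          rw [e]
          exact congrArg Vx.q (Fin.ext (by omega))
    have fq : ∀ i, φ (Vx.q i) = Vx.q i := fun i => fq' _ i rfl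
    have aq : ∀ x i, (GW G₁ j k Rs₁ ms₁).Adj x (Vx.q i) →
        (GW G₂ j k Rs₂ ms₂).Adj (φ x) (Vx.q i) := fun x i hx => fq i ▸ (h x (Vx.q i)).2 hx
    have fe : φ Vx.e = Vx.e := by
      rcases GadA_q (aq Vx.e ⟨j + k + 4, by omega⟩ (Or.inr (Nat.le_succ (j + k + 3)))) with
        e | ⟨i, e, -⟩ | ⟨e, -⟩ | ⟨_, -, e⟩ | ⟨_, -, e⟩ | ⟨r, _, -, e⟩
      · cases fix fs e
      · cases fix (fq i) e
      · exact e
      · simp only at e; omega
      · simp only at e; omega
      · have := r.2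
        simp only at e; omega
    have fv : ∀ u, ∃ u', φ (Vx.v u) = Vx.v u' := fun u => by
      rcases GadA_q (aq (Vx.v u) ⟨1, by omega⟩ (Or.inl (Or.inl rfl))) with
        e | ⟨i, e, -⟩ | ⟨e, -⟩ | ⟨u', e, -⟩ | ⟨_, -, e⟩ | ⟨_, _, -, e⟩
      · cases fix fs e
      · cases fix (fq i) e
      · cases fix fe e
      · exact ⟨u', e⟩
      all_goals (simp only at e; omega)
    choose f hf using fv
    have inj : Function.Injective f := fun a b e =>
      Vx.v.inj (φ.injective ((hf a).trans ((congrArg Vx.v e).trans (hf b).symm)))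
    obtain ⟨π, hπ⟩ : ∃ π : Perm (Fin n), ∀ u, φ (Vx.v u) = Vx.v (π u) :=
      ⟨Equiv.ofBijective f (Finite.injective_iff_bijective.1 inj), hf⟩
    have fw : ∀ u, φ (Vx.w u) = Vx.w (π u) := fun u => by
      have a := (h (Vx.v u) (Vx.w u)).2 (Or.inl rfl)
      rcases GadA_q (aq (Vx.w u) ⟨2, by omega⟩ (Or.inl rfl)) with
        e | ⟨i, e, -⟩ | ⟨e, -⟩ | ⟨_, -, e⟩ | ⟨u', e, -⟩ | ⟨_, _, -, e⟩
      · cases fix fs e
      · cases fix (fq i) e
      · cases fix fe e
      · simp only at e; omega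
      · rw [hπ, e] at a
        rw [e]
        exact congrArg Vx.w (a.resolve_right id).symm
      · simp only at e; omega
    have fp : ∀ r a, φ (Vx.p r a) = Vx.p r (π • a) := fun r a => by
      have a1 := (h (Vx.v a.1) (Vx.p r a)).2 (Or.inl rfl)
      have a2 := (h (Vx.w a.2) (Vx.p r a)).2 (Or.inl rfl)
      have hr := r.2
      rcases GadA_q (aq (Vx.p r a) ⟨r + 3, by omega⟩ (Or.inl rfl)) with
        e | ⟨i, e, -⟩ | ⟨e, -⟩ | ⟨_, -, e⟩ | ⟨_, -, e⟩ | ⟨r', b, e, e'⟩
      · cases fix fs e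
      · cases fix (fq i) e
      · cases fix fe e
      · simp only at e; omega
      · simp only at e; omega
      · rw [hπ, e] at a1
        rw [fw, e] at a2
        obtain rfl : r = r' := Fin.ext (by simp only at e'; omega)
        rw [e]
        exact congrArg (Vx.p r) (Prod.ext (a1.resolve_right id).symm (a2.resolve_right id).symm)
    refine ⟨π, Equiv.ext fun x => ?_, ⟨fun u v => ?_, h₁.trans h₂.symm, fun r hr a b => ?_⟩,
      fun i hi u => ?_⟩
    · cases x
      exacts [hπ _, fw _, fp _ _, fq _, fs, fo, fe]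
    · have := h (Vx.v u) (Vx.v v)
      rwa [hπ, hπ, adj_v, adj_v] at this
    · by_cases e : a = b
      · subst e
        exact iff_of_true (GadA_refl _ _) (GadA_refl _ _)
      · have := h (Vx.p ⟨r, h₁ ▸ hr⟩ a) (Vx.p ⟨r, h₁ ▸ hr⟩ b)
        rw [fp, fp, GadA_pp, GadA_pp] at this
        simpa only [ne_eq, smul_left_cancel_iff, e, not_false_eq_true, true_and] using this
    · have := h (Vx.v u) (Vx.q ⟨j + 3 + i, by omega⟩)
      rw [hπ, fq] at this
      have e1 : j + 3 + i ≠ 1 := by omega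
      simpa only [GW, Half, or_false, e1, false_or, Nat.le_add_right, true_and,
        Nat.add_lt_add_iff_left, hi, Nat.add_sub_cancel_left] using this
  · rintro ⟨π, rfl, hM, hm⟩
    have key : ∀ x y, Half G₂ j k Rs₂ ms₂ (liftF j k π x) (liftF j k π y) ↔
        Half G₁ j k Rs₁ ms₁ x y := by
      intro x y
      cases x <;> cases y <;> simp only [Half, liftF]
      case v.v u u' => exact hM.1 u u'
      case v.w u u' => exact π.apply_eq_iff_eq
      case v.p u r a => exact π.apply_eq_iff_eq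
      case w.p u r a => exact π.apply_eq_iff_eq
      case p.p r a r' b =>
        rw [hM.2.2 r (h₁ ▸ r.2), ne_eq, smul_left_cancel_iff]
      case v.q u i =>
        exact or_congr_right (and_congr_right fun a => and_congr_right fun b =>
          hm _ (by omega) u)
    exact fun x y => or_congr (key x y) (key y x)

theorem liftV_injective : Function.Injective (liftV j k : Perm (Fin n) → Perm (Vx n j k)) := by
  intro π ρ h
  ext u
  have e : Vx.v (π u) = Vx.v (ρ u) := congrArg (fun f : Perm (Vx n j k) => f (Vx.v u)) h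
  rw [Vx.v.inj e]

end Pool.Agent.P.MP_9e61a4_lc
end

-- part Pool.Agent.P.MP_9e61a4_lc.Ext
section

/-! Automorphisms found with the isomorphism test. -/

namespace Pool.Agent.P.MP_9e61a4_lc

open Equiv

variable {n : ℕ} {t : Mat × Mat → Bool}

theorem Ext_comap {V : Type} {m : ℕ} (e : Fin m ≃ V) (Z₁ Z₂ : SimpleGraph V) :
    Nonempty (Z₁.comap e ≃g Z₂.comap e) ↔
      ∃ φ : Perm V, ∀ x y, Z₂.Adj (φ x) (φ y) ↔ Z₁.Adj x y := by
  constructor
  · rintro ⟨ψ⟩
    refine ⟨e.symm.trans (ψ.toEquiv.trans e), fun x y => ?_⟩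
    have := ψ.map_rel_iff (a := e.symm x) (b := e.symm y)
    simpa using this
  · rintro ⟨φ, hφ⟩
    refine ⟨⟨e.trans (φ.trans e.symm), fun {a b} => ?_⟩⟩
    simpa using hφ (e a) (e b)

theorem Ext_marks {σ : List (ℕ × ℕ)} (hσ : ∀ q ∈ σ, q.1 < n ∧ q.2 < n) (π : Perm (Fin n)) :
    (∀ i < σ.length, ∀ u : Fin n, (σ.map Prod.snd).getD i 0 = π u ↔
      (σ.map Prod.fst).getD i 0 = u) ↔ Extd π σ := by
  constructor
  · intro h q hq x hx
    obtain ⟨i, hi, rfl⟩ := List.getElem_of_mem hq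
    have := (h i hi x).2 (by simp [List.getD_eq_getElem?_getD, hi, hx])
    simpa [List.getD_eq_getElem?_getD, hi] using this.symm
  · intro h i hi u
    have hq : σ[i] ∈ σ := List.getElem_mem hi
    have h0 := h _ hq ⟨σ[i].1, (hσ _ hq).1⟩ rfl
    have e1 : (σ.map Prod.snd).getD i 0 = σ[i].2 := by simp [List.getD_eq_getElem?_getD, hi]
    have e2 : (σ.map Prod.fst).getD i 0 = σ[i].1 := by simp [List.getD_eq_getElem?_getD, hi]
    rw [e1, e2, ← h0]
    constructor
    · intro h1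
      have := π.injective (Fin.ext h1)
      rw [← this]
    · intro h1
      have : (⟨σ[i].1, (hσ _ hq).1⟩ : Fin n) = u := Fin.ext h1
      rw [this]

theorem okB_iff (ht : Tests t) (G : SimpleGraph (Fin n)) (Rs : List Mat) {σ : List (ℕ × ℕ)}
    (hσ : ∀ q ∈ σ, q.1 < n ∧ q.2 < n) :
    okB t (adjMat G) Rs σ = true ↔ ∃ π ∈ AutS G Rs, Extd π σ := by
  obtain ⟨m, e, he⟩ := gad_eq n Rs.length σ.length
  unfold okB
  rw [he G Rs (σ.map Prod.fst) rfl (by simp), he G Rs (σ.map Prod.snd) rfl (by simp), ht,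
    Ext_comap]
  constructor
  · rintro ⟨φ, hφ⟩
    obtain ⟨π, -, h1, h2⟩ := (iso_GW G G _ _ rfl rfl φ).1 hφ
    exact ⟨π, h1, (Ext_marks hσ π).1 h2⟩
  · rintro ⟨π, h1, h2⟩
    exact ⟨liftV _ _ π, (iso_GW G G _ _ rfl rfl _).2 ⟨π, rfl, h1, (Ext_marks hσ π).2 h2⟩⟩

theorem Ext_headD {l : List ℕ} (h : l ≠ []) : l.headD 0 ∈ l := by
  cases l with
  | nil => exact absurd rfl h
  | cons a l => simp

theorem Ext_fold (ht : Tests t) (G : SimpleGraph (Fin n)) (Rs : List Mat) {σ : List (ℕ × ℕ)}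
    (hσ : ∀ q ∈ σ, q.1 < n ∧ q.2 < n) (h0 : ∃ π ∈ AutS G Rs, Extd π σ) (m : ℕ) (hm : m ≤ n) :
    ∃ τ : List (ℕ × ℕ), (List.range m).foldl (extStep t (adjMat G) Rs) σ = σ ++ τ ∧
      τ.map Prod.fst = List.range m ∧ (∀ q ∈ σ ++ τ, q.1 < n ∧ q.2 < n) ∧
      ∃ π ∈ AutS G Rs, Extd π (σ ++ τ) := by
  induction m with
  | zero => exact ⟨[], by simp, by simp, by simpa using hσ, by simpa using h0⟩
  | succ m ih =>
    obtain ⟨τ, h1, h2, h3, π, hπ, h4⟩ := ih (by omega)
    have hb : ∀ y < n, ∀ q ∈ σ ++ τ ++ [(m, y)], q.1 < n ∧ q.2 < n := by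
      intro y hy q hq
      rcases List.mem_append.1 hq with hq | hq
      · exact h3 q hq
      · rw [List.mem_singleton.1 hq]; exact ⟨by omega, hy⟩
    have hne : ((List.range (adjMat G).length).filter
        fun y => okB t (adjMat G) Rs (σ ++ τ ++ [(m, y)])) ≠ [] := by
      apply List.ne_nil_of_mem (a := ((π ⟨m, by omega⟩ : Fin n) : ℕ))
      rw [List.mem_filter, List.mem_range, length_adjMat]
      refine ⟨Fin.is_lt _, (okB_iff ht G Rs (hb _ (Fin.is_lt _))).2 ⟨π, hπ, ?_⟩⟩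
      intro q hq x hx
      rcases List.mem_append.1 hq with hq | hq
      · exact h4 q hq x hx
      · rw [List.mem_singleton.1 hq] at hx ⊢
        have : x = ⟨m, by omega⟩ := Fin.ext hx
        rw [this]
    have hy := Ext_headD hne
    rw [List.mem_filter, List.mem_range, length_adjMat] at hy
    refine ⟨τ ++ [(m, ((List.range (adjMat G).length).filter
        fun y => okB t (adjMat G) Rs (σ ++ τ ++ [(m, y)])).headD 0)], ?_, ?_, ?_, ?_⟩
    · rw [List.range_succ, List.foldl_append, h1, ← List.append_assoc]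
      rfl
    · rw [List.map_append, h2, List.range_succ]
      rfl
    · rw [← List.append_assoc, length_adjMat]
      exact hb _ hy.1
    · rw [← List.append_assoc, length_adjMat]
      exact (okB_iff ht G Rs (hb _ hy.1)).1 hy.2

theorem ext_spec (ht : Tests t) (G : SimpleGraph (Fin n)) (Rs : List Mat) {σ : List (ℕ × ℕ)}
    (hσ : ∀ q ∈ σ, q.1 < n ∧ q.2 < n) :
    ∃ π ∈ AutS G Rs, ext t (adjMat G) Rs σ = pl π ∧ ((∃ ρ ∈ AutS G Rs, Extd ρ σ) → Extd π σ) := by
  by_cases hok : okB t (adjMat G) Rs σ = true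
  · obtain ⟨τ, h1, h2, -, π, hπ, h4⟩ :=
      Ext_fold ht G Rs hσ ((okB_iff ht G Rs hσ).1 hok) n le_rfl
    refine ⟨π, hπ, ?_, fun _ q hq => h4 q (List.mem_append_left _ hq)⟩
    unfold ext
    rw [if_pos hok, length_adjMat, h1, List.drop_left]
    have hl : τ.length = n := by simpa using congrArg List.length h2
    apply List.ext_getElem
    · simp [pl, hl]
    · intro i hi1 hi2
      have hi : i < n := by simpa [pl] using hi2
      have hi' : i < τ.length := by omega
      have e1 : τ[i].1 = i := by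
        have := List.getElem_of_eq h2 (i := i) (by simpa using hi')
        simpa using this
      have e2 := h4 τ[i] (List.mem_append_right _ (List.getElem_mem hi')) ⟨i, hi⟩ e1.symm
      simp only [pl, List.getElem_map, List.getElem_ofFn]
      exact e2.symm
  · refine ⟨1, (AutS G Rs).one_mem, ?_, fun h => absurd ((okB_iff ht G Rs hσ).2 h) hok⟩
    unfold ext
    rw [if_neg hok, length_adjMat, pl_one]

theorem Ext_lift (L : List PL) (h : ∀ x ∈ L, ∃ π : Perm (Fin n), x = pl π) :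
    ∃ T : List (Perm (Fin n)), L = T.map pl ∧ ∀ π, π ∈ T ↔ pl π ∈ L := by
  have : ∃ T : List (Perm (Fin n)), L = T.map pl := by
    induction L with
    | nil => exact ⟨[], rfl⟩
    | cons a L ih =>
      obtain ⟨T, hT⟩ := ih fun x hx => h x (List.mem_cons_of_mem _ hx)
      obtain ⟨π, hπ⟩ := h a List.mem_cons_self
      exact ⟨π :: T, by rw [List.map_cons, ← hT, ← hπ]⟩
  obtain ⟨T, rfl⟩ := this
  refine ⟨T, rfl, fun π => ⟨fun hπ => List.mem_map_of_mem hπ, fun hπ => ?_⟩⟩
  obtain ⟨ρ, hρ, e⟩ := List.mem_map.1 hπ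
  rwa [← pl_inj e]

theorem Ext_diag {i j : ℕ} (hi : i < n) (hj : j < n) :
    ∀ q ∈ (List.range i).map (fun l => (l, l)) ++ [(i, j)], q.1 < n ∧ q.2 < n := by
  intro q hq
  rcases List.mem_append.1 hq with hq | hq
  · obtain ⟨l, hl, rfl⟩ := List.mem_map.1 hq
    have := List.mem_range.1 hl
    exact ⟨by simp only; omega, by simp only; omega⟩
  · rw [List.mem_singleton.1 hq]; exact ⟨hi, hj⟩

theorem gens_spec (ht : Tests t) (G : SimpleGraph (Fin n)) (Rs : List Mat) :
    ∃ T : List (Perm (Fin n)), gens t (adjMat G) Rs = T.map pl ∧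
      Subgroup.closure {x | x ∈ T} = AutS G Rs := by
  have hmem : ∀ x, x ∈ gens t (adjMat G) Rs ↔ ∃ i < n, ∃ j < n,
      ext t (adjMat G) Rs ((List.range i).map (fun l => (l, l)) ++ [(i, j)]) = x := by
    intro x
    simp only [gens, length_adjMat, List.mem_flatMap, List.mem_map, List.mem_range]
  have hA : ∀ x ∈ gens t (adjMat G) Rs, ∃ π ∈ AutS G Rs, x = pl π := by
    intro x hx
    obtain ⟨i, hi, j, hj, rfl⟩ := (hmem x).1 hx
    obtain ⟨π, hπ, e, -⟩ := ext_spec ht G Rs (Ext_diag hi hj)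
    exact ⟨π, hπ, e⟩
  obtain ⟨T, hT, hT'⟩ := Ext_lift (n := n) _ fun x hx =>
    let ⟨π, _, e⟩ := hA x hx; ⟨π, e⟩
  have hle : ∀ π ∈ T, π ∈ AutS G Rs := by
    intro π hπ
    obtain ⟨ρ, hρ, e⟩ := hA _ ((hT' π).1 hπ)
    rwa [pl_inj e]
  refine ⟨T, hT, le_antisymm ((Subgroup.closure_le _).2 hle) ?_⟩
  have key : ∀ d i, i + d = n → ∀ g ∈ AutS G Rs, (∀ x : Fin n, (x : ℕ) < i → g x = x) →
      g ∈ Subgroup.closure {x | x ∈ T} := by
    intro d
    induction d with
    | zero =>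
      intro i hi g _ hg
      have : g = 1 := Equiv.ext fun x => hg x (by have := x.is_lt; omega)
      rw [this]
      exact Subgroup.one_mem _
    | succ d ih =>
      intro i hi g hg hfix
      have hin : i < n := by omega
      have hj : ((g ⟨i, hin⟩ : Fin n) : ℕ) < n := Fin.is_lt _
      obtain ⟨s, hs, e, hx⟩ := ext_spec ht G Rs (Ext_diag hin hj)
      have hsT : s ∈ T := (hT' s).2 ((hmem _).2 ⟨i, hin, _, hj, e⟩)
      have hx' := hx ⟨g, hg, fun q hq x hx => by
        rcases List.mem_append.1 hq with hq | hq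
        · obtain ⟨l, hl, rfl⟩ := List.mem_map.1 hq
          have := List.mem_range.1 hl
          simp only at hx ⊢
          rw [hfix x (by omega), hx]
        · rw [List.mem_singleton.1 hq] at hx ⊢
          have : x = ⟨i, hin⟩ := Fin.ext hx
          rw [this]⟩
      have hsg : ∀ x : Fin n, (x : ℕ) < i + 1 → s x = g x := by
        intro x hxi
        by_cases h1 : (x : ℕ) < i
        · rw [hfix x h1]
          exact Fin.ext (hx' (x, x) (List.mem_append_left _
            (List.mem_map.2 ⟨x, List.mem_range.2 h1, rfl⟩)) x rfl)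
        · have h2 : x = ⟨i, hin⟩ := Fin.ext (by simp only; omega)
          rw [h2]
          exact Fin.ext (hx' _ (List.mem_append_right _ (List.mem_singleton.2 rfl)) _ rfl)
      have h3 := ih (i + 1) (by omega) (s⁻¹ * g)
        ((AutS G Rs).mul_mem ((AutS G Rs).inv_mem hs) hg) fun x hxi => by
          rw [Perm.mul_apply, ← hsg x hxi]
          simp
      have h4 := Subgroup.mul_mem _ (Subgroup.subset_closure (k := {x | x ∈ T}) hsT) h3
      simpa using h4
  exact fun g hg => key n 0 (by omega) g hg fun x hx => absurd hx (by omega)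

theorem swaps_spec (ht : Tests t) (G : SimpleGraph (Fin n)) (Rs : List Mat) :
    ∃ S : List (Perm (Fin n)), swaps t (adjMat G) Rs = S.map pl ∧ (∀ s ∈ S, s ∈ AutS G Rs) ∧
      ∀ ρ ∈ AutS G Rs, ∀ a : Fin n × Fin n, ∃ s ∈ S, s • a = ρ • a ∧ s • ρ • a = ρ • ρ • a := by
  have hp : ∀ a : ℕ × ℕ, a ∈ prs n ↔ a.1 < n ∧ a.2 < n := by
    rintro ⟨u, v⟩
    simp only [prs, List.mem_flatMap, List.mem_map, List.mem_range, Prod.mk.injEq]
    constructor
    · rintro ⟨a, ha, b, hb, rfl, rfl⟩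
      exact ⟨ha, hb⟩
    · rintro ⟨h1, h2⟩
      exact ⟨u, h1, v, h2, rfl, rfl⟩
  have hb : ∀ a b c : ℕ × ℕ, a ∈ prs n → b ∈ prs n → c ∈ prs n →
      ∀ q ∈ [(a.1, b.1), (a.2, b.2), (b.1, c.1), (b.2, c.2)], q.1 < n ∧ q.2 < n := by
    intro a b c ha hb hc q hq
    rw [hp] at ha hb hc
    simp only [List.mem_cons, List.not_mem_nil, or_false] at hq
    rcases hq with rfl | rfl | rfl | rfl
    exacts [⟨ha.1, hb.1⟩, ⟨ha.2, hb.2⟩, ⟨hb.1, hc.1⟩, ⟨hb.2, hc.2⟩]
  have hmem : ∀ x, x ∈ swaps t (adjMat G) Rs ↔ ∃ a ∈ prs n, ∃ b ∈ prs n, ∃ c ∈ prs n,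
      ext t (adjMat G) Rs [(a.1, b.1), (a.2, b.2), (b.1, c.1), (b.2, c.2)] = x := by
    intro x
    simp only [swaps, length_adjMat, List.mem_flatMap, List.mem_map]
  have hA : ∀ x ∈ swaps t (adjMat G) Rs, ∃ π ∈ AutS G Rs, x = pl π := by
    intro x hx
    obtain ⟨a, ha, b, hb', c, hc, rfl⟩ := (hmem x).1 hx
    obtain ⟨π, hπ, e, -⟩ := ext_spec ht G Rs (hb a b c ha hb' hc)
    exact ⟨π, hπ, e⟩
  obtain ⟨T, hT, hT'⟩ := Ext_lift (n := n) _ fun x hx =>
    let ⟨π, _, e⟩ := hA x hx; ⟨π, e⟩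
  refine ⟨T, hT, fun π hπ => ?_, fun ρ hρ a => ?_⟩
  · obtain ⟨ρ, hρ, e⟩ := hA _ ((hT' π).1 hπ)
    rwa [pl_inj e]
  · have ha : ((a.1 : ℕ), (a.2 : ℕ)) ∈ prs n := (hp _).2 ⟨Fin.is_lt _, Fin.is_lt _⟩
    have hb' : ((ρ a.1 : ℕ), (ρ a.2 : ℕ)) ∈ prs n := (hp _).2 ⟨Fin.is_lt _, Fin.is_lt _⟩
    have hc : ((ρ (ρ a.1) : ℕ), (ρ (ρ a.2) : ℕ)) ∈ prs n := (hp _).2 ⟨Fin.is_lt _, Fin.is_lt _⟩
    obtain ⟨s, -, e, hx⟩ := ext_spec ht G Rs (hb _ _ _ ha hb' hc)
    have hx' := hx ⟨ρ, hρ, fun q hq x hx => by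
      simp only [List.mem_cons, List.not_mem_nil, or_false] at hq
      rcases hq with rfl | rfl | rfl | rfl <;> rw [Fin.ext hx]⟩
    refine ⟨s, (hT' s).2 ((hmem _).2 ⟨_, ha, _, hb', _, hc, e⟩), ?_, ?_⟩
    · exact Prod.ext (Fin.ext (hx' (a.1, ρ a.1) (by simp) a.1 rfl))
        (Fin.ext (hx' (a.2, ρ a.2) (by simp) a.2 rfl))
    · exact Prod.ext (Fin.ext (hx' (ρ a.1, ρ (ρ a.1)) (by simp) (ρ a.1) rfl))
        (Fin.ext (hx' (ρ a.2, ρ (ρ a.2)) (by simp) (ρ a.2) rfl))

end Pool.Agent.P.MP_9e61a4_lc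
end

-- part Pool.Agent.P.MP_9e61a4_lc.Fhl
section

/-! Correctness of the sifting tables. -/

namespace Pool.Agent.P.MP_9e61a4_lc

open Equiv

variable {n : ℕ}

def fhl_lk (T : List (Perm (Fin n))) (i j : ℕ) : List (Perm (Fin n)) :=
  T.filter fun t => fixB i (pl t) && (pl t).getD i 0 == j

def fhl_sift (T : List (Perm (Fin n))) (g : Perm (Fin n)) (i : ℕ) : Perm (Fin n) :=
  if fixB i (pl g) && !(fhl_lk T i ((pl g).getD i 0)).isEmpty then
    ((fhl_lk T i ((pl g).getD i 0)).headD 1)⁻¹ * g else g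

def fhl_res (T : List (Perm (Fin n))) (g : Perm (Fin n)) : Perm (Fin n) :=
  (List.range n).foldl (fhl_sift T) g

def fhl_add (T : List (Perm (Fin n))) (g : Perm (Fin n)) : List (Perm (Fin n)) :=
  if fhl_res T g = 1 then T else (T ++ [fhl_res T g]).take (n * n + 1)

def fhl_cand (gs cs T : List (Perm (Fin n))) : List (Perm (Fin n)) :=
  gs ++ (T.flatMap fun a => T.map fun b => a * b) ++ (cs.flatMap fun c => T.map fun a => c * a * c⁻¹)

def fhl_round (gs cs T : List (Perm (Fin n))) : List (Perm (Fin n)) :=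
  (fhl_cand gs cs T).foldl fhl_add T

theorem fhl_lk_pl (T : List (Perm (Fin n))) (i j : ℕ) :
    lk (T.map pl) i j = (fhl_lk T i j).map pl := by
  rw [lk, fhl_lk, List.filter_map]
  rfl

theorem fhl_sift_pl (T : List (Perm (Fin n))) (g : Perm (Fin n)) (i : ℕ) :
    siftStep n (T.map pl) (pl g) i = pl (fhl_sift T g i) := by
  rw [siftStep, fhl_sift, fhl_lk_pl]
  cases fhl_lk T i ((pl g).getD i 0) with
  | nil => simp
  | cons u l =>
    simp only [List.map_cons, List.isEmpty_cons, Bool.not_false, Bool.and_true, List.headD_cons]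
    split_ifs
    · rw [invL_pl, mulL_pl]
    · rfl

theorem fhl_res_pl (T : List (Perm (Fin n))) (g : Perm (Fin n)) :
    res n (T.map pl) (pl g) = pl (fhl_res T g) := by
  have h : ∀ (L : List ℕ) (g : Perm (Fin n)),
      L.foldl (siftStep n (T.map pl)) (pl g) = pl (L.foldl (fhl_sift T) g) := by
    intro L
    induction L with
    | nil => intro g; rfl
    | cons i L ih => intro g; rw [List.foldl_cons, List.foldl_cons, fhl_sift_pl, ih]
  rw [res, h, fhl_res]
  conv_lhs => rw [← pl_one]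
  rw [mulL_pl, one_mul, pl_one]

theorem fhl_add_pl (T : List (Perm (Fin n))) (g : Perm (Fin n)) :
    addT n (T.map pl) (pl g) = (fhl_add T g).map pl := by
  rw [addT, fhl_add, fhl_res_pl]
  by_cases h : fhl_res T g = 1
  · rw [if_pos h, if_pos (by rw [h, pl_one])]
  · rw [if_neg h, if_neg (fun e => h (pl_inj (e.trans pl_one.symm))), List.map_take,
      List.map_append, List.map_singleton]

theorem fhl_round_pl (gs cs T : List (Perm (Fin n))) :
    roundT n (gs.map pl) (cs.map pl) (T.map pl) = (fhl_round gs cs T).map pl := by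
  have h : ∀ (L T : List (Perm (Fin n))),
      (L.map pl).foldl (addT n) (T.map pl) = (L.foldl fhl_add T).map pl := by
    intro L
    induction L with
    | nil => intro T; rfl
    | cons g L ih => intro T; rw [List.map_cons, List.foldl_cons, List.foldl_cons, fhl_add_pl, ih]
  rw [roundT, fhl_round, ← h, fhl_cand]
  simp only [List.map_append, List.flatMap_map, List.map_flatMap, List.map_map, Function.comp_def,
    mulL_pl, invL_pl]

theorem fhl_fix {i : ℕ} (hi : i ≤ n) (g : Perm (Fin n)) :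
    fixB i (pl g) = true ↔ ∀ l : Fin n, l.val < i → g l = l := by
  simp only [fixB, List.all_eq_true, List.mem_range, beq_iff_eq]
  constructor
  · intro h l hl
    exact Fin.ext (by rw [← getD_pl, h l hl])
  · intro h l hl
    have := getD_pl g ⟨l, hl.trans_le hi⟩
    rw [h _ hl] at this
    exact this

theorem fhl_mem {T : List (Perm (Fin n))} {i j : Fin n} {t : Perm (Fin n)} :
    t ∈ fhl_lk T i j ↔ t ∈ T ∧ (∀ l : Fin n, l.val < i → t l = l) ∧ t i = j := by
  rw [fhl_lk, List.mem_filter, Bool.and_eq_true, fhl_fix i.2.le, getD_pl, beq_iff_eq, Fin.val_inj]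

theorem fhl_sift_mem {T : List (Perm (Fin n))} {E : Subgroup (Perm (Fin n))} (hT : ∀ x ∈ T, x ∈ E)
    (g : Perm (Fin n)) (i : ℕ) : fhl_sift T g i ∈ E ↔ g ∈ E := by
  rw [fhl_sift]
  split_ifs
  · refine E.mul_mem_cancel_left (inv_mem ?_)
    cases h : fhl_lk T i ((pl g).getD i 0) with
    | nil => exact one_mem _
    | cons u l =>
      have : u ∈ fhl_lk T i ((pl g).getD i 0) := by rw [h]; exact List.mem_cons_self
      exact hT u (List.mem_filter.1 this).1
  · rfl

theorem fhl_res_mem {T : List (Perm (Fin n))} {E : Subgroup (Perm (Fin n))} (hT : ∀ x ∈ T, x ∈ E)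
    (g : Perm (Fin n)) : fhl_res T g ∈ E ↔ g ∈ E := by
  have h : ∀ (L : List ℕ) (g : Perm (Fin n)), L.foldl (fhl_sift T) g ∈ E ↔ g ∈ E := by
    intro L
    induction L with
    | nil => intro g; rfl
    | cons i L ih => intro g; rw [List.foldl_cons, ih, fhl_sift_mem hT]
  exact h _ g

theorem fhl_stuck {T : List (Perm (Fin n))} (h1 : 1 ∈ T) (g : Perm (Fin n)) :
    fhl_res T g = 1 ∨ ∃ i : Fin n, (∀ l : Fin n, l.val < i → fhl_res T g l = l) ∧
      fhl_lk T i (fhl_res T g i) = [] := by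
  have h : ∀ m, m ≤ n → (∀ l : Fin n, l.val < m → (List.range m).foldl (fhl_sift T) g l = l) ∨
      ∃ i : Fin n, i.val < m ∧ (∀ l : Fin n, l.val < i → (List.range m).foldl (fhl_sift T) g l = l) ∧
        fhl_lk T i ((List.range m).foldl (fhl_sift T) g i) = [] := by
    intro m
    induction m with
    | zero => exact fun _ => Or.inl fun l hl => absurd hl (Nat.not_lt_zero _)
    | succ m ih =>
      intro hm
      rw [List.range_succ, List.foldl_append, List.foldl_cons, List.foldl_nil]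
      generalize (List.range m).foldl (fhl_sift T) g = r at ih ⊢
      have hv : (pl r).getD m 0 = r ⟨m, hm⟩ := getD_pl r ⟨m, hm⟩
      rcases ih (by omega) with hf | ⟨i, hi, hf, he⟩
      · have hb := (fhl_fix (by omega) r).2 hf
        cases hl : fhl_lk T m (r ⟨m, hm⟩) with
        | nil =>
          have e : fhl_sift T r m = r := by rw [fhl_sift, hv, hl]; simp
          rw [e]
          exact Or.inr ⟨⟨m, hm⟩, Nat.lt_succ_self m, hf, hl⟩
        | cons u l =>
          have e : fhl_sift T r m = u⁻¹ * r := by rw [fhl_sift, hv, hl, hb]; simp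
          have hu : u ∈ fhl_lk T (⟨m, hm⟩ : Fin n) (r ⟨m, hm⟩) := by
            rw [hl]; exact List.mem_cons_self
          obtain ⟨-, hu1, hu2⟩ := fhl_mem.1 hu
          rw [e]
          refine Or.inl fun l hl => ?_
          rw [Perm.mul_apply, Perm.inv_eq_iff_eq]
          rcases Nat.lt_succ_iff_lt_or_eq.1 hl with h' | h'
          · rw [hf l h', hu1 l h']
          · obtain rfl : l = ⟨m, hm⟩ := Fin.ext h'
            exact hu2.symm
      · have hb : ¬ fixB m (pl r) = true := by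
          rw [fhl_fix (by omega)]
          intro hh
          have : (1 : Perm (Fin n)) ∈ fhl_lk T i (r i) :=
            fhl_mem.2 ⟨h1, fun _ _ => rfl, (hh i hi).symm⟩
          rw [he] at this
          exact List.not_mem_nil this
        have e : fhl_sift T r m = r := by rw [fhl_sift, if_neg (by simp [hb])]
        rw [e]
        exact Or.inr ⟨i, by omega, hf, he⟩
  rcases h n le_rfl with hf | ⟨i, -, hf, he⟩
  · exact Or.inl (Equiv.ext fun l => hf l l.2)
  · exact Or.inr ⟨i, hf, he⟩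

def fhl_Inv (T : List (Perm (Fin n))) : Prop :=
  1 ∈ T ∧ ∃ K : List (Fin n × Fin n), K.Nodup ∧ T.length = K.length + 1 ∧
    ∀ k ∈ K, ∃ t, t ∈ fhl_lk T k.1 k.2

theorem fhl_len {T : List (Perm (Fin n))} (h : fhl_Inv T) : T.length ≤ n * n + 1 := by
  obtain ⟨-, K, h1, h2, -⟩ := h
  have := h1.length_le_card
  rw [Fintype.card_prod, Fintype.card_fin] at this
  omega

theorem fhl_add_spec {T : List (Perm (Fin n))} (h : fhl_Inv T) (g : Perm (Fin n))
    (hg : fhl_res T g ≠ 1) : fhl_add T g = T ++ [fhl_res T g] ∧ fhl_Inv (T ++ [fhl_res T g]) := by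
  have hI : fhl_Inv (T ++ [fhl_res T g]) := by
    obtain ⟨h1, K, h2, h3, h4⟩ := h
    obtain ⟨i, hf, he⟩ := (fhl_stuck h1 g).resolve_left hg
    refine ⟨List.mem_append_left _ h1, (i, fhl_res T g i) :: K, List.nodup_cons.2 ⟨fun hk => ?_, h2⟩,
      by simp [h3], fun k hk => ?_⟩
    · obtain ⟨t, ht⟩ := h4 _ hk
      rw [he] at ht
      exact List.not_mem_nil ht
    · rcases List.mem_cons.1 hk with rfl | hk
      · exact ⟨_, fhl_mem.2 ⟨List.mem_append_right _ List.mem_cons_self, hf, rfl⟩⟩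
      · obtain ⟨t, ht⟩ := h4 _ hk
        rw [fhl_mem] at ht
        exact ⟨t, fhl_mem.2 ⟨List.mem_append_left _ ht.1, ht.2⟩⟩
  exact ⟨by rw [fhl_add, if_neg hg, List.take_of_length_le (fhl_len hI)], hI⟩

theorem fhl_fold (L : List (Perm (Fin n))) : ∀ T : List (Perm (Fin n)), fhl_Inv T →
    fhl_Inv (L.foldl fhl_add T) ∧
      (∀ E : Subgroup (Perm (Fin n)), (∀ x ∈ T, x ∈ E) → (∀ x ∈ L, x ∈ E) →
        ∀ x ∈ L.foldl fhl_add T, x ∈ E) ∧
      (T.length < (L.foldl fhl_add T).length ∨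
        (L.foldl fhl_add T = T ∧ ∀ g ∈ L, fhl_res T g = 1)) := by
  induction L with
  | nil => exact fun T h => ⟨h, fun _ h1 _ => h1, Or.inr ⟨rfl, fun _ hg => absurd hg List.not_mem_nil⟩⟩
  | cons g L ih =>
    intro T h
    rw [List.foldl_cons]
    by_cases hg : fhl_res T g = 1
    · rw [show fhl_add T g = T from if_pos hg]
      obtain ⟨a, b, c⟩ := ih T h
      refine ⟨a, fun E h1 h2 => b E h1 fun x hx => h2 x (List.mem_cons_of_mem _ hx),
        c.imp_right fun c => ⟨c.1, fun x hx => ?_⟩⟩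
      rcases List.mem_cons.1 hx with rfl | hx
      · exact hg
      · exact c.2 x hx
    · obtain ⟨e, hI⟩ := fhl_add_spec h g hg
      rw [e]
      obtain ⟨a, b, c⟩ := ih _ hI
      refine ⟨a, fun E h1 h2 => b E (fun x hx => ?_) fun x hx => h2 x (List.mem_cons_of_mem _ hx),
        Or.inl ?_⟩
      · rcases List.mem_append.1 hx with hx | hx
        · exact h1 x hx
        · rw [List.mem_singleton.1 hx]
          exact (fhl_res_mem h1 g).2 (h2 g List.mem_cons_self)
      · rcases c with c | c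
        · rw [List.length_append] at c
          omega
        · rw [c.1, List.length_append, List.length_singleton]
          omega

theorem closeT_spec (gs cs : List (Perm (Fin n))) :
    ∃ T : List (Perm (Fin n)), closeT n (gs.map pl) (cs.map pl) = T.map pl ∧
      (∀ E : Subgroup (Perm (Fin n)), (∀ g ∈ gs, g ∈ E) → (∀ c ∈ cs, ∀ x ∈ E, c * x * c⁻¹ ∈ E) →
        ∀ x ∈ T, x ∈ E) ∧
      (∀ g ∈ gs, g ∈ Subgroup.closure {x | x ∈ T}) ∧
      ∀ c ∈ cs, ∀ x ∈ T, c * x * c⁻¹ ∈ Subgroup.closure {x | x ∈ T} := by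
  have key : ∀ k, ∃ T : List (Perm (Fin n)),
      (roundT n (gs.map pl) (cs.map pl))^[k] [List.range n] = T.map pl ∧ fhl_Inv T ∧
      (∀ E : Subgroup (Perm (Fin n)), (∀ g ∈ gs, g ∈ E) → (∀ c ∈ cs, ∀ x ∈ E, c * x * c⁻¹ ∈ E) →
        ∀ x ∈ T, x ∈ E) ∧
      (k < T.length ∨ (fhl_round gs cs T = T ∧ ∀ g ∈ fhl_cand gs cs T, fhl_res T g = 1)) := by
    intro k
    induction k with
    | zero =>
      refine ⟨[1], by simp [pl_one], ⟨List.mem_cons_self, [], List.nodup_nil, rfl, by simp⟩,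
        fun E _ _ x hx => ?_, Or.inl Nat.one_pos⟩
      rw [List.mem_singleton.1 hx]
      exact one_mem _
    | succ k ih =>
      obtain ⟨T, h1, h2, h3, h4⟩ := ih
      obtain ⟨a, b, c⟩ := fhl_fold (fhl_cand gs cs T) T h2
      refine ⟨fhl_round gs cs T, by rw [Function.iterate_succ_apply', h1, fhl_round_pl], a,
        fun E e1 e2 => b E (h3 E e1 e2) fun x hx => ?_, ?_⟩
      · simp only [fhl_cand, List.mem_append, List.mem_flatMap, List.mem_map] at hx
        rcases hx with (hx | ⟨u, hu, v, hv, rfl⟩) | ⟨u, hu, v, hv, rfl⟩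
        · exact e1 x hx
        · exact mul_mem (h3 E e1 e2 u hu) (h3 E e1 e2 v hv)
        · exact e2 u hu v (h3 E e1 e2 v hv)
      · have fixed : (fhl_round gs cs T = T ∧ ∀ g ∈ fhl_cand gs cs T, fhl_res T g = 1) →
            fhl_round gs cs (fhl_round gs cs T) = fhl_round gs cs T ∧
              ∀ g ∈ fhl_cand gs cs (fhl_round gs cs T), fhl_res (fhl_round gs cs T) g = 1 :=
          fun h => by rw [h.1]; exact h
        rcases h4 with h4 | h4
        · rcases c with c | c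
          · exact Or.inl (lt_of_le_of_lt h4 c)
          · exact Or.inr (fixed c)
        · exact Or.inr (fixed h4)
  obtain ⟨T, h1, h2, h3, h4⟩ := key (n * n + 1)
  have h5 := (h4.resolve_left (not_lt.2 (fhl_len h2))).2
  have h6 : ∀ g ∈ fhl_cand gs cs T, g ∈ Subgroup.closure {x | x ∈ T} := fun g hg =>
    (fhl_res_mem (fun x hx => Subgroup.subset_closure hx) g).1 (by rw [h5 g hg]; exact one_mem _)
  refine ⟨T, h1, h3, fun g hg => h6 g ?_, fun c hc x hx => h6 _ ?_⟩
  · exact List.mem_append_left _ (List.mem_append_left _ hg)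
  · exact List.mem_append_right _ (List.mem_flatMap.2 ⟨c, hc, List.mem_map.2 ⟨x, hx, rfl⟩⟩)

end Pool.Agent.P.MP_9e61a4_lc
end

-- part Pool.Agent.P.MP_9e61a4_lc.GrpB
section

/-! Sylow conjugacy, normal Sylow subgroups, derived series. -/

namespace Pool.Agent.P.MP_9e61a4_lc

open Equiv
open scoped Pointwise

variable {V : Type} [Finite V] {p : ℕ} [Fact p.Prime]

/-- A maximal `p`-subgroup as a Sylow subgroup. -/
def GrpB_syl {V : Type} {p : ℕ} {H K : Subgroup (Perm V)} (h : MaxP p H K) : Sylow p H where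
  toSubgroup := K.subgroupOf H
  isPGroup' := h.2.1.comap_subtype
  is_maximal' := fun {Q} hQ hle => by
    have h1 : Q.map H.subtype = K := by
      refine h.2.2 _ (Subgroup.map_subtype_le Q) (hQ.map _) fun k hk => ?_
      exact ⟨⟨k, h.1 hk⟩, hle hk, rfl⟩
    rw [← h1]
    exact (Subgroup.comap_map_eq_self_of_injective H.subtype_injective Q).symm

theorem GrpB_conj {H K K' : Subgroup (Perm V)} (h : MaxP p H K) (h' : MaxP p H K') :
    ∃ x ∈ H, ∀ g, g ∈ K ↔ x * g * x⁻¹ ∈ K' := by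
  obtain ⟨x, hx⟩ := MulAction.exists_smul_eq H (GrpB_syl h) (GrpB_syl h')
  have h1 : MulAut.conj x • K.subgroupOf H = K'.subgroupOf H := congrArg Sylow.toSubgroup hx
  have h2 : ∀ g : H, g.1 ∈ K ↔ x.1 * g.1 * x.1⁻¹ ∈ K' := fun g => by
    have h3 := Subgroup.smul_mem_pointwise_smul_iff (a := MulAut.conj x) (S := K.subgroupOf H)
      (x := g)
    rw [h1] at h3
    exact h3.symm
  refine ⟨x.1, x.2, fun g => ⟨fun hg => (h2 ⟨g, h.1 hg⟩).1 hg, fun hg => ?_⟩⟩
  have h4 : g ∈ H := by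
    have := H.mul_mem (H.mul_mem (H.inv_mem x.2) (h'.1 hg)) x.2
    simpa [mul_assoc] using this
  exact (h2 ⟨g, h4⟩).2 hg

theorem maxP_conj {H₁ H₂ K₁ K₂ : Subgroup (Perm V)} {π : Perm V}
    (hπ : ∀ g, g ∈ H₁ ↔ π * g * π⁻¹ ∈ H₂) (h₁ : MaxP p H₁ K₁) (h₂ : MaxP p H₂ K₂) :
    ∃ h ∈ H₂, ∀ a b : V × V, Orb K₂ ((h * π) • a) ((h * π) • b) ↔ Orb K₁ a b := by
  have h3 : MaxP p H₂ (K₁.map (MulAut.conj π).toMonoidHom) := by
    refine ⟨?_, h₁.2.1.map _, fun Q hQ hp hle => ?_⟩
    · rintro _ ⟨g, hg, rfl⟩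
      exact (hπ g).1 (h₁.1 hg)
    · have h4 : Q.comap (MulAut.conj π).toMonoidHom = K₁ :=
        h₁.2.2 _ (fun g hg => (hπ g).2 (hQ hg)) (hp.comap_of_injective _ (MulAut.conj π).injective)
          (fun g hg => hle ⟨g, hg, rfl⟩)
      rw [← h4]
      exact (Subgroup.map_comap_eq_self_of_surjective (MulAut.conj π).surjective Q).symm
  obtain ⟨x, hx, h4⟩ := GrpB_conj h3 h₂
  have h5 : ∀ g, g ∈ K₁ ↔ (x * π) * g * (x * π)⁻¹ ∈ K₂ := fun g => by
    have h6 := h4 (π * g * π⁻¹)
    have h7 : π * g * π⁻¹ ∈ K₁.map (MulAut.conj π).toMonoidHom ↔ g ∈ K₁ :=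
      Subgroup.mem_map_iff_mem (f := (MulAut.conj π).toMonoidHom) (MulAut.conj π).injective
    rw [← h7, h6]
    simp only [mul_inv_rev, mul_assoc]
  refine ⟨x, hx, fun a b => ⟨?_, ?_⟩⟩
  · rintro ⟨l, hl, e⟩
    refine ⟨(x * π)⁻¹ * l * (x * π), (h5 _).2 ?_, ?_⟩
    · simpa [mul_assoc] using hl
    · rw [mul_smul, mul_smul, e, inv_smul_smul]
  · rintro ⟨l, hl, e⟩
    refine ⟨_, (h5 l).1 hl, ?_⟩
    rw [mul_smul, inv_smul_smul, mul_smul, e]

/-- A subgroup of `H` permuting the orbits on pairs of a maximal `p`-subgroup `K` that is closed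
has normal Sylow `p`-subgroups. -/
theorem sylow_normal {H K F : Subgroup (Perm V)} (hK : MaxP p H K) (hc : clo H K = K) (hF : F ≤ H)
    (hp : ∀ f ∈ F, Pres K f) (P : Sylow p F) : (P : Subgroup F).Normal := by
  have h1 : ∀ f ∈ F, ∀ k ∈ K, f * k * f⁻¹ ∈ K := fun f hf k hk => by
    rw [← hc]
    refine ⟨H.mul_mem (H.mul_mem (hF hf) (hK.1 hk)) (H.inv_mem (hF hf)), fun a => ?_⟩
    have h2 := (hp f hf (f⁻¹ • a) (k • f⁻¹ • a)).2 ⟨k, hk, rfl⟩
    rwa [smul_inv_smul, ← mul_smul, ← mul_smul] at h2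
  have h2 : (P : Subgroup F).map F.subtype ≤ Subgroup.normalizer K := by
    rintro _ ⟨f, -, rfl⟩
    refine Subgroup.mem_normalizer_iff.2 fun k => ⟨h1 _ f.2 k, fun hk => ?_⟩
    have := h1 _ (F.inv_mem f.2) _ hk
    simpa [mul_assoc] using this
  have h3 := hK.2.2 _ (sup_le hK.1 ((Subgroup.map_subtype_le _).trans hF))
    (hK.2.1.to_sup_of_normal_left' (P.isPGroup'.map F.subtype) h2) le_sup_left
  have h4 : K.subgroupOf F = P := by
    refine P.is_maximal' hK.2.1.comap_subtype fun f hf => ?_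
    have : F.subtype f ∈ K ⊔ (P : Subgroup F).map F.subtype :=
      Subgroup.mem_sup_right ⟨f, hf, rfl⟩
    rw [h3] at this
    exact this
  rw [← h4]
  exact ⟨fun k hk f => h1 _ f.2 _ hk⟩

theorem nilpotent_of_small {n : ℕ} (F : Subgroup (Perm (Fin n)))
    (h : ∀ (q : ℕ) [Fact q.Prime], q ≤ n → ∀ P : Sylow q F, (P : Subgroup F).Normal) :
    Group.IsNilpotent F := by
  have key : ∀ (q : ℕ) (_hp : Fact q.Prime) (P : Sylow q F), (P : Subgroup F).Normal := by
    intro q hq P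
    by_cases hn : q ≤ n
    · exact h q hn P
    · obtain ⟨k, hk⟩ := IsPGroup.iff_card.1 P.isPGroup'
      have h1 : q ^ k ∣ n.factorial := by
        have h2 := (Subgroup.card_subgroup_dvd_card (P : Subgroup F)).trans
          (Subgroup.card_subgroup_dvd_card F)
        rwa [hk, Nat.card_perm, Nat.card_fin] at h2
      have h3 : k = 0 := by
        by_contra h0
        exact hn (hq.out.dvd_factorial.1 ((dvd_pow_self q h0).trans h1))
      rw [h3, pow_zero, Subgroup.card_eq_one] at hk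
      rw [hk]
      infer_instance
  exact (Group.isNilpotent_of_finite_tfae.out 0 3 rfl rfl).2 key

theorem GrpB_dser {V : Type} (N : Subgroup (Perm V)) (i : ℕ) :
    dser N i = (derivedSeries N i).map N.subtype := by
  induction i with
  | zero => rw [dser, derivedSeries_zero, ← MonoidHom.range_eq_map, Subgroup.range_subtype]
  | succ i ih => rw [dser, derivedSeries_succ, Subgroup.map_commutator, ih]

omit [Finite V] in
theorem mem_of_dser {N K : Subgroup (Perm V)} (hK : ∀ f ∈ N, ∀ k ∈ K, f * k * f⁻¹ ∈ K) {J M : ℕ}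
    (hJ : dser N J = ⊥) (S : ℕ → Set (Perm V)) (hS : ∀ i < J, Subgroup.closure (S i) = dser N i)
    (hM : M.Coprime p) (hs : ∀ i < J, ∀ s ∈ S i, s ^ M ∈ K) {g : Perm V} (hg : g ∈ N)
    (hk : ∃ k, g ^ p ^ k = 1) : g ∈ K := by
  obtain ⟨k, hk⟩ := hk
  have hN : (K.subgroupOf N).Normal := ⟨fun k hk f => hK _ f.2 _ hk⟩
  have hmem : ∀ i (x : N), x.1 ∈ dser N i ↔ x ∈ derivedSeries N i := fun i x => by
    rw [GrpB_dser]
    exact Subgroup.mem_map_iff_mem (f := N.subtype) N.subtype_injective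
  have hle : ∀ i, dser N i ≤ N := fun i => by
    rw [GrpB_dser]
    exact Subgroup.map_subtype_le _
  have key : ∀ i ≤ J, (⟨g, hg⟩ : N) ∈ derivedSeries N i ⊔ K.subgroupOf N := by
    intro i
    induction i with
    | zero => exact fun _ => Subgroup.mem_sup_left (Subgroup.mem_top _)
    | succ i ih =>
      intro hi
      obtain ⟨a, ha, b, hb, e⟩ := Subgroup.mem_sup_of_normal_right.1 (ih (by omega))
      let φ : N →* N ⧸ (derivedSeries N (i + 1) ⊔ K.subgroupOf N) := QuotientGroup.mk' _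
      have hφ : ∀ x, φ x = 1 ↔ x ∈ derivedSeries N (i + 1) ⊔ K.subgroupOf N :=
        fun x => QuotientGroup.eq_one_iff x
      have h1 : ∀ x ∈ Subgroup.closure (S i), ∀ hx : x ∈ N, φ ⟨x, hx⟩ ^ M = 1 := by
        intro x hx
        induction hx using Subgroup.closure_induction with
        | mem x hx =>
          intro hxN
          rw [← map_pow, hφ]
          exact Subgroup.mem_sup_right (hs i hi x hx)
        | one =>
          intro h1
          exact (congrArg (· ^ M) φ.map_one).trans (one_pow M)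
        | mul x y hx hy ihx ihy =>
          intro hxy
          rw [hS i hi] at hx hy
          have hc : Commute (φ ⟨x, hle i hx⟩) (φ ⟨y, hle i hy⟩) := by
            rw [← commutatorElement_eq_one_iff_commute, ← map_commutatorElement, hφ]
            refine Subgroup.mem_sup_left ?_
            rw [derivedSeries_succ]
            exact Subgroup.commutator_mem_commutator ((hmem i _).1 hx) ((hmem i _).1 hy)
          have e1 : (⟨x * y, hxy⟩ : N) = ⟨x, hle i hx⟩ * ⟨y, hle i hy⟩ := rfl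
          rw [e1, map_mul, hc.mul_pow, ihx, ihy, one_mul]
        | inv x hx ihx =>
          intro hx'
          rw [hS i hi] at hx
          have e1 : (⟨x⁻¹, hx'⟩ : N) = (⟨x, hle i hx⟩ : N)⁻¹ := rfl
          rw [e1, map_inv, inv_pow, ihx, inv_one]
      have h2 : φ ⟨g, hg⟩ ^ M = 1 := by
        rw [← e, map_mul, (hφ b).2 (Subgroup.mem_sup_right hb), mul_one]
        exact h1 a.1 (by rw [hS i hi]; exact (hmem i a).2 ha) a.2
      have h3 : φ ⟨g, hg⟩ ^ p ^ k = 1 := by
        have e1 : (⟨g, hg⟩ : N) ^ p ^ k = 1 := Subtype.ext hk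
        rw [← map_pow, e1, map_one]
      rw [← hφ, ← orderOf_eq_one_iff]
      exact Nat.eq_one_of_dvd_coprimes (hM.pow_right k) (orderOf_dvd_of_pow_eq_one h2)
        (orderOf_dvd_of_pow_eq_one h3)
  have h4 := key J le_rfl
  have h5 : derivedSeries N J = ⊥ := by
    rw [GrpB_dser] at hJ
    exact (Subgroup.map_eq_bot_iff_of_injective _ N.subtype_injective).1 hJ
  rw [h5, bot_sup_eq] at h4
  exact h4

theorem solvable_iff_dser {n : ℕ} (N : Subgroup (Perm (Fin n))) :
    Group.IsSolvable N ↔ dser N (n * n) = ⊥ := by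
  rw [GrpB_dser, Subgroup.map_eq_bot_iff_of_injective _ N.subtype_injective]
  refine ⟨fun hs => ?_, fun h => ⟨⟨_, h⟩⟩⟩
  have key : ∀ i, derivedSeries N i = ⊥ ∨
      2 ^ i * Nat.card (derivedSeries N i) ≤ Nat.card N := by
    intro i
    induction i with
    | zero => exact Or.inr (by simp)
    | succ i ih =>
      by_cases h0 : derivedSeries N i = ⊥
      · exact Or.inl (le_bot_iff.1 (h0 ▸ derivedSeries_antitone N (Nat.le_succ i)))
      · refine Or.inr (le_trans ?_ (ih.resolve_left h0))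
        have h1 : derivedSeries N (i + 1) < derivedSeries N i :=
          Group.IsSolvable.commutator_lt_of_ne_bot h0
        obtain ⟨c, hc⟩ := Subgroup.card_dvd_of_le h1.le
        have h2 : ¬ Nat.card (derivedSeries N i) ≤ Nat.card (derivedSeries N (i + 1)) :=
          fun h => h1.ne (Subgroup.eq_of_le_of_card_ge h1.le h)
        have h3 : 2 ≤ c := by
          by_contra h4
          refine h2 ?_
          rw [hc]
          exact mul_le_of_le_one_right' (by omega)
        rw [pow_succ, mul_assoc, hc, mul_comm 2]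
        exact Nat.mul_le_mul_left _ (Nat.mul_le_mul_left _ h3)
  by_contra h0
  have h1 := (key (n * n)).resolve_left h0
  have h2 : 1 < Nat.card (derivedSeries N (n * n)) := (Subgroup.one_lt_card_iff_ne_bot _).2 h0
  have h3 : Nat.card N ≤ n.factorial := by
    have := Subgroup.card_le_card_group N
    rwa [Nat.card_perm, Nat.card_fin] at this
  have h4 : n.factorial ≤ 2 ^ (n * n) := by
    rw [pow_mul]
    exact (Nat.factorial_le_pow n).trans (Nat.pow_le_pow_left Nat.lt_two_pow_self.le n)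
  have h5 : 0 < 2 ^ (n * n) := Nat.two_pow_pos _
  nlinarith

theorem GrpB_solv {V : Type} {A B : Subgroup (Perm V)} {π : Perm V}
    (h : ∀ g ∈ A, π * g * π⁻¹ ∈ B) (hB : Group.IsSolvable B) : Group.IsSolvable A := by
  let f : A →* B := ((MulAut.conj π).toMonoidHom.comp A.subtype).codRestrict B fun g => h _ g.2
  exact Group.isSolvable_of_isSolvable_injective (f := f) fun x y e =>
    Subtype.ext ((MulAut.conj π).injective (congrArg Subtype.val e))

omit [Finite V] in
theorem solvable_conj {H₁ H₂ : Subgroup (Perm V)} {π : Perm V}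
    (hπ : ∀ g, g ∈ H₁ ↔ π * g * π⁻¹ ∈ H₂) : Group.IsSolvable H₁ ↔ Group.IsSolvable H₂ := by
  refine ⟨GrpB_solv (π := π⁻¹) fun g hg => (hπ _).2 ?_, GrpB_solv fun g hg => (hπ g).1 hg⟩
  simpa [mul_assoc] using hg

theorem normalSylow_of_mulEquiv {A B : Type} [Group A] [Group B] [Finite A] (e : A ≃* B)
    (h : ∀ P : Sylow p A, (P : Subgroup A).Normal) : ∃ P : Sylow p B, (P : Subgroup B).Normal := by
  obtain ⟨P⟩ : Nonempty (Sylow p A) := inferInstance
  exact ⟨P.mapSurjective (f := e.toMonoidHom) e.surjective, (h P).map _ e.surjective⟩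

end Pool.Agent.P.MP_9e61a4_lc
end

-- part Pool.Agent.P.MP_9e61a4_lc.Der
section

/-! The derived series is computed correctly. -/

namespace Pool.Agent.P.MP_9e61a4_lc

open Equiv

variable {n : ℕ}

theorem Der_comm {G : Type} [Group G] {S : Set G} {K : Subgroup G}
    (hK : ∀ c ∈ Subgroup.closure S, ∀ x ∈ K, c * x * c⁻¹ ∈ K) {b : G}
    (hb : ∀ t ∈ S, t * b * t⁻¹ * b⁻¹ ∈ K) :
    ∀ a ∈ Subgroup.closure S, a * b * a⁻¹ * b⁻¹ ∈ K := by
  intro a ha
  induction ha using Subgroup.closure_induction with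
  | mem t ht => exact hb t ht
  | one => simp
  | mul a a' ha ha' h h' =>
    have e : a * a' * b * (a * a')⁻¹ * b⁻¹ =
        a * (a' * b * a'⁻¹ * b⁻¹) * a⁻¹ * (a * b * a⁻¹ * b⁻¹) := by group
    rw [e]
    exact K.mul_mem (hK a ha _ h') h
  | inv a ha h =>
    have e : a⁻¹ * b * a⁻¹⁻¹ * b⁻¹ = a⁻¹ * (a * b * a⁻¹ * b⁻¹)⁻¹ * a⁻¹⁻¹ := by group
    rw [e]
    exact hK _ ((Subgroup.closure S).inv_mem ha) _ (K.inv_mem h)

theorem Der_norm {G : Type} [Group G] [Finite G] {S S' : Set G}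
    (h : ∀ c ∈ S, ∀ x ∈ S', c * x * c⁻¹ ∈ Subgroup.closure S') :
    ∀ c ∈ Subgroup.closure S, ∀ x ∈ Subgroup.closure S', c * x * c⁻¹ ∈ Subgroup.closure S' := by
  have h1 : ∀ c ∈ S, ∀ x ∈ Subgroup.closure S', c * x * c⁻¹ ∈ Subgroup.closure S' := by
    intro c hc x hx
    induction hx using Subgroup.closure_induction with
    | mem t ht => exact h c hc t ht
    | one => simp
    | mul a a' ha ha' h h' =>
      have e : c * (a * a') * c⁻¹ = c * a * c⁻¹ * (c * a' * c⁻¹) := by group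
      rw [e]
      exact Subgroup.mul_mem _ h h'
    | inv a ha h =>
      have e : c * a⁻¹ * c⁻¹ = (c * a * c⁻¹)⁻¹ := by group
      rw [e]
      exact Subgroup.inv_mem _ h
  have h2 : Subgroup.closure S ≤ Subgroup.normalizer (Subgroup.closure S' : Set G) :=
    (Subgroup.closure_le _).2 fun c hc => Subgroup.mem_normalizer_fintype (h1 c hc)
  intro c hc x hx
  exact (Subgroup.mem_normalizer_iff.1 (h2 hc) x).1 hx

theorem Der_commL (a b : Perm (Fin n)) : commL n (pl a) (pl b) = pl (a * b * a⁻¹ * b⁻¹) := by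
  rw [commL, invL_pl, invL_pl, mulL_pl, mulL_pl, mulL_pl]

theorem derT_spec (T : List (Perm (Fin n))) :
    ∃ T' : List (Perm (Fin n)), derT n (T.map pl) = T'.map pl ∧
      Subgroup.closure {x | x ∈ T'} =
        ⁅Subgroup.closure {x | x ∈ T}, Subgroup.closure {x | x ∈ T}⁆ := by
  obtain ⟨T', h1, h2, h3, h4⟩ :=
    closeT_spec (T.flatMap fun a => T.map fun b => a * b * a⁻¹ * b⁻¹) T
  refine ⟨T', ?_, le_antisymm ?_ ?_⟩
  · rw [← h1, derT]
    congr 1
    simp only [List.flatMap_map, List.map_flatMap, List.map_map, Function.comp_def, Der_commL]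
  · refine (Subgroup.closure_le _).2 fun x hx => h2 _ ?_ ?_ x hx
    · intro g hg
      obtain ⟨a, ha, hg⟩ := List.mem_flatMap.1 hg
      obtain ⟨b, hb, rfl⟩ := List.mem_map.1 hg
      exact Subgroup.commutator_mem_commutator (Subgroup.subset_closure ha)
        (Subgroup.subset_closure hb)
    · intro c hc y hy
      have e : c * y * c⁻¹ = c * y * c⁻¹ * y⁻¹ * y := by group
      rw [e]
      refine Subgroup.mul_mem _ ?_ hy
      refine Subgroup.commutator_mem_commutator (Subgroup.subset_closure hc) ?_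
      refine Subgroup.commutator_le.2 (fun a ha b hb => ?_) hy
      exact Subgroup.mul_mem _ (Subgroup.mul_mem _ (Subgroup.mul_mem _ ha hb)
        (Subgroup.inv_mem _ ha)) (Subgroup.inv_mem _ hb)
  · have hK := Der_norm (S := {x | x ∈ T}) (S' := {x | x ∈ T'}) h4
    refine Subgroup.commutator_le.2 fun a ha b hb => ?_
    refine Der_comm hK (fun t ht => ?_) a ha
    have e : t * b * t⁻¹ * b⁻¹ = (b * t * b⁻¹ * t⁻¹)⁻¹ := by group
    rw [e]
    refine Subgroup.inv_mem _ (Der_comm hK (fun u hu => h3 _ ?_) b hb)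
    exact List.mem_flatMap.2 ⟨u, hu, List.mem_map.2 ⟨t, ht, rfl⟩⟩

theorem Der_iter (T : List (Perm (Fin n))) (i : ℕ) :
    ∃ T' : List (Perm (Fin n)), (derT n)^[i] (T.map pl) = T'.map pl ∧
      Subgroup.closure {x | x ∈ T'} = dser (Subgroup.closure {x | x ∈ T}) i := by
  induction i with
  | zero => exact ⟨T, rfl, rfl⟩
  | succ i ih =>
    obtain ⟨T', h1, h2⟩ := ih
    obtain ⟨T'', h3, h4⟩ := derT_spec T'
    refine ⟨T'', ?_, ?_⟩
    · rw [Function.iterate_succ_apply', h1, h3]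
    · rw [h4, h2, dser]

theorem allD_spec (T : List (Perm (Fin n))) :
    ∃ S : ℕ → List (Perm (Fin n)),
      allD n (T.map pl) = ((List.range (n * n)).flatMap S).map pl ∧
      ∀ i, Subgroup.closure {x | x ∈ S i} = dser (Subgroup.closure {x | x ∈ T}) i := by
  choose S h1 h2 using Der_iter T
  refine ⟨S, ?_, h2⟩
  simp only [allD, h1, List.map_flatMap]

theorem solvB_spec (T : List (Perm (Fin n))) :
    solvB n (T.map pl) = true ↔ Group.IsSolvable (Subgroup.closure {x | x ∈ T}) := by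
  obtain ⟨T', h1, h2⟩ := Der_iter T (n * n)
  rw [solvable_iff_dser, ← h2, solvB, h1, Subgroup.closure_eq_bot_iff, List.all_eq_true]
  constructor
  · intro h x hx
    have h3 := h (pl x) (List.mem_map.2 ⟨x, hx, rfl⟩)
    rw [beq_iff_eq, ← pl_one] at h3
    exact pl_inj h3
  · intro h g hg
    obtain ⟨x, hx, rfl⟩ := List.mem_map.1 hg
    have h3 : x = 1 := h hx
    rw [beq_iff_eq, h3, pl_one]

end Pool.Agent.P.MP_9e61a4_lc
end

-- part Pool.Agent.P.MP_9e61a4_lc.GrpA
section

/-! Wielandt closure and the growth of `p`-subgroups. -/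

namespace Pool.Agent.P.MP_9e61a4_lc

open Equiv

variable {V : Type} [Finite V] {p : ℕ} [Fact p.Prime]

omit [Finite V] in
theorem GrpA_key {q : ℕ} (hq : p.Coprime q) {g : Perm V} (hg : g ^ q = 1) (v : V) (n : ℕ) :
    ∀ (G : Type) [Group G] [Finite G] [MulAction G V], Nat.card G = n → IsPGroup p G →
      (∀ a b : G, ∃ l : G, l • a • v = g (a • v) ∧ l • b • v = g (b • v)) → g v = v := by
  induction n using Nat.strong_induction_on with
  | _ n ih =>
  intro G _ _ _ hn hG h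
  rcases eq_top_or_exists_le_coatom (MulAction.stabilizer G v) with hS | ⟨M, hM, hSM⟩
  · obtain ⟨l, hl, -⟩ := h 1 1
    rw [one_smul] at hl
    have : l ∈ MulAction.stabilizer G v := hS ▸ Subgroup.mem_top l
    rw [← hl]
    exact this
  · have := hG.isNilpotent
    have hN : M.Normal :=
      Subgroup.NormalizerCondition.normal_of_coatom M Group.normalizerCondition_of_isNilpotent hM
    have key : ∀ a l l' : G, l • a • v = l' • a • v → (l : G ⧸ M) = (l' : G ⧸ M) := by
      intro a l l' e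
      have h1 : a⁻¹ * (l⁻¹ * l') * a ∈ MulAction.stabilizer G v := by
        rw [MulAction.mem_stabilizer_iff, mul_smul, mul_smul, mul_smul, ← e, inv_smul_smul,
          inv_smul_smul]
      have h2 := hN.conj_mem _ (hSM h1) a
      refine QuotientGroup.eq.2 ?_
      simpa [mul_assoc] using h2
    obtain ⟨l0, hl0, -⟩ := h 1 1
    have k1 : ∀ a l : G, l • a • v = g (a • v) → (l : G ⧸ M) = (l0 : G ⧸ M) := by
      intro a l e
      obtain ⟨l', e1, e2⟩ := h 1 a
      exact (key a l l' (e.trans e2.symm)).trans (key 1 l' l0 (e1.trans hl0.symm))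
    have k2 : ∀ i : ℕ, ∃ l : G, l • v = (g ^ i) v ∧ (l : G ⧸ M) = (l0 : G ⧸ M) ^ i := by
      intro i
      induction i with
      | zero => exact ⟨1, by simp, by simp⟩
      | succ i ih =>
        obtain ⟨a, e1, e2⟩ := ih
        obtain ⟨l, e3, -⟩ := h a a
        refine ⟨l * a, ?_, ?_⟩
        · rw [mul_smul, e3, e1, pow_succ', Perm.mul_apply]
        · rw [QuotientGroup.mk_mul, e2, k1 a l e3, pow_succ']
    have k3 : (l0 : G ⧸ M) = 1 := by
      obtain ⟨l, e1, e2⟩ := k2 q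
      rw [hg, Perm.one_apply] at e1
      have h1 : (l : G ⧸ M) = 1 := (QuotientGroup.eq_one_iff l).2 (hSM e1)
      apply ((hG.to_quotient M).powEquiv hq).injective
      rw [IsPGroup.powEquiv_apply, IsPGroup.powEquiv_apply, ← e2, h1, one_pow]
    have hlt : Nat.card M < n := by
      rw [← hn]
      exact lt_of_le_of_ne M.card_le_card_group fun e => hM.1 (M.eq_top_of_card_eq e)
    refine ih _ hlt M rfl (hG.to_subgroup M) fun a b => ?_
    obtain ⟨l, e1, e2⟩ := h a b
    exact ⟨⟨l, (QuotientGroup.eq_one_iff l).1 ((k1 a l e1).trans k3)⟩, e1, e2⟩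

/-- The closure of a `p`-group on pairs is a `p`-group. -/
theorem wielandt (H L : Subgroup (Perm V)) (hL : IsPGroup p L) : IsPGroup p (clo H L) := by
  intro g
  have hp : p.Prime := Fact.out
  obtain ⟨a, q, hq, e⟩ := Nat.exists_eq_pow_mul_and_not_dvd (orderOf_pos g).ne' p hp.ne_one
  refine ⟨a, Subtype.ext (Equiv.ext fun v => ?_)⟩
  have h1 : (g ^ p ^ a) ^ q = 1 := by rw [← pow_mul, ← e, pow_orderOf_eq_one]
  refine GrpA_key (hp.coprime_iff_not_dvd.2 hq) (g := (g ^ p ^ a).1) (congrArg Subtype.val h1) v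
    _ L rfl hL fun x y => ?_
  obtain ⟨l, hl, e1⟩ := (g ^ p ^ a).2.2 (x • v, y • v)
  exact ⟨⟨l, hl⟩, congrArg Prod.fst e1, congrArg Prod.snd e1⟩

omit [Finite V] [Fact p.Prime] in
theorem orb_clo {H L : Subgroup (Perm V)} (h : L ≤ H) (a b : V × V) :
    Orb (clo H L) a b ↔ Orb L a b := by
  constructor
  · rintro ⟨l, hl, rfl⟩
    exact hl.2 a
  · rintro ⟨l, hl, rfl⟩
    exact ⟨l, ⟨h hl, fun c => ⟨l, hl, rfl⟩⟩, rfl⟩

omit [Finite V] in
theorem GrpA_refl (L : Subgroup (Perm V)) (a : V × V) : Orb L a a := ⟨1, L.one_mem, one_smul _ _⟩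

omit [Finite V] in
theorem GrpA_symm {L : Subgroup (Perm V)} {a b : V × V} (h : Orb L a b) : Orb L b a := by
  obtain ⟨l, hl, rfl⟩ := h
  exact ⟨l⁻¹, L.inv_mem hl, inv_smul_smul _ _⟩

omit [Finite V] in
theorem GrpA_trans {L : Subgroup (Perm V)} {a b c : V × V} (h : Orb L a b) (h' : Orb L b c) :
    Orb L a c := by
  obtain ⟨l, hl, rfl⟩ := h
  obtain ⟨l', hl', rfl⟩ := h'
  exact ⟨l' * l, L.mul_mem hl' hl, mul_smul _ _ _⟩

omit [Finite V] in
theorem GrpA_pow {L : Subgroup (Perm V)} {g : Perm V} (hp : Pres L g) (i : ℕ) :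
    Pres L (g ^ i) := by
  induction i with
  | zero => intro a b; simp
  | succ i ih =>
    intro a b
    rw [pow_succ', mul_smul, mul_smul]
    exact (hp _ _).trans (ih a b)

omit [Finite V] in
theorem GrpA_norm {H L : Subgroup (Perm V)} {g : Perm V} (hg : g ∈ H) (hp : Pres L g) :
    g ∈ Subgroup.normalizer (clo H L : Set (Perm V)) := by
  refine Subgroup.mem_normalizer_iff.2 fun x => ⟨fun hx => ⟨?_, fun a => ?_⟩, fun hx => ⟨?_, fun a => ?_⟩⟩
  · exact H.mul_mem (H.mul_mem hg hx.1) (H.inv_mem hg)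
  · have := (hp _ _).2 (hx.2 (g⁻¹ • a))
    rwa [smul_inv_smul, ← mul_smul, ← mul_smul] at this
  · have := H.mul_mem (H.mul_mem (H.inv_mem hg) hx.1) hg
    simpa [mul_assoc] using this
  · have := hx.2 (g • a)
    rw [mul_smul, inv_smul_smul, mul_smul] at this
    exact (hp _ _).1 this

theorem grow_step {H L : Subgroup (Perm V)} (h : L ≤ H) (hL : IsPGroup p L) {g : Perm V}
    (hg : g ∈ H) (hp : Pres L g) (hk : ∃ k, g ^ p ^ k = 1) :
    ∃ L' ≤ H, IsPGroup p L' ∧ ∀ a b, Orb L' a b ↔ ∃ i : ℕ, Orb L (g ^ i • a) b := by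
  obtain ⟨k, hk⟩ := hk
  have hz : IsPGroup p (Subgroup.zpowers g) := by
    rintro ⟨_, j, rfl⟩
    refine ⟨k, Subtype.ext ?_⟩
    change (g ^ j) ^ p ^ k = 1
    rw [← zpow_natCast, ← zpow_mul, mul_comm, zpow_mul, zpow_natCast, hk, one_zpow]
  have hpos : 0 < p ^ k := pow_pos (Fact.out : p.Prime).pos k
  let K : Subgroup (Perm V) :=
    { carrier := {x | ∃ i : ℕ, ∀ a : V × V, Orb L (g ^ i • a) (x • a)}
      one_mem' := ⟨0, fun a => by rw [pow_zero]; exact GrpA_refl L _⟩
      mul_mem' := by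
        rintro x y ⟨i, hi⟩ ⟨j, hj⟩
        refine ⟨i + j, fun a => ?_⟩
        rw [pow_add, mul_smul, mul_smul]
        exact GrpA_trans ((GrpA_pow hp i _ _).2 (hj a)) (hi _)
      inv_mem' := by
        rintro x ⟨i, hi⟩
        refine ⟨i * (p ^ k - 1), fun a => ?_⟩
        have h1 := (GrpA_pow hp (i * (p ^ k - 1)) _ _).2 (hi (x⁻¹ • a))
        have h2 : g ^ (i * (p ^ k - 1)) * g ^ i = 1 := by
          rw [← pow_add, ← Nat.mul_succ, Nat.succ_eq_add_one, Nat.sub_add_cancel hpos, mul_comm,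
            pow_mul, hk, one_pow]
        rw [smul_inv_smul, ← mul_smul, h2, one_smul] at h1
        exact GrpA_symm h1 }
  have hK : clo H L ⊔ Subgroup.zpowers g ≤ K :=
    sup_le (fun x hx => ⟨0, fun a => by rw [pow_zero, one_smul]; exact hx.2 a⟩)
      (Subgroup.zpowers_le.2 ⟨1, fun a => by rw [pow_one]; exact GrpA_refl L _⟩)
  refine ⟨clo H L ⊔ Subgroup.zpowers g, sup_le (fun x hx => hx.1) (Subgroup.zpowers_le.2 hg),
    (wielandt H L hL).to_sup_of_normal_left' hz (Subgroup.zpowers_le.2 (GrpA_norm hg hp)),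
    fun a b => ⟨?_, ?_⟩⟩
  · rintro ⟨x, hx, rfl⟩
    obtain ⟨i, hi⟩ := hK hx
    exact ⟨i, hi a⟩
  · rintro ⟨i, l, hl, rfl⟩
    refine ⟨l * g ^ i, Subgroup.mul_mem_sup ⟨h hl, fun c => ⟨l, hl, rfl⟩⟩ ?_, mul_smul _ _ _⟩
    exact Subgroup.pow_mem _ (Subgroup.mem_zpowers g) i

theorem maxP_of_fix {H L : Subgroup (Perm V)} (h : L ≤ H) (hL : IsPGroup p L)
    (hfix : ∀ g ∈ H, Pres L g → (∃ k, g ^ p ^ k = 1) → g ∈ clo H L) : MaxP p H (clo H L) := by
  refine ⟨fun x hx => hx.1, wielandt H L hL, fun Q hQ hp hK => le_antisymm ?_ hK⟩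
  have := hp.isNilpotent
  rw [← Subgroup.subgroupOf_eq_top]
  refine normalizerCondition_iff_only_full_group_self_normalizing.1
    Group.normalizerCondition_of_isNilpotent _ (le_antisymm (fun x hx => ?_) Subgroup.le_normalizer)
  have hx' := Subgroup.mem_normalizer_iff.1 hx
  refine hfix x (hQ x.2) (fun a b => ?_) ((hp x).imp fun k e => congrArg Subtype.val e)
  rw [← orb_clo h, ← orb_clo h]
  constructor
  · rintro ⟨l, hl, e⟩
    refine ⟨x⁻¹ * l * x, (hx' (x⁻¹ * ⟨l, hK hl⟩ * x)).2 ?_, ?_⟩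
    · have : x * (x⁻¹ * ⟨l, hK hl⟩ * x) * x⁻¹ = ⟨l, hK hl⟩ := by group
      rw [this]
      exact hl
    · rw [mul_smul, mul_smul, e]
      exact inv_smul_smul _ _
  · rintro ⟨l, hl, rfl⟩
    refine ⟨x * l * x⁻¹, (hx' ⟨l, hK hl⟩).1 hl, ?_⟩
    rw [mul_smul, mul_smul]
    congr 2
    exact inv_smul_smul _ _

omit [Finite V] in
theorem exists_swap {H L : Subgroup (Perm V)} {g : Perm V} (hg : g ∈ H) (hp : Pres L g)
    (hk : ∃ k, g ^ 2 ^ k = 1) (hn : g ∉ clo H L) :
    ∃ s ∈ H, Pres L s ∧ ∃ a, ¬Orb L (s • a) a ∧ Orb L (s • s • a) a := by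
  obtain ⟨k, hk⟩ := hk
  obtain ⟨a, ha⟩ : ∃ a, ¬Orb L (g • a) a := by
    by_contra hc
    exact hn ⟨hg, fun a => GrpA_symm (not_not.1 fun h => hc ⟨a, h⟩)⟩
  clear hn
  induction k generalizing g with
  | zero =>
    rw [pow_zero, pow_one] at hk
    rw [hk, one_smul] at ha
    exact absurd (GrpA_refl L a) ha
  | succ k ih =>
    by_cases h2 : Orb L (g • g • a) a
    · exact ⟨g, hg, hp, a, ha, h2⟩
    · refine ih (H.pow_mem hg 2) (GrpA_pow hp 2) ?_ ?_
      · rw [← pow_mul, ← pow_succ', hk]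
      · rwa [pow_two, mul_smul]

omit [Finite V] in
theorem swap_odd {L : Subgroup (Perm V)} {h : Perm V} (hp : Pres L h) {a : V × V}
    (h1 : ¬Orb L (h • a) a) (h2 : Orb L (h • h • a) a) {M : ℕ} (hM : M.Coprime 2) :
    ¬Orb L (h ^ M • a) a := by
  obtain ⟨m, rfl⟩ : Odd M := Nat.coprime_two_right.1 hM
  have k : ∀ j : ℕ, Orb L (h ^ (2 * j) • a) a := by
    intro j
    induction j with
    | zero => rw [mul_zero, pow_zero, one_smul]; exact GrpA_refl L a
    | succ j ih =>
      rw [Nat.mul_succ, pow_add, pow_two, mul_smul, mul_smul]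
      exact GrpA_trans ((GrpA_pow hp _ _ _).2 h2) ih
  intro h3
  rw [pow_succ', mul_smul] at h3
  exact h1 (GrpA_trans (GrpA_symm ((hp _ _).2 (k m))) h3)

end Pool.Agent.P.MP_9e61a4_lc
end

-- part Pool.Agent.P.MP_9e61a4_lc.Loop
section

/-! The loop computes the orbits on pairs of a Sylow subgroup. -/

namespace Pool.Agent.P.MP_9e61a4_lc

open Equiv

variable {n : ℕ} {t : Mat × Mat → Bool}

theorem Loop_refl {V : Type} (L : Subgroup (Perm V)) (a : V × V) : Orb L a a :=
  ⟨1, L.one_mem, one_smul _ _⟩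

theorem Loop_symm {V : Type} {L : Subgroup (Perm V)} {a b : V × V} (h : Orb L a b) : Orb L b a := by
  obtain ⟨l, hl, e⟩ := h
  exact ⟨l⁻¹, L.inv_mem hl, by rw [← e, inv_smul_smul]⟩

theorem Loop_mem {G : SimpleGraph (Fin n)} {Rs : List Mat} {R : Mat}
    {L : Subgroup (Perm (Fin n))} (hR : ∀ a b, srel R a b ↔ Orb L a b) (g : Perm (Fin n)) :
    g ∈ AutS G (R :: Rs) ↔ g ∈ AutS G Rs ∧ Pres L g := by
  change Maps G (R :: Rs) G (R :: Rs) g ↔ Maps G Rs G Rs g ∧ _
  rw [maps_cons]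
  simp only [hR, Pres]

theorem Loop_dser_le {V : Type} (N : Subgroup (Perm V)) (i : ℕ) : dser N i ≤ N := by
  induction i with
  | zero => exact le_rfl
  | succ i ih =>
    refine le_trans (Subgroup.commutator_le.2 fun a ha b hb => ?_) ih
    rw [commutatorElement_def]
    exact mul_mem (mul_mem (mul_mem ha hb) (inv_mem ha)) (inv_mem hb)

theorem Loop_cands (ht : Tests t) (G : SimpleGraph (Fin n)) (Rs : List Mat) {p : ℕ}
    [Fact p.Prime] (hp : p = 2 ∨ Group.IsSolvable (AutS G Rs)) {R : Mat}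
    {L : Subgroup (Perm (Fin n))} (hR : ∀ a b, srel R a b ↔ Orb L a b) :
    ∃ C : List (Perm (Fin n)), cands t (adjMat G) (R :: Rs) = C.map pl ∧
      (∀ c ∈ C, c ∈ AutS G Rs ∧ Pres L c) ∧
      ((∀ c ∈ C, ∀ a, Orb L (c ^ Mn n p • a) a) →
        ∀ g ∈ AutS G Rs, Pres L g → (∃ k, g ^ p ^ k = 1) → g ∈ clo (AutS G Rs) L) := by
  obtain ⟨S, hS, hS1, hS2⟩ := swaps_spec ht G (R :: Rs)
  obtain ⟨T, hT, hT1⟩ := gens_spec ht G (R :: Rs)
  obtain ⟨D, hD, hD1⟩ := allD_spec T
  rw [hT1] at hD1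
  have hDm : ∀ i, ∀ x ∈ D i, x ∈ AutS G (R :: Rs) := fun i x hx =>
    Loop_dser_le _ i (hD1 i ▸ Subgroup.subset_closure hx)
  refine ⟨S ++ (List.range (n * n)).flatMap D, ?_, fun c hc => (Loop_mem hR c).1 ?_,
    fun hC g hg hgp hk => ?_⟩
  · rw [cands, hS, hT, length_adjMat, hD, List.map_append]
  · rcases List.mem_append.1 hc with hc | hc
    · exact hS1 c hc
    · obtain ⟨i, -, hi⟩ := List.mem_flatMap.1 hc
      exact hDm i c hi
  rcases hp with rfl | hp
  · by_contra hn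
    obtain ⟨s, hs, hsp, a, h1, h2⟩ := exists_swap hg hgp hk hn
    obtain ⟨h, hh, e1, e2⟩ := hS2 s ((Loop_mem hR s).2 ⟨hs, hsp⟩) a
    exact swap_odd ((Loop_mem hR h).1 (hS1 h hh)).2 (a := a) (by rwa [e1]) (by rwa [e1, e2])
      (Mn_coprime Nat.prime_two n) (hC h (List.mem_append_left _ hh) a)
  · have hle : AutS G (R :: Rs) ≤ AutS G Rs := fun x hx => ((Loop_mem hR x).1 hx).1
    have hsol : Group.IsSolvable (AutS G (R :: Rs)) :=
      Group.isSolvable_of_isSolvable_injective (Subgroup.inclusion_injective hle)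
    refine mem_of_dser (p := p) (N := AutS G (R :: Rs)) (fun f hf k hk => ?_)
      ((solvable_iff_dser _).1 hsol) (fun i => {x | x ∈ D i}) (fun i _ => hD1 i)
      (Mn_coprime Fact.out n) (fun i hi s hs => ?_) ((Loop_mem hR g).2 ⟨hg, hgp⟩) hk
    · obtain ⟨hf1, hf2⟩ := (Loop_mem hR f).1 hf
      refine ⟨mul_mem (mul_mem hf1 hk.1) (inv_mem hf1), fun a => ?_⟩
      have := (hf2 _ _).2 (hk.2 (f⁻¹ • a))
      rwa [smul_inv_smul, ← mul_smul, ← mul_smul] at this
    · exact ⟨pow_mem (hle (hDm i s hs)) _, fun a => Loop_symm (hC s (List.mem_append_right _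
        (List.mem_flatMap.2 ⟨i, List.mem_range.2 hi, hs⟩)) a)⟩

theorem Loop_pres_pow {V : Type} {L : Subgroup (Perm V)} {g : Perm V} (h : Pres L g) (k : ℕ) :
    Pres L (g ^ k) := by
  induction k with
  | zero => intro a b; simp
  | succ k ih => intro a b; rw [pow_succ', mul_smul, mul_smul, h, ih]

open Classical in
/-- The number of related pairs. -/
noncomputable def Loop_mu (n : ℕ) (R : Mat) : ℕ :=
  (Finset.univ.filter fun x : (Fin n × Fin n) × Fin n × Fin n => srel R x.1 x.2).card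

theorem Loop_mu_le (n : ℕ) (R : Mat) : Loop_mu n R ≤ n ^ 4 := by
  classical
  refine (Finset.card_le_univ _).trans (le_of_eq ?_)
  simp only [Fintype.card_prod, Fintype.card_fin]
  ring

theorem Loop_step (ht : Tests t) (G : SimpleGraph (Fin n)) (Rs : List Mat) {p : ℕ}
    [Fact p.Prime] (hp : p = 2 ∨ Group.IsSolvable (AutS G Rs)) {R : Mat}
    {L : Subgroup (Perm (Fin n))} (hL : L ≤ AutS G Rs) (hL' : IsPGroup p L)
    (hR : ∀ a b, srel R a b ↔ Orb L a b) :
    (stepR t (adjMat G) Rs p R = R ∧ MaxP p (AutS G Rs) (clo (AutS G Rs) L)) ∨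
    (Loop_mu n R < Loop_mu n (stepR t (adjMat G) Rs p R) ∧ ∃ L' ≤ AutS G Rs, IsPGroup p L' ∧
      ∀ a b, srel (stepR t (adjMat G) Rs p R) a b ↔ Orb L' a b) := by
  classical
  obtain ⟨C, hC, hC1, hC2⟩ := Loop_cands ht G Rs hp hR
  have hg : ∀ h, h ∈ good t (adjMat G) Rs p R ↔
      ∃ c ∈ C, h = pl (c ^ Mn n p) ∧ ∃ a, ¬Orb L (c ^ Mn n p • a) a := by
    intro h
    rw [good, hC, length_adjMat, List.mem_filter, List.map_map, List.mem_map]
    constructor
    · rintro ⟨⟨c, hc, rfl⟩, h2⟩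
      simp only [Function.comp, pwM_pl, moved_pl, hR] at h2 ⊢
      exact ⟨c, hc, rfl, h2⟩
    · rintro ⟨c, hc, rfl, h2⟩
      exact ⟨⟨c, hc, pwM_pl p c⟩, by simpa only [moved_pl, hR] using h2⟩
  rw [stepR]
  cases e : good t (adjMat G) Rs p R with
  | nil =>
    refine Or.inl ⟨by simp, maxP_of_fix hL hL' (hC2 fun c hc a => ?_)⟩
    by_contra hn
    have := (hg _).2 ⟨c, hc, rfl, a, hn⟩
    simp [e] at this
  | cons h r =>
    obtain ⟨c, hc, rfl, a, ha⟩ := (hg h).1 (by simp [e])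
    obtain ⟨L', h1, h2, h3⟩ := grow_step hL hL' (pow_mem (hC1 c hc).1 (Mn n p))
      (Loop_pres_pow (hC1 c hc).2 _) (pow_Mn Fact.out c)
    have h4 : ∀ a b, srel (upd n R (pl (c ^ Mn n p))) a b ↔ Orb L' a b := by
      intro a b
      rw [srel_upd]
      simp only [hR, ← h3]
      exact ⟨fun h => h.elim (fun h => h ▸ Loop_refl _ _) fun h => h.elim id Loop_symm,
        fun h => Or.inr (Or.inl h)⟩
    simp only [List.isEmpty_cons, Bool.false_eq_true, if_false, List.headD_cons, length_adjMat]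
    refine Or.inr ⟨Finset.card_lt_card ((Finset.ssubset_iff_of_subset fun x hx => ?_).2
      ⟨(a, c ^ Mn n p • a), ?_, ?_⟩), L', h1, h2, h4⟩
    · simp only [Finset.mem_filter, Finset.mem_univ, true_and, h4, hR, h3] at hx ⊢
      exact ⟨0, by simpa using hx⟩
    · simp only [Finset.mem_filter, Finset.mem_univ, true_and, h4, h3]
      exact ⟨1, by simpa using Loop_refl _ _⟩
    · simp only [Finset.mem_filter, Finset.mem_univ, true_and, hR]
      exact fun h => ha (Loop_symm h)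

theorem loopR_spec (ht : Tests t) (G : SimpleGraph (Fin n)) (Rs : List Mat) {p : ℕ}
    [Fact p.Prime] (hp : p = 2 ∨ Group.IsSolvable (AutS G Rs)) :
    ∃ K, MaxP p (AutS G Rs) K ∧ clo (AutS G Rs) K = K ∧
      ∀ a b, srel (loopR t (adjMat G) Rs p) a b ↔ Orb K a b := by
  have key : ∀ i, ∃ L ≤ AutS G Rs, IsPGroup p L ∧
      (∀ a b, srel ((stepR t (adjMat G) Rs p)^[i] []) a b ↔ Orb L a b) ∧
      (i ≤ Loop_mu n ((stepR t (adjMat G) Rs p)^[i] []) ∨
        (stepR t (adjMat G) Rs p ((stepR t (adjMat G) Rs p)^[i] []) =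
          (stepR t (adjMat G) Rs p)^[i] [] ∧ MaxP p (AutS G Rs) (clo (AutS G Rs) L))) := by
    intro i
    induction i with
    | zero =>
      refine ⟨⊥, bot_le, IsPGroup.of_bot, fun a b => ?_, Or.inl (Nat.zero_le _)⟩
      simp [srel_nil, Orb]
    | succ i ih =>
      obtain ⟨L, h1, h2, h3, h4⟩ := ih
      rw [Function.iterate_succ_apply']
      rcases h4 with h4 | ⟨e, h4⟩
      · rcases Loop_step ht G Rs hp h1 h2 h3 with ⟨e, h⟩ | ⟨e, L', h5, h6, h7⟩
        · exact ⟨L, h1, h2, by rwa [e], Or.inr ⟨by rw [e, e], h⟩⟩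
        · exact ⟨L', h5, h6, h7, Or.inl (by omega)⟩
      · exact ⟨L, h1, h2, by rwa [e], Or.inr ⟨by rw [e, e], h4⟩⟩
  obtain ⟨L, h1, h2, h3, h4⟩ := key (n ^ 4 + 1)
  have h5 := Loop_mu_le n ((stepR t (adjMat G) Rs p)^[n ^ 4 + 1] [])
  refine ⟨clo (AutS G Rs) L, (h4.resolve_left (by omega)).2, ?_, fun a b => ?_⟩
  · ext g
    exact and_congr_right fun _ => forall_congr' fun a => orb_clo h1 _ _
  · rw [loopR, length_adjMat, h3, orb_clo h1]

end Pool.Agent.P.MP_9e61a4_lc
end

-- part Pool.Agent.P.MP_9e61a4_lc.Deco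
section

/-! The decoration is canonical up to isomorphism and leaves a nilpotent group. -/

namespace Pool.Agent.P.MP_9e61a4_lc

open Equiv

variable {n : ℕ} {t : Mat × Mat → Bool}

theorem Deco_conj {G H : SimpleGraph (Fin n)} {Rs Rs' : List Mat} {π : Perm (Fin n)}
    (h : Maps G Rs H Rs' π) (g : Perm (Fin n)) : g ∈ AutS G Rs ↔ π * g * π⁻¹ ∈ AutS H Rs' := by
  constructor
  · intro hg
    exact Maps.mul (Maps.mul h hg) h.inv
  · intro hg
    have h1 : Maps G Rs G Rs (π⁻¹ * (π * g * π⁻¹) * π) := Maps.mul (Maps.mul h.inv hg) h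
    have e : π⁻¹ * (π * g * π⁻¹) * π = g := by group
    rwa [e] at h1

theorem Deco_le (G : SimpleGraph (Fin n)) (R : Mat) (Rs : List Mat) :
    AutS G (R :: Rs) ≤ AutS G Rs := fun _ h => (maps_cons.1 h).1

theorem Deco_solv {A B : Subgroup (Perm (Fin n))} (h : A ≤ B) (hB : Group.IsSolvable B) :
    Group.IsSolvable A :=
  Group.isSolvable_of_isSolvable_injective (Subgroup.inclusion_injective h)

theorem Deco_solvB (ht : Tests t) (G : SimpleGraph (Fin n)) (Rs : List Mat) :
    solvB (adjMat G).length (gens t (adjMat G) Rs) = true ↔ Group.IsSolvable (AutS G Rs) := by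
  obtain ⟨T, h1, h2⟩ := gens_spec ht G Rs
  rw [length_adjMat, h1, solvB_spec, h2]

theorem Deco_loop (ht : Tests t) {G H : SimpleGraph (Fin n)} {Rs Rs' : List Mat} {p : ℕ}
    [Fact p.Prime] (hp : p = 2 ∨ Group.IsSolvable (AutS G Rs)) {π : Perm (Fin n)}
    (h : Maps G Rs H Rs' π) :
    ∃ ρ, Maps G (loopR t (adjMat G) Rs p :: Rs) H (loopR t (adjMat H) Rs' p :: Rs') ρ := by
  obtain ⟨K₁, a1, -, c1⟩ := loopR_spec ht G Rs hp
  obtain ⟨K₂, a2, -, c2⟩ := loopR_spec ht H Rs' (hp.imp id (solvable_conj (Deco_conj h)).1)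
  obtain ⟨g, hg, e⟩ := maxP_conj (Deco_conj h) a1 a2
  refine ⟨g * π, maps_cons.2 ⟨Maps.mul hg h, fun a b => ?_⟩⟩
  rw [c1, c2, e]

theorem Deco_normal (ht : Tests t) (G : SimpleGraph (Fin n)) (Rs : List Mat) {p : ℕ}
    [Fact p.Prime] (hp : p = 2 ∨ Group.IsSolvable (AutS G Rs)) {F : Subgroup (Perm (Fin n))}
    (hF : F ≤ AutS G (loopR t (adjMat G) Rs p :: Rs)) (P : Sylow p F) :
    (P : Subgroup F).Normal := by
  obtain ⟨K, a1, b1, c1⟩ := loopR_spec ht G Rs hp
  refine sylow_normal a1 b1 (hF.trans (Deco_le G _ _)) (fun f hf a b => ?_) P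
  rw [← c1, ← c1]
  exact (maps_cons.1 (hF hf)).2 a b

theorem Deco_step_le (G : SimpleGraph (Fin n)) (Rs : List Mat) (p : ℕ) :
    AutS G (primeStep t (adjMat G) Rs p) ≤ AutS G Rs := by
  unfold primeStep
  split_ifs
  · exact Deco_le G _ _
  · exact le_rfl

theorem Deco_fold_le (G : SimpleGraph (Fin n)) (l : List ℕ) :
    ∀ Rs, AutS G (l.foldl (primeStep t (adjMat G)) Rs) ≤ AutS G Rs := by
  induction l with
  | nil => exact fun _ => le_rfl
  | cons p l ih => exact fun Rs => (ih _).trans (Deco_step_le G Rs p)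

theorem Deco_fold_maps (ht : Tests t) {G H : SimpleGraph (Fin n)} (l : List ℕ) :
    ∀ Rs Rs', Group.IsSolvable (AutS G Rs) → (∃ π, Maps G Rs H Rs' π) →
      ∃ π, Maps G (l.foldl (primeStep t (adjMat G)) Rs) H
        (l.foldl (primeStep t (adjMat H)) Rs') π := by
  induction l with
  | nil => exact fun _ _ _ h => h
  | cons p l ih =>
    rintro Rs Rs' hs ⟨π, h⟩
    refine ih _ _ (Deco_solv (Deco_step_le G Rs p) hs) ?_
    unfold primeStep
    split_ifs with hp
    · have : Fact p.Prime := ⟨(primeB_iff p).1 hp⟩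
      exact Deco_loop ht (Or.inr hs) h
    · exact ⟨π, h⟩

theorem Deco_fold_normal (ht : Tests t) (G : SimpleGraph (Fin n)) {q : ℕ} [hq : Fact q.Prime]
    (l : List ℕ) : ∀ Rs, Group.IsSolvable (AutS G Rs) → q ∈ l →
      ∀ P : Sylow q (AutS G (l.foldl (primeStep t (adjMat G)) Rs)),
        (P : Subgroup (AutS G (l.foldl (primeStep t (adjMat G)) Rs))).Normal := by
  induction l with
  | nil => exact fun _ _ h => absurd h List.not_mem_nil
  | cons p l ih =>
    intro Rs hs hm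
    rcases List.mem_cons.1 hm with rfl | hm
    · refine Deco_normal ht G Rs (Or.inr hs) ((Deco_fold_le G l _).trans (le_of_eq ?_))
      rw [primeStep, if_pos ((primeB_iff q).2 hq.out)]
    · exact ih _ (Deco_solv (Deco_step_le G Rs p) hs) hm

theorem deco_canon (ht : Tests t) {G H : SimpleGraph (Fin n)} (h : Nonempty (G ≃g H)) :
    ∃ π, Maps G (deco t (adjMat G)) H (deco t (adjMat H)) π := by
  obtain ⟨e⟩ := h
  have h0 : Maps G [] H [] e.toEquiv :=
    ⟨fun u v => e.map_rel_iff, rfl, fun r hr => absurd hr (Nat.not_lt_zero r)⟩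
  obtain ⟨π, hπ⟩ := Deco_loop ht (p := 2) (Or.inl rfl) h0
  have hs := solvable_conj (Deco_conj hπ)
  unfold deco
  by_cases h1 : Group.IsSolvable (AutS G [loopR t (adjMat G) [] 2])
  · rw [if_pos ((Deco_solvB ht G _).2 h1), if_pos ((Deco_solvB ht H _).2 (hs.1 h1)),
      length_adjMat, length_adjMat]
    exact Deco_fold_maps ht _ _ _ h1 ⟨π, hπ⟩
  · rw [if_neg (fun h2 => h1 ((Deco_solvB ht G _).1 h2)),
      if_neg (fun h2 => h1 (hs.2 ((Deco_solvB ht H _).1 h2)))]
    exact ⟨π, hπ⟩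

theorem deco_class (ht : Tests t) (G : SimpleGraph (Fin n)) :
    (∀ P : Sylow 2 (AutS G (deco t (adjMat G))),
      (P : Subgroup (AutS G (deco t (adjMat G)))).Normal) ∧
    (Group.IsSolvable (AutS G (deco t (adjMat G))) →
      Group.IsNilpotent (AutS G (deco t (adjMat G)))) := by
  by_cases h1 : Group.IsSolvable (AutS G [loopR t (adjMat G) [] 2])
  · have e : deco t (adjMat G) =
        (List.range (n + 1)).foldl (primeStep t (adjMat G)) [loopR t (adjMat G) [] 2] := by
      rw [deco, if_pos ((Deco_solvB ht G _).2 h1), length_adjMat]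
    rw [e]
    refine ⟨Deco_normal ht G [] (Or.inl rfl) (Deco_fold_le G _ _), fun _ => ?_⟩
    exact nilpotent_of_small _ fun q _ hq =>
      Deco_fold_normal ht G _ _ h1 (List.mem_range.2 (Nat.lt_succ_of_le hq))
  · have e : deco t (adjMat G) = [loopR t (adjMat G) [] 2] := by
      rw [deco, if_neg (fun h2 => h1 ((Deco_solvB ht G _).1 h2))]
    rw [e]
    exact ⟨Deco_normal ht G [] (Or.inl rfl) le_rfl, fun h => absurd h h1⟩

end Pool.Agent.P.MP_9e61a4_lc
end

-- part Pool.Agent.P.MP_9e61a4_lc.PTb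
section

/-! Sifting tables and derived series run in polynomial time. -/

namespace Pool.Agent.P.MP_9e61a4_lc

open N487b59b3 N68a2faeb Pool.Agent.Lib.PolyTime

variable {α : Type} [N487b59b3 α]

theorem PTb_fixB_eq (i : ℕ) (g : PL) : fixB i g = fixB (min i (g.length + 2)) g := by
  rcases le_total i (g.length + 2) with h | h
  · rw [min_eq_left h]
  · rw [min_eq_right h]
    have key : ∀ m, g.length + 2 ≤ m → fixB m g = false := by
      intro m hm
      rw [fixB, List.all_eq_false]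
      refine ⟨g.length + 1, List.mem_range.2 (by omega), ?_⟩
      rw [List.getD_eq_default _ _ (by omega)]
      simp
    rw [key _ h, key _ le_rfl]

@[fun_prop] theorem PTb_fixB {i : α → ℕ} {g : α → PL} (hi : PT i) (hg : PT g) :
    PT fun a => fixB (i a) (g a) := by
  have h : PT fun a => (List.range (min (i a) ((g a).length + 2))).all
      fun l => (g a).getD l 0 == l := by fun_prop
  exact h.congr fun a => PTb_fixB_eq _ _

@[fun_prop] theorem PTb_lk {T : α → List PL} {i j : α → ℕ} (hT : PT T) (hi : PT i) (hj : PT j) :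
    PT fun a => lk (T a) (i a) (j a) := by
  unfold lk; fun_prop

@[fun_prop] theorem PTb_siftStep {n i : α → ℕ} {T : α → List PL} {g : α → PL} (hn : PT n)
    (hs : Small n) (hT : PT T) (hg : PT g) (hi : PT i) :
    PT fun a => siftStep (n a) (T a) (g a) (i a) := by
  unfold siftStep; fun_prop

theorem PTb_sz_siftStep (n : ℕ) (T : List PL) (g : PL) (i : ℕ) :
    sz (siftStep n T g i) ≤ sz g + n * (2 * n + 1) := by
  unfold siftStep
  split_ifs
  · exact (sz_mulL _ _ _).trans (Nat.le_add_left _ _)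
  · exact Nat.le_add_right _ _

@[fun_prop] theorem PTb_res {n : α → ℕ} {T : α → List PL} {g : α → PL} (hn : PT n)
    (hs : Small n) (hT : PT T) (hg : PT g) : PT fun a => res (n a) (T a) (g a) := by
  have hb : Small fun p : α × ℕ => n p.1 * (2 * n p.1 + 1) := by fun_prop
  have h : PT fun a => (List.range (n a)).foldl (siftStep (n a) (T a)) (g a) :=
    PT.foldl_growth (f := fun a => siftStep (n a) (T a)) (by fun_prop) hg (by fun_prop) _ hb
      fun a b x => PTb_sz_siftStep _ _ _ _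
  unfold res
  exact pt_mulL hn hs (by fun_prop) h

theorem PTb_sz_res (n : ℕ) (T : List PL) (g : PL) : sz (res n T g) ≤ n * (2 * n + 1) :=
  sz_mulL _ _ _

@[fun_prop] theorem PTb_addT {n : α → ℕ} {T : α → List PL} {g : α → PL} (hn : PT n)
    (hs : Small n) (hT : PT T) (hg : PT g) : PT fun a => addT (n a) (T a) (g a) := by
  unfold addT; fun_prop

theorem PTb_sz_addT (n : ℕ) (T : List PL) (g : PL) :
    sz (addT n T g) ≤ sz T + (2 * (n * (2 * n + 1)) + 1) := by
  unfold addT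
  split_ifs
  · exact Nat.le_add_right _ _
  · refine (sz_take_le _ _).trans ?_
    have := PTb_sz_res n T g
    simp only [sz_append, sz_cons, sz_nil]
    omega

@[fun_prop] theorem PTb_roundT {n : α → ℕ} {gs cs T : α → List PL} (hn : PT n)
    (hs : Small n) (hg : PT gs) (hc : PT cs) (hT : PT T) :
    PT fun a => roundT (n a) (gs a) (cs a) (T a) := by
  have hb : Small fun p : α × PL => 2 * (n p.1 * (2 * n p.1 + 1)) + 1 := by fun_prop
  unfold roundT
  exact PT.foldl_growth (f := fun a => addT (n a)) (by fun_prop) hT (by fun_prop) _ hb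
    fun a b x => PTb_sz_addT _ _ _

/-- The invariant of the sifting tables. -/
def PTb_Inv (n : ℕ) (T : List PL) : Prop :=
  T.length ≤ n * n + 1 ∧ ∀ x ∈ T, sz x ≤ n * (2 * n + 1)

theorem PTb_inv_addT {n : ℕ} {T : List PL} (h : PTb_Inv n T) (g : PL) :
    PTb_Inv n (addT n T g) := by
  unfold addT
  split_ifs
  · exact h
  · refine ⟨List.length_take_le _ _, fun x hx => ?_⟩
    rcases List.mem_append.1 (List.mem_of_mem_take hx) with h1 | h1
    · exact h.2 x h1
    · rw [List.mem_singleton.1 h1]; exact PTb_sz_res _ _ _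

theorem PTb_inv_foldl {n : ℕ} (l : List PL) {T : List PL} (h : PTb_Inv n T) :
    PTb_Inv n (l.foldl (addT n) T) := by
  induction l generalizing T with
  | nil => exact h
  | cons x l ih => exact ih (PTb_inv_addT h x)

theorem PTb_inv_iter (n : ℕ) (gs cs : List PL) (m : ℕ) :
    PTb_Inv n ((roundT n gs cs)^[m] [List.range n]) := by
  induction m with
  | zero =>
    refine ⟨by simp, fun x hx => ?_⟩
    rw [List.mem_singleton.1 hx]
    exact PT.sz_range_le n
  | succ m ih =>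
    rw [Function.iterate_succ_apply']
    exact PTb_inv_foldl _ ih

theorem PTb_sz_of_inv {n : ℕ} {T : List PL} (h : PTb_Inv n T) :
    sz T ≤ (n * n + 1) * (2 * (n * (2 * n + 1)) + 1) :=
  (sz_le_of_forall h.2).trans (Nat.mul_le_mul_right _ h.1)

@[fun_prop] theorem pt_closeT {n : α → ℕ} {gs cs : α → List PL} (hn : PT n) (hs : Small n)
    (hg : PT gs) (hc : PT cs) : PT fun a => closeT (n a) (gs a) (cs a) := by
  have hb : Small fun a => (n a * n a + 1) * (2 * (n a * (2 * n a + 1)) + 1) := by fun_prop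
  unfold closeT
  refine PT.iterate_nat (n := fun a => n a * n a + 1) (F := fun a => roundT (n a) (gs a) (cs a))
    (by fun_prop) (by fun_prop) (by fun_prop) (by fun_prop) ?_
  exact (PB.reindex hb fun p : {p : α × ℕ // p.2 ≤ n p.1 * n p.1 + 1} => p.1.1).mono
    fun p => PTb_sz_of_inv (PTb_inv_iter _ _ _ _)

@[fun_prop] theorem PTb_commL {n : α → ℕ} {g h : α → PL} (hn : PT n) (hs : Small n) (hg : PT g)
    (hh : PT h) : PT fun a => commL (n a) (g a) (h a) := by
  unfold commL; fun_prop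

@[fun_prop] theorem PTb_derT {n : α → ℕ} {T : α → List PL} (hn : PT n) (hs : Small n)
    (hT : PT T) : PT fun a => derT (n a) (T a) := by
  unfold derT; fun_prop

theorem PTb_sz_iter (n : ℕ) (T : List PL) (m : ℕ) :
    sz ((derT n)^[m] T) ≤ sz T + (n * n + 1) * (2 * (n * (2 * n + 1)) + 1) := by
  cases m with
  | zero => exact Nat.le_add_right _ _
  | succ m =>
    rw [Function.iterate_succ_apply']
    exact (PTb_sz_of_inv (PTb_inv_iter _ _ _ _)).trans (Nat.le_add_left _ _)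

theorem PTb_iter_derT {n k : α → ℕ} {T : α → List PL} (hn : PT n) (hs : Small n) (hT : PT T)
    (hk : PT k) (hk' : Small k) : PT fun a => (derT (n a))^[k a] (T a) := by
  have hb : Small fun a => sz (T a) + (n a * n a + 1) * (2 * (n a * (2 * n a + 1)) + 1) := by
    fun_prop
  refine PT.iterate_nat (F := fun a => derT (n a)) hk hk' hT (by fun_prop) ?_
  exact (PB.reindex hb fun p : {p : α × ℕ // p.2 ≤ k p.1} => p.1.1).mono
    fun p => PTb_sz_iter _ _ _

@[fun_prop] theorem pt_allD {n : α → ℕ} {T : α → List PL} (hn : PT n) (hs : Small n)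
    (hT : PT T) : PT fun a => allD (n a) (T a) := by
  have h : PT fun a => (List.range (n a * n a)).flatMap
      fun i => (derT (n a))^[min i (n a * n a)] (T a) :=
    PT.flatMap (f := fun a i => (derT (n a))^[min i (n a * n a)] (T a)) (by fun_prop)
      (PTb_iter_derT (n := fun p : α × ℕ => n p.1) (k := fun p : α × ℕ => min p.2 (n p.1 * n p.1))
        (T := fun p : α × ℕ => T p.1) (by fun_prop) (by fun_prop) (by fun_prop) (by fun_prop)
        (by fun_prop))
  refine h.congr fun a => ?_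
  unfold allD
  refine List.flatMap_congr fun i hi => ?_
  rw [min_eq_left (List.mem_range.1 hi).le]

@[fun_prop] theorem pt_solvB {n : α → ℕ} {T : α → List PL} (hn : PT n) (hs : Small n)
    (hT : PT T) : PT fun a => solvB (n a) (T a) := by
  have h : PT fun a => (derT (n a))^[n a * n a] (T a) :=
    PTb_iter_derT hn hs hT (by fun_prop) (by fun_prop)
  unfold solvB
  exact PT.all (f := fun a g => g == List.range (n a)) h (by fun_prop)

end Pool.Agent.P.MP_9e61a4_lc
end

-- part Pool.Agent.P.MP_9e61a4_lc.PTc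
section

/-! The reduction runs in polynomial time relative to the oracle. -/

namespace Pool.Agent.P.MP_9e61a4_lc

open N487b59b3 N68a2faeb Pool.Agent.Lib.PolyTime

variable {O : Str → Bool} {t : Mat × Mat → Bool}

section

variable {α β γ : Type} [N487b59b3 α] [N487b59b3 β] [N487b59b3 γ]
  {A R : α → Mat} {Rs : α → List Mat} {σ : α → List (ℕ × ℕ)} {x p : α → ℕ}

theorem PTc_post {g : α → β} (hg : Flex O g) (f : α × β → γ) (hf : PT f) :
    Flex O fun a => f (a, g a) := (Flex.of_pt hf).seq hg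

theorem PTc_okB (ht : Flex O t) (hA : PT A) (hR : PT Rs) (hσ : PT σ) :
    Flex O fun a => okB t (A a) (Rs a) (σ a) :=
  ht.comp (g := fun a => (gad (A a) (Rs a) ((σ a).map Prod.fst),
    gad (A a) (Rs a) ((σ a).map Prod.snd))) (Flex.of_pt (by fun_prop))

theorem PTc_extStep (ht : Flex O t) (hA : PT A) (hR : PT Rs) (hσ : PT σ) (hx : PT x) :
    Flex O fun a => extStep t (A a) (Rs a) (σ a) (x a) := by
  have h1 : Flex O fun a => (List.range (A a).length).filter
      fun y => okB t (A a) (Rs a) (σ a ++ [(x a, y)]) :=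
    Flex.filter (Flex.of_pt (by fun_prop))
      (PTc_okB (A := fun q : α × ℕ => A q.1) (Rs := fun q => Rs q.1)
        (σ := fun q => σ q.1 ++ [(x q.1, q.2)]) ht (by fun_prop) (by fun_prop) (by fun_prop))
  exact PTc_post h1 (fun q => σ q.1 ++ [(x q.1, q.2.headD 0)]) (by fun_prop)

end

theorem PTc_headD {n : ℕ} {l : List ℕ} (h : ∀ y ∈ l, y ≤ n) : l.headD 0 ≤ n := by
  cases l with
  | nil => exact Nat.zero_le _
  | cons y l => exact h y (by simp)

theorem PTc_sz_extStep (A : Mat) (Rs : List Mat) (σ : List (ℕ × ℕ)) {x : ℕ} (hx : x ≤ A.length) :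
    sz (extStep t A Rs σ x) ≤ sz σ + (6 * A.length + 3) := by
  have h1 : ((List.range A.length).filter fun y => okB t A Rs (σ ++ [(x, y)])).headD 0 ≤
      A.length := PTc_headD fun y hy => (List.mem_range.1 (List.mem_of_mem_filter hy)).le
  have h2 := (sz_le_self _).trans h1
  have h3 := (sz_le_self _).trans hx
  rw [extStep, sz_append, sz_cons, sz_pair, sz_nil]
  omega

theorem PTc_sz_loop (A : Mat) (Rs : List Mat) (p k : ℕ) : sz ((stepR t A Rs p)^[k] []) ≤
    A.length * A.length * (6 * (A.length * A.length) + 1) := by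
  induction k with
  | zero => exact Nat.zero_le _
  | succ k ih =>
    rw [Function.iterate_succ_apply', stepR]
    split_ifs
    · exact ih
    · exact sz_upd _ _ _

section

variable {α β γ : Type} [N487b59b3 α] [N487b59b3 β] [N487b59b3 γ]
  {A R : α → Mat} {Rs : α → List Mat} {σ : α → List (ℕ × ℕ)} {x p : α → ℕ}

theorem PTc_ext (ht : Flex O t) (hA : PT A) (hR : PT Rs) (hσ : PT σ) :
    Flex O fun a => ext t (A a) (Rs a) (σ a) := by
  have hs : Small fun a => sz (σ a) + (A a).length * (6 * (A a).length + 3) := by fun_prop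
  have h1 : Flex O fun a => (List.range (A a).length).foldl (extStep t (A a) (Rs a)) (σ a) := by
    refine Flex.foldl (f := fun a => extStep t (A a) (Rs a)) (Flex.of_pt (by fun_prop))
      (Flex.of_pt hσ) (PTc_extStep (A := fun q : α × List (ℕ × ℕ) × ℕ => A q.1)
        (Rs := fun q => Rs q.1) (σ := fun q => q.2.1) (x := fun q => q.2.2) ht (by fun_prop)
        (by fun_prop) (by fun_prop) (by fun_prop)) ?_
    refine (PB.reindex hs (Prod.fst : α × ℕ → α)).mono fun q => ?_
    refine (PT.sz_foldl_le (B := 6 * (A q.1).length + 3) _ _ fun b y hy =>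
      PTc_sz_extStep _ _ _ (List.mem_range.1 (List.mem_of_mem_take hy)).le).trans ?_
    have h2 : ((List.range (A q.1).length).take q.2).length ≤ (A q.1).length :=
      (List.length_take_le' _ _).trans List.length_range.le
    gcongr
  exact Flex.ite (PTc_okB ht hA hR hσ)
    (PTc_post h1 (fun q => (q.2.drop (σ q.1).length).map Prod.snd) (by fun_prop))
    (Flex.of_pt (by fun_prop))

theorem PTc_gens (ht : Flex O t) (hA : PT A) (hR : PT Rs) :
    Flex O fun a => gens t (A a) (Rs a) := by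
  have h1 : Flex O fun a => (List.range (A a).length).flatMap fun i =>
      (List.range (A a).length).map fun j =>
        ext t (A a) (Rs a) ((List.range (min i (A a).length)).map (fun l => (l, l)) ++ [(i, j)]) :=
    Flex.flatMap (Flex.of_pt (by fun_prop)) (Flex.map (Flex.of_pt (by fun_prop))
      (PTc_ext (A := fun q : (α × ℕ) × ℕ => A q.1.1) (Rs := fun q => Rs q.1.1)
        (σ := fun q => (List.range (min q.1.2 (A q.1.1).length)).map (fun l => (l, l)) ++
          [(q.1.2, q.2)]) ht (by fun_prop) (by fun_prop) (by fun_prop)))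
  refine h1.congr fun a => List.flatMap_congr fun i hi => ?_
  rw [min_eq_left (List.mem_range.1 hi).le]

theorem PTc_swaps (ht : Flex O t) (hA : PT A) (hR : PT Rs) :
    Flex O fun a => swaps t (A a) (Rs a) :=
  Flex.flatMap (Flex.of_pt (by fun_prop)) (Flex.flatMap (Flex.of_pt (by fun_prop))
    (Flex.map (Flex.of_pt (by fun_prop))
      (PTc_ext (A := fun q : ((α × ℕ × ℕ) × ℕ × ℕ) × ℕ × ℕ => A q.1.1.1)
        (Rs := fun q => Rs q.1.1.1)
        (σ := fun q => [(q.1.1.2.1, q.1.2.1), (q.1.1.2.2, q.1.2.2), (q.1.2.1, q.2.1),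
          (q.1.2.2, q.2.2)]) ht (by fun_prop) (by fun_prop) (by fun_prop))))

theorem PTc_cands (ht : Flex O t) (hA : PT A) (hR : PT Rs) :
    Flex O fun a => cands t (A a) (Rs a) :=
  PTc_post ((PTc_swaps ht hA hR).pair (PTc_gens ht hA hR))
    (fun q => q.2.1 ++ allD (A q.1).length q.2.2) (by fun_prop)

theorem PTc_good (ht : Flex O t) (hA : PT A) (hR : PT Rs) (hp : PT p) (hR' : PT R) :
    Flex O fun a => good t (A a) (Rs a) (p a) (R a) :=
  PTc_post (PTc_cands (Rs := fun a => R a :: Rs a) ht hA (by fun_prop))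
    (fun q => (q.2.map fun g => pwM (A q.1).length (p q.1) g).filter
      fun g => moved (A q.1).length (R q.1) g) (by fun_prop)

theorem PTc_stepR (ht : Flex O t) (hA : PT A) (hR : PT Rs) (hp : PT p) (hR' : PT R) :
    Flex O fun a => stepR t (A a) (Rs a) (p a) (R a) := by
  refine (PTc_post (PTc_good ht hA hR hp hR') (fun q => bif q.2.isEmpty then R q.1 else
    upd (A q.1).length (R q.1) (q.2.headD [])) (by fun_prop)).congr fun a => ?_
  rw [stepR, Bool.cond_eq_ite]

theorem PTc_loopR (ht : Flex O t) (hA : PT A) (hR : PT Rs) (hp : PT p) :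
    Flex O fun a => loopR t (A a) (Rs a) (p a) := by
  have hs : Small fun a =>
      (A a).length * (A a).length * (6 * ((A a).length * (A a).length) + 1) := by fun_prop
  exact Flex.iterate (n := fun a => (A a).length ^ 4 + 1) (s := fun _ => [])
    (F := fun a => stepR t (A a) (Rs a) (p a)) (by fun_prop) (by fun_prop)
    (Flex.of_pt (by fun_prop))
    (PTc_stepR (A := fun q : α × Mat => A q.1) (Rs := fun q => Rs q.1) (p := fun q => p q.1)
      (R := fun q => q.2) ht (by fun_prop) (by fun_prop) (by fun_prop) (by fun_prop))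
    ((PB.reindex hs (Prod.fst : α × ℕ → α)).mono fun q => PTc_sz_loop _ _ _ _)

end

/-- the step over primes with a bounded primality test -/
def PTc_step (t : Mat × Mat → Bool) (A : Mat) (Rs : List Mat) (p : ℕ) : List Mat :=
  if primeB (min p A.length) then loopR t A Rs p :: Rs else Rs

theorem PTc_sz_step (A : Mat) (Rs : List Mat) (p : ℕ) : sz (PTc_step t A Rs p) ≤
    sz Rs + (2 * (A.length * A.length * (6 * (A.length * A.length) + 1)) + 1) := by
  have h : sz (loopR t A Rs p) ≤ _ := PTc_sz_loop A Rs p _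
  rw [PTc_step]
  split_ifs
  · rw [sz_cons]
    omega
  · omega

theorem PTc_deco (ht : Flex O t) : Flex O (deco t) := by
  have hL : Flex O fun A : Mat => [loopR t A [] 2] :=
    PTc_post (PTc_loopR (A := fun A : Mat => A) (Rs := fun _ => []) (p := fun _ => 2) ht
      (by fun_prop) (by fun_prop) (by fun_prop)) (fun q => [q.2]) (by fun_prop)
  have hg : Flex O fun A : Mat => gens t A [loopR t A [] 2] :=
    (PTc_gens (A := fun q : Mat × List Mat => q.1) (Rs := fun q => q.2) ht (by fun_prop)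
      (by fun_prop)).seq hL
  have hc : Flex O fun A : Mat => solvB A.length (gens t A [loopR t A [] 2]) :=
    PTc_post hg (fun q => solvB q.1.length q.2) (by fun_prop)
  have hstep : Flex O fun q : Mat × List Mat × ℕ => PTc_step t q.1 q.2.1 q.2.2 :=
    Flex.ite (c := fun q : Mat × List Mat × ℕ => primeB (min q.2.2 q.1.length))
      (Flex.of_pt (by fun_prop))
      (PTc_post (PTc_loopR (A := fun q : Mat × List Mat × ℕ => q.1) (Rs := fun q => q.2.1)
        (p := fun q => q.2.2) ht (by fun_prop) (by fun_prop) (by fun_prop))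
        (fun q => q.2 :: q.1.2.1) (by fun_prop)) (Flex.of_pt (by fun_prop))
  have hs : Small fun A : Mat => (A.length + 2) *
      (2 * (A.length * A.length * (6 * (A.length * A.length) + 1)) + 1) := by fun_prop
  have hf : Flex O fun A : Mat =>
      (List.range (A.length + 1)).foldl (PTc_step t A) [loopR t A [] 2] := by
    refine Flex.foldl (f := fun A => PTc_step t A) (Flex.of_pt (by fun_prop)) hL hstep ?_
    refine (PB.reindex hs (Prod.fst : Mat × ℕ → Mat)).mono fun q => ?_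
    refine (PT.sz_foldl_le _ _ fun b y _ => PTc_sz_step _ _ _).trans ?_
    have h2 : ((List.range (q.1.length + 1)).take q.2).length ≤ q.1.length + 1 :=
      (List.length_take_le' _ _).trans List.length_range.le
    have h3 : sz (loopR t q.1 [] 2) ≤ _ := PTc_sz_loop q.1 [] 2 _
    have h4 := Nat.mul_le_mul_right
      (2 * (q.1.length * q.1.length * (6 * (q.1.length * q.1.length) + 1)) + 1) h2
    rw [sz_cons, sz_nil]
    generalize q.1.length * q.1.length * (6 * (q.1.length * q.1.length) + 1) = B at h3 h4 ⊢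
    nlinarith
  refine (Flex.ite hc hf hL).congr fun A => ?_
  rw [deco]
  congr 1
  refine List.foldl_ext _ _ _ fun Rs p hp => ?_
  rw [primeStep, PTc_step, min_eq_left (Nat.lt_succ_iff.1 (List.mem_range.1 hp))]

theorem flex_ext (ht : Flex O t) :
    Flex O fun x : Mat × List Mat × List (ℕ × ℕ) => ext t x.1 x.2.1 x.2.2 :=
  PTc_ext ht (by fun_prop) (by fun_prop) (by fun_prop)

theorem flex_gens (ht : Flex O t) : Flex O fun x : Mat × List Mat => gens t x.1 x.2 :=
  PTc_gens ht (by fun_prop) (by fun_prop)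

theorem flex_loopR (ht : Flex O t) :
    Flex O fun x : Mat × List Mat × ℕ => loopR t x.1 x.2.1 x.2.2 :=
  PTc_loopR ht (by fun_prop) (by fun_prop) (by fun_prop)

theorem flex_red (ht : Flex O t) : Flex O (red t) :=
  PTc_post (PTc_deco ht) (fun q => gad q.1 q.2 []) (by fun_prop)

end Pool.Agent.P.MP_9e61a4_lc
end

-- part Pool.Agent.P.MP_9e61a4_lc.Main
section

/-! Canonization of all graphs from canonization of graphs with nilpotent automorphism group. -/

namespace Pool.Agent.P.MP_9e61a4_lc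

open Equiv N487b59b3 N68a2faeb Pool.Agent.Lib.PolyTime

/-- An isomorphism of decorated graphs, as an isomorphism of the numbered gadget graphs. -/
def Main_iso {n j m : ℕ} (e : Fin m ≃ Vx n j 0) {G H : SimpleGraph (Fin n)} {Rs Ss : List Mat}
    (h₁ : Rs.length = j) (h₂ : Ss.length = j) {π : Perm (Fin n)} (h : Maps G Rs H Ss π) :
    (GW G j 0 Rs []).comap e ≃g (GW H j 0 Ss []).comap e where
  toEquiv := e.trans ((liftV j 0 π).trans e.symm)
  map_rel_iff' := fun {a b} => by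
    simpa using (iso_GW G H [] [] h₁ h₂ (liftV j 0 π)).2 ⟨π, rfl, h, by simp⟩ (e a) (e b)

theorem Main_aut {n j m : ℕ} (e : Fin m ≃ Vx n j 0) (G : SimpleGraph (Fin n)) {Rs : List Mat}
    (h : Rs.length = j) :
    Nonempty (AutS G Rs ≃* ((GW G j 0 Rs []).comap e ≃g (GW G j 0 Rs []).comap e)) := by
  let f : AutS G Rs →* ((GW G j 0 Rs []).comap e ≃g (GW G j 0 Rs []).comap e) :=
    { toFun := fun π => Main_iso e h h π.2
      map_one' := by ext x; simp [Main_iso]
      map_mul' := fun π ρ => by ext x; simp [Main_iso] }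
  refine ⟨MulEquiv.ofBijective f ⟨fun π ρ hf => ?_, fun φ => ?_⟩⟩
  · refine Subtype.ext (liftV_injective (j := j) (k := 0) (Equiv.ext fun x => ?_))
    have := DFunLike.congr_fun hf (e.symm x)
    simpa [f, Main_iso] using this
  · obtain ⟨π, h1, h2, -⟩ := (iso_GW G G [] [] h h
      (e.symm.trans (φ.toEquiv.trans e))).1 fun x y => by
        simpa using φ.map_rel_iff (a := e.symm x) (b := e.symm y)
    refine ⟨⟨π, h2⟩, ?_⟩
    ext x
    simp [f, Main_iso, ← h1]

theorem canon_red {t : Mat × Mat → Bool} (ht : Tests t) {c : Mat → Mat} (hc : IsCanon NilAut c) :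
    IsCanon (fun _ _ => True) fun A => dec (c (red t A)) := by
  intro n G _
  obtain ⟨m, e, he⟩ := gad_eq n (deco t (adjMat G)).length 0
  obtain ⟨f⟩ := Main_aut e G (Rs := deco t (adjMat G)) rfl
  obtain ⟨h1, h2⟩ := deco_class ht G
  obtain ⟨⟨Z, hZ, ⟨φ⟩⟩, h3⟩ := hc m _ ⟨normalSylow_of_mulEquiv f h1, fun hs =>
    have := h2 (Group.isSolvable_of_isSolvable_injective (f := f.toMonoidHom) f.injective)
    Group.nilpotent_of_mulEquiv f⟩
  have h4 : red t (adjMat G) = _ := he G _ [] rfl rfl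
  refine ⟨?_, fun H hH => ?_⟩
  · simp only [h4, hZ]
    refine dec_spec G Z (fun u => φ (e.symm (Vx.v u))) (fun u v h => ?_) (fun x => ?_) fun u v => ?_
    · simpa using h
    · obtain ⟨x, rfl⟩ := φ.surjective x
      rw [isV_iso φ, ← isV_iso (SimpleGraph.Iso.comap e _), isV_GW]
      simp [Equiv.eq_symm_apply]
    · rw [φ.map_rel_iff]
      simpa using adj_v G _ _ u v
  · obtain ⟨π, hπ⟩ := deco_canon ht hH
    have h5 : red t (adjMat H) = _ := he H _ [] hπ.2.1.symm rfl
    simp only [h4, h5]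
    rw [h3 _ ⟨Main_iso e rfl hπ.2.1.symm hπ⟩]

theorem main (O : List Bool → Bool) (hO : SolvesGI O) :
    (∃ c, PolyTimeIn O c ∧ IsCanon NilAut c) ↔
      ∃ c, PolyTimeIn O c ∧ IsCanon (fun _ _ => True) c := by
  refine ⟨?_, fun ⟨c, h1, h2⟩ => ⟨c, h1, fun n G _ => h2 n G trivial⟩⟩
  rintro ⟨c, h1, h2⟩
  obtain ⟨t, ht, ht'⟩ := hO
  exact ⟨_, ((Flex.of_pt (pt_dec PT.id)).comp ((Flex.of_polyTimeIn h1).comp
    (flex_red (Flex.of_polyTimeIn ht)))).polyTimeIn, canon_red ht' h2⟩

theorem solvesGI_GI : SolvesGI GI := by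
  refine ⟨fun x => GI (bitEncode x), (Flex.ask PT.id.bitEncode).polyTimeIn, fun n G H => ?_⟩
  simp only [GI, decide_eq_true_eq]
  refine ⟨?_, fun h => ⟨n, G, H, rfl, h⟩⟩
  rintro ⟨m, G', H', e, h⟩
  obtain ⟨e1, e2⟩ := Prod.ext_iff.1 (bitEncode_injective e)
  obtain rfl : n = m := by rw [← length_adjMat G, ← length_adjMat G']; exact congrArg _ e1
  have inj : ∀ A B : SimpleGraph (Fin n), adjMat A = adjMat B → A = B := fun A B h => by
    ext u v
    rw [← mget_adjMat, ← mget_adjMat, h]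
  rwa [inj _ _ e1, inj _ _ e2]

end Pool.Agent.P.MP_9e61a4_lc
end
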